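import Pool.Agent.H89.CY.Def
import Pool.Agent.H75.AP.MertensB

/-!
[H89 CY DLT], part 1 (helper27): `dlt` and `sgm` from `mertens_upper` of H75/AP/MertensB.
-/

set_option autoImplicit false

namespace Pool.Agent.H89.CY.A

open Finset

private theorem exp_le_one_sub {t : ℝ} (h1 : t ≤ 1 / 2) :
    Real.exp (-(t + 2 * t ^ 2)) ≤ 1 - t := by
  have h2 := Real.add_one_le_exp (t + 2 * t ^ 2)
  have h3 : 0 < Real.exp (t + 2 * t ^ 2) := Real.exp_pos _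
  have h4 : 1 ≤ (1 - t) * (t + 2 * t ^ 2 + 1) := by nlinarith [mul_nonneg (sq_nonneg t) (by linarith : 0 ≤ 1 - 2 * t)]
  have h5 : 1 ≤ (1 - t) * Real.exp (t + 2 * t ^ 2) :=
    h4.trans (mul_le_mul_of_nonneg_left h2 (by linarith))
  rw [Real.exp_neg, inv_eq_one_div, div_le_iff₀ h3]
  exact h5

private theorem mem_PR {k z p : ℕ} (hp : p ∈ PR k z) : p.Prime ∧ k < p ∧ p ≤ z := by
  unfold PR at hp
  rw [mem_filter, mem_Icc] at hp
  exact ⟨hp.2, by omega, hp.1.2⟩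

private theorem sum_sq (k z : ℕ) (hz : 1 ≤ z) : ∑ p ∈ PR k z, ((p : ℝ) ^ 2)⁻¹ ≤ 1 := by
  have h1 : ∑ p ∈ PR k z, ((p : ℝ) ^ 2)⁻¹ ≤ ∑ p ∈ Ioc 1 z, ((p : ℝ) ^ 2)⁻¹ := by
    refine sum_le_sum_of_subset_of_nonneg (fun p hp => ?_) fun p _ _ => by positivity
    have h := mem_PR hp
    rw [mem_Ioc]
    exact ⟨h.1.one_lt, h.2.2⟩
  have h2 := sum_Ioc_inv_sq_le_sub (α := ℝ) (k := 1) (n := z) one_ne_zero hz
  have h3 : (0 : ℝ) ≤ (z : ℝ)⁻¹ := by positivity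
  rw [Nat.cast_one, inv_one] at h2
  linarith

private theorem sum_inv (k z : ℕ) : ∑ p ∈ PR k z, 1 / (p : ℝ) ≤ ∑ p ∈ Pool.Agent.H75.AP.PI 0 z, 1 / (p : ℝ) := by
  refine sum_le_sum_of_subset_of_nonneg (fun p hp => ?_) fun p _ _ => by positivity
  have h := mem_PR hp
  unfold Pool.Agent.H75.AP.PI
  rw [mem_filter, mem_range, Nat.floor_natCast]
  exact ⟨by omega, h.1, by exact_mod_cast h.1.pos⟩

theorem dlt : ∃ c0 : ℝ, 0 < c0 ∧ ∀ k z : ℕ, 3 ≤ z → c0 / Real.log z ≤ ∏ p ∈ PR k z, (1 - 1 / (p : ℝ)) := by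
  obtain ⟨C, -, hC⟩ := Pool.Agent.H75.AP.mertens_upper
  refine ⟨Real.exp (-(C + 2)), Real.exp_pos _, fun k z hz => ?_⟩
  have hz3 : (3 : ℝ) ≤ z := by exact_mod_cast hz
  have hlog : 0 < Real.log z := Real.log_pos (by linarith)
  have h1 := hC z hz3
  have h2 := sum_inv k z
  have h3 := sum_sq k z (by omega)
  have h4 : ∏ p ∈ PR k z, Real.exp (-(1 / (p : ℝ) + 2 * (1 / (p : ℝ)) ^ 2)) ≤ ∏ p ∈ PR k z, (1 - 1 / (p : ℝ)) := by
    refine prod_le_prod (fun p _ => (Real.exp_pos _).le) fun p hp => ?_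
    have hp2 : (2 : ℝ) ≤ p := by exact_mod_cast (mem_PR hp).1.two_le
    refine exp_le_one_sub ?_
    exact one_div_le_one_div_of_le (by norm_num) hp2
  refine le_trans ?_ h4
  rw [← Real.exp_sum, sum_neg_distrib, sum_add_distrib, ← mul_sum]
  have h5 : ∑ p ∈ PR k z, (1 / (p : ℝ)) ^ 2 = ∑ p ∈ PR k z, ((p : ℝ) ^ 2)⁻¹ := by
    refine sum_congr rfl fun p _ => ?_
    rw [one_div, inv_pow]
  rw [h5]
  have h6 : Real.exp (-(C + 2)) / Real.log z = Real.exp (-(Real.log (Real.log z) + (C + 2))) := by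
    have e : -(Real.log (Real.log z) + (C + 2)) = -(C + 2) - Real.log (Real.log z) := by ring
    rw [e, Real.exp_sub, Real.exp_log hlog]
  rw [h6]
  refine Real.exp_le_exp.2 ?_
  linarith

theorem sgm (k z : ℕ) (_hz : 1 ≤ z) : ∑ p ∈ PR k z, 1 / (p : ℝ) ≤ 1 + Real.log z := by
  have h1 : ∑ p ∈ PR k z, 1 / (p : ℝ) ≤ ∑ p ∈ Icc 1 z, ((p : ℝ))⁻¹ := by
    have h2 : ∑ p ∈ PR k z, 1 / (p : ℝ) = ∑ p ∈ PR k z, ((p : ℝ))⁻¹ :=
      sum_congr rfl fun p _ => one_div _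
    rw [h2]
    refine sum_le_sum_of_subset_of_nonneg (fun p hp => ?_) fun p _ _ => by positivity
    have h := mem_PR hp
    rw [mem_Icc]
    exact ⟨h.1.pos, h.2.2⟩
  have h3 := harmonic_le_one_add_log z
  rw [harmonic_eq_sum_Icc] at h3
  push_cast at h3
  exact h1.trans h3

end Pool.Agent.H89.CY.A
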