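import Pool.Agent.H89.CY.Def
import Pool.Agent.H75.AP.MertensB
import Pool.Agent.H92.SR.Prm

/-!
[H89 CY DLT, part 2] inputs on primes, from H75/AP/MertensB (`mertens_ratio`) and H92/SR/Prm (`prm`).
-/

namespace Pool.Agent.H89.CY.B

open Finset Pool.Agent.H89.CY Pool.Agent.H75.AP

theorem log_bound : Real.log (9 / 4 : ℝ) ≤ 82 / 100 := by
  rw [Real.log_le_iff_le_exp (by norm_num)]
  have h := Real.sum_le_exp_of_nonneg (x := 82 / 100) (by norm_num) 5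
  refine le_trans ?_ h
  simp only [Finset.sum_range_succ, Finset.sum_range_zero, Nat.factorial]
  norm_num

theorem mer : ∃ v0 : ℕ, ∀ v : ℕ, v0 ≤ v → ∑ p ∈ PR (v ^ 8) (v ^ 18), 1 / (p : ℝ) ≤ 17 / 20 := by
  obtain ⟨u0, hu0, h⟩ := mertens_ratio (9 / 4) (3 / 100) (by norm_num) (by norm_num)
  refine ⟨⌈u0⌉₊ + 1, fun v hv => ?_⟩
  have hv1 : 1 ≤ v := by omega
  have hvR : (1 : ℝ) ≤ v := by exact_mod_cast hv1
  have h1 : u0 ≤ (v : ℝ) ^ 8 := by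
    have h2 : u0 ≤ ⌈u0⌉₊ := Nat.le_ceil u0
    have h3 : ((⌈u0⌉₊ : ℕ) : ℝ) ≤ v := by exact_mod_cast (by omega : ⌈u0⌉₊ ≤ v)
    have h4 : (v : ℝ) ≤ (v : ℝ) ^ 8 := le_self_pow₀ hvR (by norm_num)
    linarith
  have h2 : (v : ℝ) ^ 18 ≤ ((v : ℝ) ^ 8) ^ (9 / 4 : ℝ) := by
    have e : ((v : ℝ) ^ 8) ^ (9 / 4 : ℝ) = (v : ℝ) ^ 18 := by
      rw [← Real.rpow_natCast (v : ℝ) 8, ← Real.rpow_mul (by positivity),
        ← Real.rpow_natCast (v : ℝ) 18]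
      norm_num
    rw [e]
  have h3 := h ((v : ℝ) ^ 8) ((v : ℝ) ^ 18) h1 h2
  have h4 : PR (v ^ 8) (v ^ 18) ⊆ PI ((v : ℝ) ^ 8) ((v : ℝ) ^ 18) := by
    intro p hp
    rw [PR, Finset.mem_filter, Finset.mem_Icc] at hp
    rw [MertB.mem_PI (by positivity)]
    refine ⟨hp.2, ?_, ?_⟩
    · exact_mod_cast (by omega : v ^ 8 < p)
    · exact_mod_cast hp.1.2
  have h5 : ∑ p ∈ PR (v ^ 8) (v ^ 18), 1 / (p : ℝ) ≤
      ∑ p ∈ PI ((v : ℝ) ^ 8) ((v : ℝ) ^ 18), 1 / (p : ℝ) :=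
    Finset.sum_le_sum_of_subset_of_nonneg h4 fun p _ _ => by positivity
  have h6 := log_bound
  linarith

theorem pic : ∃ v0 : ℕ, ∀ v : ℕ, v0 ≤ v → 20 * (PR (v ^ 8) (v ^ 18)).card ≤ v ^ 18 := by
  obtain ⟨N0, h⟩ := Pool.Agent.H92.SR.prm (K := 20) (by norm_num)
  refine ⟨N0 + 1, fun v hv => ?_⟩
  have hv1 : 1 ≤ v := by omega
  have h1 : N0 ≤ v ^ 18 := by
    have : v ≤ v ^ 18 := Nat.le_self_pow (by norm_num) v
    omega
  have h2 := h (v ^ 18) h1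
  have h3 : (PR (v ^ 8) (v ^ 18)).card ≤ (v ^ 18).primeCounting := by
    rw [Nat.primeCounting, Nat.primeCounting', Nat.count_eq_card_filter_range]
    refine Finset.card_le_card fun p hp => ?_
    rw [PR, Finset.mem_filter, Finset.mem_Icc] at hp
    rw [Finset.mem_filter, Finset.mem_range]
    exact ⟨by omega, hp.2⟩
  have h4 : 20 * (v ^ 18 / 20) ≤ v ^ 18 := Nat.mul_div_le _ _
  omega

end Pool.Agent.H89.CY.B
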