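import Pool.Agent.H89.CY.Def
import Pool.Agent.H89.CY.DltA
import Pool.Agent.H89.CY.DltB

/-!
[H89 CY DLT] inputs on primes, from H75/AP/MertensB (`mertens_upper`, `mertens_ratio`, PI u v = primes in (u, v]) and
H92/SR/Prm (`prm`: primeCounting N <= N / K for large N).
* `dlt`: 1 - 1/p >= exp (-1/p - 1/p^2) for p >= 2, sum 1/p^2 <= 1, and sum over p <= z of 1/p <= log log z + C (z >= 3);
  the product over (k, z] is at least the product over all p <= z.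
* `sgm`: sum over primes <= sum over 1 <= m <= z of 1/m <= 1 + log z.
* `mer`: mertens_ratio with R = 9/4, eps = 3/100, u = v^8: (v^8)^(9/4) = v^18, log (9/4) < 0.82.
* `pic`: prm with K = 20.
-/

namespace Pool.Agent.H89.CY

open Finset Classical

theorem dlt : ∃ c0 : ℝ, 0 < c0 ∧ ∀ k z : ℕ, 3 ≤ z → c0 / Real.log z ≤ ∏ p ∈ PR k z, (1 - 1 / (p : ℝ)) :=
  A.dlt

theorem sgm (k z : ℕ) (hz : 1 ≤ z) : ∑ p ∈ PR k z, 1 / (p : ℝ) ≤ 1 + Real.log z :=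
  A.sgm k z hz

theorem mer : ∃ v0 : ℕ, ∀ v : ℕ, v0 ≤ v → ∑ p ∈ PR (v ^ 8) (v ^ 18), 1 / (p : ℝ) ≤ 17 / 20 :=
  B.mer

theorem pic : ∃ v0 : ℕ, ∀ v : ℕ, v0 ≤ v → 20 * (PR (v ^ 8) (v ^ 18)).card ≤ v ^ 18 :=
  B.pic

end Pool.Agent.H89.CY
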