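import Pool.Agent.H89.CY.Gen
import Pool.Agent.H89.CY.Dlt

/-!
[H89 CY PAR] the choice of the parameters: w = v^8, k = v^18, z = floor (exp (v^9)), r = v^28.
-/

namespace Pool.Agent.H89.CY

open Finset Classical Filter

theorem ev_pow (K : ℕ) : ∀ᶠ v : ℕ in atTop, (v : ℝ) ^ K ≤ Real.exp v := by
  have h1 : Tendsto (fun x : ℝ => x ^ K * Real.exp (-x)) atTop (nhds 0) :=
    Real.tendsto_pow_mul_exp_neg_atTop_nhds_zero K
  have h2 := (h1.comp tendsto_natCast_atTop_atTop).eventually (eventually_le_nhds (show (0 : ℝ) < 1 by norm_num))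
  filter_upwards [h2] with v hv
  simp only [Function.comp_apply] at hv
  rw [Real.exp_neg, ← div_eq_mul_inv, div_le_one (Real.exp_pos _)] at hv
  exact hv

theorem log4 : Real.log 4 ≤ 1.4 := by
  have : Real.log 4 = 2 * Real.log 2 := by
    rw [show (4 : ℝ) = 2 ^ 2 by norm_num, Real.log_pow]; norm_num
  rw [this]
  linarith [Real.log_two_lt_d9]

theorem four_pow (n : ℕ) : ((4 ^ n : ℕ) : ℝ) ≤ Real.exp (1.4 * n) := by
  have : ((4 ^ n : ℕ) : ℝ) = Real.exp (Real.log 4 * n) := by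
    rw [Real.exp_mul, Real.exp_log (by norm_num)]
    push_cast
    rw [Real.rpow_natCast]
  rw [this]
  apply Real.exp_le_exp.2
  have := log4
  gcongr

theorem two_le_prim (w : ℕ) (hw : 2 ≤ w) : 2 ≤ primorial w := by
  have : 2 ∣ primorial w := (Nat.Prime.dvd_primorial_iff Nat.prime_two).2 hw
  exact Nat.le_of_dvd (primorial_pos w) this

theorem Q_le (w k : ℕ) : ((∏ p ∈ PR w k, p : ℕ) : ℝ) ≤ Real.exp (1.4 * k) := by
  refine le_trans ?_ (four_pow k)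
  have h1 : (∏ p ∈ PR w k, p) ≤ primorial k := by
    unfold primorial PR
    apply Finset.prod_le_prod_of_subset_of_one_le'
    · intro p hp
      rw [mem_filter, mem_Icc] at hp
      rw [mem_filter, mem_range]
      exact ⟨by omega, hp.2⟩
    · intro p hp _
      rw [mem_filter] at hp
      exact hp.2.one_lt.le
  exact_mod_cast h1.trans (primorial_le_four_pow k)

/-- the bound for the main factor -/
theorem E1_le (c0 : ℝ) (hc0 : 0 < c0) (h : ∀ k z : ℕ, 3 ≤ z → c0 / Real.log z ≤ ∏ p ∈ PR k z, (1 - 1 / (p : ℝ)))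
    (v k z M : ℕ) (hv : 3 ≤ v) (hz3 : 3 ≤ z) (hz : (z : ℝ) ≤ Real.exp (v ^ 9)) (hM : (v : ℝ) ^ 18 / 20 ≤ M) :
    (1 - ∏ p ∈ PR k z, (1 - 1 / (p : ℝ))) ^ M ≤ Real.exp (-(c0 / 20 * v ^ 9)) := by
  have hv0 : (0 : ℝ) < v := by exact_mod_cast (by omega : 0 < v)
  set δ := ∏ p ∈ PR k z, (1 - 1 / (p : ℝ)) with hδ
  have h1 : c0 / (v : ℝ) ^ 9 ≤ δ := by
    refine le_trans ?_ (h k z hz3)
    have h2 : 0 < Real.log z := Real.log_pos (by exact_mod_cast (by omega : 1 < z))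
    have h3 : Real.log z ≤ (v : ℝ) ^ 9 := by
      rw [Real.log_le_iff_le_exp (by exact_mod_cast (by omega : 0 < z))]
      exact hz
    gcongr
  have h4 : δ ≤ 1 := by
    apply prod_le_one
    · intro p hp
      unfold PR at hp
      rw [mem_filter] at hp
      have : (1 : ℝ) / p ≤ 1 := by
        rw [div_le_one (by exact_mod_cast hp.2.pos)]
        exact_mod_cast hp.2.one_lt.le
      linarith
    · intro p hp
      have : (0 : ℝ) ≤ 1 / p := by positivity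
      linarith
  have h5 : (1 - δ) ^ M ≤ (Real.exp (-δ)) ^ M := by
    apply pow_le_pow_left₀ (by linarith)
    have := Real.add_one_le_exp (-δ)
    linarith
  refine h5.trans ?_
  rw [← Real.exp_nat_mul]
  apply Real.exp_le_exp.2
  have h6 : c0 / 20 * (v : ℝ) ^ 9 ≤ M * δ := by
    calc c0 / 20 * (v : ℝ) ^ 9 = (v : ℝ) ^ 18 / 20 * (c0 / (v : ℝ) ^ 9) := by
          field_simp
      _ ≤ M * δ := by
          apply mul_le_mul hM h1 (by positivity) (by positivity)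
  linarith

theorem E2_le (v k z r : ℕ) (hv : 100 ≤ v) (hk : k = v ^ 18) (hr : r = v ^ 28) (hz1 : 1 ≤ z)
    (hz : (z : ℝ) ≤ Real.exp (v ^ 9)) :
    2 * Real.exp (9 * (k * ∑ p ∈ PR k z, 1 / (p : ℝ))) / 3 ^ r ≤ Real.exp (-(v ^ 9)) := by
  have hv1 : (100 : ℝ) ≤ v := by exact_mod_cast hv
  have h1 : ∑ p ∈ PR k z, 1 / (p : ℝ) ≤ 1 + (v : ℝ) ^ 9 := by
    refine (sgm k z hz1).trans ?_
    have : Real.log z ≤ (v : ℝ) ^ 9 := by
      rw [Real.log_le_iff_le_exp (by exact_mod_cast (by omega : 0 < z))]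
      exact hz
    linarith
  have h2 : (Real.exp 1) ^ r ≤ (3 : ℝ) ^ r := by
    apply pow_le_pow_left₀ (Real.exp_pos _).le
    linarith [Real.exp_one_lt_d9]
  have h3 : Real.exp (9 * (k * ∑ p ∈ PR k z, 1 / (p : ℝ))) ≤ Real.exp (9 * ((v : ℝ) ^ 18 * (1 + (v : ℝ) ^ 9))) := by
    apply Real.exp_le_exp.2
    rw [hk] at h1 ⊢
    push_cast
    gcongr
  rw [div_le_iff₀ (by positivity)]
  have h4 : (Real.exp 1) ^ r = Real.exp ((v : ℝ) ^ 28) := by
    rw [← Real.exp_nat_mul, hr]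
    push_cast
    rw [mul_one]
  have h5 : 2 * Real.exp (9 * ((v : ℝ) ^ 18 * (1 + (v : ℝ) ^ 9))) ≤ Real.exp (-(v : ℝ) ^ 9) * Real.exp ((v : ℝ) ^ 28) := by
    rw [← Real.exp_add]
    have h6 : (2 : ℝ) ≤ Real.exp 1 := by linarith [Real.exp_one_gt_d9]
    have h7 : 2 * Real.exp (9 * ((v : ℝ) ^ 18 * (1 + (v : ℝ) ^ 9))) ≤
        Real.exp (1 + 9 * ((v : ℝ) ^ 18 * (1 + (v : ℝ) ^ 9))) := by
      rw [Real.exp_add]
      gcongr
    refine h7.trans (Real.exp_le_exp.2 ?_)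
    have h8 : (v : ℝ) ^ 28 = v ^ 27 * v := by ring
    have h9 : (v : ℝ) ^ 27 * 100 ≤ v ^ 27 * v := by gcongr
    have h10 : (v : ℝ) ^ 18 ≤ v ^ 27 := pow_le_pow_right₀ (by linarith) (by norm_num)
    have h11 : (v : ℝ) ^ 9 ≤ v ^ 27 := pow_le_pow_right₀ (by linarith) (by norm_num)
    have h12 : (1 : ℝ) ≤ v ^ 27 := one_le_pow₀ (by linarith)
    have h13 : (v : ℝ) ^ 18 * (1 + (v : ℝ) ^ 9) = v ^ 18 + v ^ 27 := by ring
    rw [h13]
    linarith
  calc 2 * Real.exp (9 * (k * ∑ p ∈ PR k z, 1 / (p : ℝ))) ≤ 2 * Real.exp (9 * ((v : ℝ) ^ 18 * (1 + (v : ℝ) ^ 9))) := by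
        linarith
    _ ≤ Real.exp (-(v : ℝ) ^ 9) * Real.exp ((v : ℝ) ^ 28) := h5
    _ ≤ Real.exp (-(v ^ 9 : ℝ)) * 3 ^ r := by
        rw [← h4]
        gcongr

theorem E3_le (v w k z r : ℕ) (hv : 100 ≤ v) (hk : k = v ^ 18) (hr : r = v ^ 28) (hz : (z : ℝ) ≤ Real.exp (v ^ 9))
    (hp : (v : ℝ) ^ 18 ≤ Real.exp v) :
    4 * ((∏ p ∈ PR w k, p : ℕ) : ℝ) * (3 * ((z : ℝ) * k + 1)) ^ r ≤ Real.exp (v ^ 38) := by
  have hv1 : (100 : ℝ) ≤ v := by exact_mod_cast hv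
  have h1 : 3 * ((z : ℝ) * k + 1) ≤ Real.exp (v ^ 9 + v + 2) := by
    rw [hk]
    push_cast
    have h2 : (z : ℝ) * v ^ 18 ≤ Real.exp (v ^ 9) * Real.exp v := by gcongr
    have h3 : (1 : ℝ) ≤ Real.exp (v ^ 9) * Real.exp v := by
      rw [← Real.exp_add]
      apply Real.one_le_exp
      positivity
    have h4 : (6 : ℝ) ≤ Real.exp 2 := by
      have := Real.exp_one_gt_d9
      have h5 : Real.exp 2 = Real.exp 1 * Real.exp 1 := by rw [← Real.exp_add]; norm_num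
      rw [h5]
      nlinarith
    rw [Real.exp_add, Real.exp_add]
    have h6 : 0 ≤ Real.exp ((v : ℝ) ^ 9) * Real.exp v := by positivity
    nlinarith
  have h2 : (3 * ((z : ℝ) * k + 1)) ^ r ≤ Real.exp ((v : ℝ) ^ 28 * (v ^ 9 + v + 2)) := by
    refine (pow_le_pow_left₀ (by positivity) h1 r).trans ?_
    rw [← Real.exp_nat_mul, hr]
    push_cast
    exact le_refl _
  have h3 := Q_le w k
  have h4 : (4 : ℝ) ≤ Real.exp 2 := by
    have := Real.exp_one_gt_d9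
    have h5 : Real.exp 2 = Real.exp 1 * Real.exp 1 := by rw [← Real.exp_add]; norm_num
    rw [h5]
    nlinarith
  calc 4 * ((∏ p ∈ PR w k, p : ℕ) : ℝ) * (3 * ((z : ℝ) * k + 1)) ^ r
      ≤ Real.exp 2 * Real.exp (1.4 * k) * Real.exp ((v : ℝ) ^ 28 * (v ^ 9 + v + 2)) := by gcongr
    _ = Real.exp (2 + 1.4 * k + (v : ℝ) ^ 28 * (v ^ 9 + v + 2)) := by rw [Real.exp_add, Real.exp_add]
    _ ≤ Real.exp (v ^ 38) := by
        apply Real.exp_le_exp.2
        rw [hk]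
        push_cast
        have h8 : (v : ℝ) ^ 38 = v ^ 37 * v := by ring
        have h9 : (v : ℝ) ^ 37 * 100 ≤ v ^ 37 * v := by gcongr
        have h10 : (v : ℝ) ^ 18 ≤ v ^ 37 := pow_le_pow_right₀ (by linarith) (by norm_num)
        have h11 : (v : ℝ) ^ 29 ≤ v ^ 37 := pow_le_pow_right₀ (by linarith) (by norm_num)
        have h14 : (v : ℝ) ^ 28 ≤ v ^ 37 := pow_le_pow_right₀ (by linarith) (by norm_num)
        have h12 : (1 : ℝ) ≤ v ^ 37 := one_le_pow₀ (by linarith)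
        have h13 : (v : ℝ) ^ 28 * (v ^ 9 + v + 2) = v ^ 37 + v ^ 29 + 2 * v ^ 28 := by ring
        rw [h13, h8]
        linarith

end Pool.Agent.H89.CY
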