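import Pool.Agent.H89.CY.FinY
import Pool.Agent.H89.CY.GapP

/-!
[H89 CY FINP] the number of n in P (long gaps) with c n <= X is at most X exp (- u / 3), u = (log X)^(1/(K C)).
-/

namespace Pool.Agent.H89.CY

open Finset Classical Filter

/-- bounds for the size of the parameters in the choice y = u^4, k = u^(4C), z = floor (exp u), L >= u^(K C) -/
theorem sizesP (K C D : ℕ) (hK : 5 ≤ K) (hC : 2 ≤ C) (U L : ℝ) (hU : 100 ≤ U) (hUD : 4 * (D : ℝ) ≤ U)
    (h1 : U ^ (K * C) ≤ L) (h2 : L ≤ (U + 1) ^ (K * C)) (hU2 : (2 : ℝ) ^ (K * C) ≤ U)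
    (hp : U ^ ((K + 4) * C + 2) ≤ Real.exp (U / 6)) :
    (U ^ (4 * C) + 1) * D ≤ U ^ (5 * C) / 2 ∧ U ^ 9 * 100 ≤ L ∧ 2 * U ^ (4 * C) ≤ Real.exp (U / 6) ∧
      8 * U ^ (4 * C) * L ≤ Real.exp (U / 6) := by
  have hU0 : 0 < U := by linarith
  have hU1 : 1 ≤ U := by linarith
  have hpow : ∀ m n : ℕ, m ≤ n → U ^ m ≤ U ^ n := fun m n h => pow_le_pow_right₀ hU1 h
  have hone : ∀ m : ℕ, 1 ≤ U ^ m := fun m => one_le_pow₀ hU1
  have hKC : 5 * C ≤ K * C := Nat.mul_le_mul_right C hK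
  refine ⟨?_, ?_, ?_, ?_⟩
  · have e1 : U ^ (5 * C) = U ^ (4 * C) * U ^ C := by rw [← pow_add]; congr 1; ring
    have e2 : U ≤ U ^ C := by
      have := hpow 1 C (by omega)
      rwa [pow_one] at this
    have e3 : U ^ (4 * C) * (4 * (D : ℝ)) ≤ U ^ (4 * C) * U ^ C :=
      mul_le_mul_of_nonneg_left (hUD.trans e2) (by positivity)
    have e4 : 1 ≤ U ^ (4 * C) := hone _
    have e5 : (0 : ℝ) ≤ D := Nat.cast_nonneg _
    have e6 : (D : ℝ) ≤ U ^ (4 * C) * D := by nlinarith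
    rw [e1]
    linarith
  · have e1 : U ^ 10 ≤ U ^ (K * C) := hpow _ _ (by omega)
    have e2 : U ^ 10 = U ^ 9 * U := by ring
    have e3 : U ^ 9 * 100 ≤ U ^ 9 * U := by gcongr
    linarith
  · have e0 : (K + 4) * C + 2 = K * C + 4 * C + 2 := by ring
    have e1 : U ^ (4 * C) * U ≤ U ^ ((K + 4) * C + 2) := by
      rw [← pow_succ, e0]
      exact hpow _ _ (by omega)
    have e2 : U ^ (4 * C) * 2 ≤ U ^ (4 * C) * U := by gcongr; linarith
    linarith
  · have e1 : (U + 1) ^ (K * C) ≤ (2 * U) ^ (K * C) := by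
      apply pow_le_pow_left₀ (by linarith)
      linarith
    have e2 : (2 * U) ^ (K * C) ≤ U * U ^ (K * C) := by
      rw [mul_pow]
      gcongr
    have e3 : 8 * U ^ (4 * C) * L ≤ U * U ^ (4 * C) * (U * U ^ (K * C)) := by
      have : L ≤ U * U ^ (K * C) := h2.trans (e1.trans e2)
      have h0 : 0 ≤ L := le_trans (by positivity) h1
      gcongr
      linarith
    have e4 : U * U ^ (4 * C) * (U * U ^ (K * C)) = U ^ ((K + 4) * C + 2) := by ring
    rw [e4] at e3
    exact e3.trans hp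

theorem finP : ∃ C : ℕ, 2 ≤ C ∧ ∀ K : ℕ, 5 ≤ K → ∃ u0 : ℕ, 1 ≤ u0 ∧ ∀ u : ℕ, u0 ≤ u → ∀ X : ℕ,
    Real.exp ((u : ℝ) ^ (K * C)) ≤ X → (X : ℝ) ≤ Real.exp (((u : ℝ) + 1) ^ (K * C)) →
    ∀ P : ℕ → Prop, (∀ n, 2 ≤ n → P n → Real.exp (Real.log X / 2) ≤ c n →
      (c n : ℝ) + (u : ℝ) ^ (5 * C) / 2 ≤ c (n + 1)) →
    (FXP P X : ℝ) ≤ X * Real.exp (-((u : ℝ) / 3)) := by
  obtain ⟨c0, hc0, hdlt⟩ := dlt
  obtain ⟨w, C, y0, c', hw2, hC, hc, hwy0, hblk⟩ := blk
  refine ⟨C, hC, fun K hK => ?_⟩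
  obtain ⟨v3, hv3⟩ := eventually_atTop.1 (ev_pow6 ((K + 4) * C + 2))
  have hlog : ∀ᶠ u : ℕ in atTop, Real.log u ≤ c' / 4 * u := by
    have h1 := (Real.isLittleO_log_id_atTop.bound (show (0 : ℝ) < c' / 4 by positivity))
    have h2 := tendsto_natCast_atTop_atTop (R := ℝ) |>.eventually h1
    filter_upwards [h2, eventually_ge_atTop 1] with u hu hu1
    simp only [id, Real.norm_eq_abs] at hu
    have h3 : (0 : ℝ) ≤ Real.log u := Real.log_nonneg (by exact_mod_cast hu1)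
    rw [abs_of_nonneg h3, abs_of_nonneg (Nat.cast_nonneg _)] at hu
    exact hu
  obtain ⟨v4, hv4⟩ := eventually_atTop.1 hlog
  obtain ⟨v6, hv6⟩ := exists_nat_ge (1 / c0)
  set D := primorial w with hD
  refine ⟨max (max v3 v4) (max (max v6 y0) (max 1000 (max (4 * D) (2 ^ (K * C))))), ?_, ?_⟩
  · exact le_trans (by norm_num : 1 ≤ 1000)
      ((le_max_left _ _).trans ((le_max_right _ _).trans (le_max_right _ _)))
  intro u hu X hX1 hX2 P hP
  have a3 : v3 ≤ u := le_trans (le_trans (le_max_left _ _) (le_max_left _ _)) hu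
  have a4 : v4 ≤ u := le_trans (le_trans (le_max_right _ _) (le_max_left _ _)) hu
  have a6 : v6 ≤ u := le_trans (le_trans (le_trans (le_max_left _ _) (le_max_left _ _)) (le_max_right _ _)) hu
  have ay : y0 ≤ u := le_trans (le_trans (le_trans (le_max_right _ _) (le_max_left _ _)) (le_max_right _ _)) hu
  have ar : max 1000 (max (4 * D) (2 ^ (K * C))) ≤ u :=
    le_trans (le_trans (le_max_right _ _) (le_max_right _ _)) hu
  have a5 : 1000 ≤ u := le_trans (le_max_left _ _) ar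
  have aD : 4 * D ≤ u := le_trans (le_trans (le_max_left _ _) (le_max_right _ _)) ar
  have a2 : 2 ^ (K * C) ≤ u := le_trans (le_trans (le_max_right _ _) (le_max_right _ _)) ar
  clear hu ar
  set U : ℝ := (u : ℝ) with hU
  have b5 : (1000 : ℝ) ≤ U := by rw [hU]; exact_mod_cast a5
  have b0 : (0 : ℝ) < U := by linarith
  have b1 : (1 : ℝ) ≤ U := by linarith
  have bD : 4 * (D : ℝ) ≤ U := by rw [hU]; exact_mod_cast aD
  have b2 : (2 : ℝ) ^ (K * C) ≤ U := by rw [hU]; exact_mod_cast a2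
  have bp : U ^ ((K + 4) * C + 2) ≤ Real.exp (U / 6) := hv3 u a3
  have blog : Real.log U ≤ c' / 4 * U := hv4 u a4
  have bc0 : 1 / c0 ≤ U := hv6.trans (by rw [hU]; exact_mod_cast a6)
  -- X and its logarithm
  have hX0 : (0 : ℝ) < X := lt_of_lt_of_le (Real.exp_pos _) hX1
  set L := Real.log X with hL
  have hL1 : U ^ (K * C) ≤ L := by rw [hL, Real.le_log_iff_exp_le hX0]; exact hX1
  have hL2 : L ≤ (U + 1) ^ (K * C) := by rw [hL, Real.log_le_iff_le_exp hX0]; exact hX2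
  have hXL : (X : ℝ) = Real.exp L := (Real.exp_log hX0).symm
  obtain ⟨s1, s2, s3, s4⟩ := sizesP K C D hK hC U L (by linarith) bD hL1 hL2 b2 bp
  have hU9 : U ≤ U ^ 9 := by
    have := pow_le_pow_right₀ b1 (show 1 ≤ 9 by norm_num)
    rwa [pow_one] at this
  have hLbig : (1000 : ℝ) ≤ L := by linarith
  -- parameters
  set y := u ^ 4 with hy
  set k := u ^ (4 * C) with hk
  set z := ⌊Real.exp U⌋₊ with hz
  set A := ⌈Real.exp (L / 2)⌉₊ with hA
  set Y := 1 + D * (X / D + 1 + k) with hY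
  have hkU : (k : ℝ) = U ^ (4 * C) := by rw [hk]; push_cast; rfl
  have hzle : (z : ℝ) ≤ Real.exp U := Nat.floor_le (Real.exp_pos _).le
  have hexpU : 1000 ≤ Real.exp U := by have := Real.add_one_le_exp U; linarith
  have hzge : Real.exp U / 2 ≤ z := by
    have h1 := Nat.lt_floor_add_one (Real.exp U)
    rw [← hz] at h1
    linarith
  have hz3 : 3 ≤ z := by
    have : (3 : ℝ) ≤ z := by linarith
    exact_mod_cast this
  have huy : u ≤ y := by
    rw [hy]
    calc u = u ^ 1 := (pow_one u).symm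
      _ ≤ u ^ 4 := Nat.pow_le_pow_right (by omega) (by norm_num)
  have hwy : w < y := by omega
  have hyk : y ^ C ≤ k := by rw [hy, hk, ← pow_mul]
  have hk1 : 1 ≤ k := Nat.one_le_pow _ _ (by omega)
  have hD2 : 2 ≤ D := two_le_prim w hw2
  have hkD1 : (((k + 1) * D : ℕ) : ℝ) ≤ U ^ (5 * C) / 2 := by
    push_cast
    rw [hkU]
    exact s1
  have hkD : (((k + 1) * D : ℕ) : ℝ) ≤ L / 2 := by
    refine hkD1.trans ?_
    have : U ^ (5 * C) ≤ U ^ (K * C) := pow_le_pow_right₀ b1 (Nat.mul_le_mul_right C hK)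
    linarith
  have hPA : ∀ n, 2 ≤ n → P n → A ≤ c n → c n + (k + 1) * D ≤ c (n + 1) := by
    intro n hn hPn hAn
    have h1 : Real.exp (L / 2) ≤ (c n : ℝ) := (Nat.le_ceil _).trans (by exact_mod_cast hAn)
    have h2 := hP n hn hPn h1
    have h3 : ((c n + (k + 1) * D : ℕ) : ℝ) ≤ (c (n + 1) : ℝ) := by
      rw [Nat.cast_add]
      linarith
    exact_mod_cast h3
  have hJ : ∀ a : ℕ, ∃ b : ℕ, b + y ≤ k ∧
      u ^ 3 ≤ ((range y).filter (fun j => ∀ p ∈ PR w y, ¬ p ∣ 1 + D * (a + b + j))).card := by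
    intro a
    obtain ⟨b, hb1, hb2⟩ := hblk y (by omega) k hyk a
    refine ⟨b, hb1, ?_⟩
    have h1 : (U : ℝ) ^ 3 ≤ c' * y / Real.log y := by
      have h2 : Real.log (y : ℝ) = 4 * Real.log U := by
        rw [hy, hU]; push_cast; rw [Real.log_pow]; norm_num
      have h3 : 0 < Real.log U := Real.log_pos (by linarith)
      rw [h2, le_div_iff₀ (by positivity), hy]
      push_cast
      calc U ^ 3 * (4 * Real.log U) ≤ U ^ 3 * (4 * (c' / 4 * U)) := by gcongr
        _ = c' * U ^ 4 := by ring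
    have h4 := h1.trans hb2
    rw [hU] at h4
    exact_mod_cast h4
  have hmain := genP P w y k z D (u ^ 6) (u ^ 3) A X Y hwy rfl hD2 (by omega) hPA hJ rfl
  -- the terms
  have hU4 : U ^ 4 ≤ Real.exp U := by
    have h0 : (K + 4) * C + 2 = K * C + 4 * C + 2 := by ring
    have h1 : U ^ 4 ≤ U ^ ((K + 4) * C + 2) := pow_le_pow_right₀ b1 (by omega)
    have h2 : Real.exp (U / 6) ≤ Real.exp U := Real.exp_le_exp.2 (by linarith)
    exact h1.trans (bp.trans h2)
  have e1 := F1_le c0 hc0 hdlt u y z bc0 (by omega) hz3 hzle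
  have e2 := F2_le u y z (by omega) hy (by omega) hzle
  have e3 := F3_le u w y z (by omega) hy hzle hU4
  clear hblk hdlt hJ hv3 hv4
  have hAle : (A : ℝ) ≤ 2 * Real.exp (L / 2) := by
    have h1 : (A : ℝ) < Real.exp (L / 2) + 1 := Nat.ceil_lt_add_one (Real.exp_pos _).le
    have h2 : 1 ≤ Real.exp (L / 2) := Real.one_le_exp (by linarith)
    linarith
  have hk16 : (k : ℝ) + 1 ≤ Real.exp (U / 6) := by
    rw [hkU]
    have : 1 ≤ U ^ (4 * C) := one_le_pow₀ b1
    linarith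
  have h8L : U ^ 8 + U ≤ L / 4 := by
    have h1 : U ^ 8 ≤ U ^ 9 := pow_le_pow_right₀ b1 (by norm_num)
    linarith
  have t1 : (A : ℝ) + Real.exp (L * (3 / 4)) ≤ X * Real.exp (-(U * (5 / 6))) := by
    have h1 : Real.exp (L / 2) ≤ Real.exp (L * (3 / 4)) := Real.exp_le_exp.2 (by linarith)
    have h3 : (3 : ℝ) ≤ Real.exp 2 := by have := Real.add_one_le_exp (2 : ℝ); linarith
    calc (A : ℝ) + Real.exp (L * (3 / 4)) ≤ 3 * Real.exp (L * (3 / 4)) := by linarith
      _ ≤ Real.exp 2 * Real.exp (L * (3 / 4)) := by gcongr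
      _ = Real.exp (2 + L * (3 / 4)) := by rw [Real.exp_add]
      _ ≤ Real.exp (L + -(U * (5 / 6))) := by
          apply Real.exp_le_exp.2
          have : U * 100 ≤ L := by linarith
          linarith
      _ = X * Real.exp (-(U * (5 / 6))) := by rw [Real.exp_add, ← hXL]
  have t3 : ((k : ℝ) + 1) * (4 * ((∏ p ∈ PR w y, p : ℕ) : ℝ) * (3 * ((z : ℝ) * y + 1)) ^ (u ^ 6)) ≤
      Real.exp (L * (3 / 4)) := by
    calc ((k : ℝ) + 1) * (4 * ((∏ p ∈ PR w y, p : ℕ) : ℝ) * (3 * ((z : ℝ) * y + 1)) ^ (u ^ 6))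
        ≤ Real.exp (U / 6) * Real.exp (U ^ 8) := by
          apply mul_le_mul hk16 e3 (by positivity) (by positivity)
      _ = Real.exp (U / 6 + U ^ 8) := by rw [Real.exp_add]
      _ ≤ Real.exp (L * (3 / 4)) := by
          apply Real.exp_le_exp.2
          linarith
  have hLX : 1 + L ≤ (X : ℝ) := by
    rw [hXL]
    have := Real.add_one_le_exp L
    linarith
  have hTQ : (((X / D + 2 : ℕ) : ℝ) + k + (∏ p ∈ PR w y, p : ℕ)) ≤ 3 * X := by
    have h1 : ((X / D + 2 : ℕ) : ℝ) ≤ X := by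
      have h2 : X / D ≤ X / 2 := Nat.div_le_div_left hD2 (by norm_num)
      have h3 : 4 ≤ X := by
        have : (4 : ℝ) ≤ X := by linarith
        exact_mod_cast this
      exact_mod_cast (by omega : X / D + 2 ≤ X)
    have h4 : ((∏ p ∈ PR w y, p : ℕ) : ℝ) ≤ X := by
      refine (Q_le w y).trans ?_
      rw [hXL]
      apply Real.exp_le_exp.2
      have h3 : (y : ℝ) = U ^ 4 := by rw [hy]; push_cast; rfl
      rw [h3]
      have h5 : U ^ 4 ≤ U ^ 9 := pow_le_pow_right₀ b1 (by norm_num)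
      have h6 : 0 ≤ U ^ 9 := by positivity
      linarith
    have h7 : (k : ℝ) ≤ X := by
      have h8 : (k : ℝ) * 1 ≤ ((k + 1) * D : ℕ) := by
        push_cast
        have h9 : (1 : ℝ) ≤ D := by exact_mod_cast (by omega : 1 ≤ D)
        have h10 : (0 : ℝ) ≤ k := Nat.cast_nonneg _
        nlinarith
      linarith
    linarith
  have hprod : 0 ≤ (1 - ∏ p ∈ PR y z, (1 - 1 / (p : ℝ))) := by
    have : ∏ p ∈ PR y z, (1 - 1 / (p : ℝ)) ≤ 1 := by
      apply prod_le_one
      · intro p hp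
        unfold PR at hp
        rw [mem_filter] at hp
        have : (1 : ℝ) / p ≤ 1 := by
          rw [div_le_one (by exact_mod_cast hp.2.pos)]
          exact_mod_cast hp.2.one_lt.le
        linarith
      · intro p hp
        have : (0 : ℝ) ≤ 1 / p := by positivity
        linarith
    linarith
  have t2 : ((k : ℝ) + 1) * ((((X / D + 2 : ℕ) : ℝ) + k + (∏ p ∈ PR w y, p : ℕ)) *
        ((1 - ∏ p ∈ PR y z, (1 - 1 / (p : ℝ))) ^ (u ^ 3) +
        2 * Real.exp (9 * (y * ∑ p ∈ PR y z, 1 / (p : ℝ))) / 3 ^ (u ^ 6))) ≤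
        6 * (X * Real.exp (-(U * (5 / 6)))) := by
    calc _ ≤ Real.exp (U / 6) * (3 * (X : ℝ) * (2 * Real.exp (-U))) := by
          apply mul_le_mul hk16 _ (by positivity) (by positivity)
          apply mul_le_mul hTQ (by linarith) (by positivity) (by positivity)
      _ = 6 * (X * (Real.exp (U / 6) * Real.exp (-U))) := by ring
      _ = 6 * (X * Real.exp (-(U * (5 / 6)))) := by
          rw [← Real.exp_add]
          congr 3
          ring
  have hYle : (Y : ℝ) ≤ 2 * X := by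
    have h1 : Y ≤ 1 + X + (k + 1) * D := by
      rw [hY]
      have h2 : D * (X / D + 1 + k) = D * (X / D) + (k + 1) * D := by ring
      have h3 := Nat.mul_div_le X D
      omega
    have h2 : (Y : ℝ) ≤ 1 + X + (((k + 1) * D : ℕ) : ℝ) := by exact_mod_cast h1
    linarith
  have hYpos : (1 : ℝ) ≤ Y := by
    have : 1 ≤ Y := by rw [hY]; omega
    exact_mod_cast this
  have hlogY : Real.log Y ≤ L + 1 := by
    have h1 : Real.log Y ≤ Real.log (2 * X) := Real.log_le_log (by linarith) hYle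
    rw [Real.log_mul (by norm_num) hX0.ne'] at h1
    linarith [Real.log_two_lt_d9]
  have t4 : (k : ℝ) * (Y * (2 + Real.log Y) / z) ≤ X * Real.exp (-(U * (5 / 6))) := by
    have h1 : (Y : ℝ) * (2 + Real.log Y) / z ≤ 2 * X * (2 * L) / (Real.exp U / 2) := by
      have h5 : 0 ≤ Real.log Y := Real.log_nonneg hYpos
      have h6 : 2 + Real.log Y ≤ 2 * L := by linarith
      gcongr
    have h2 : 2 * X * (2 * L) / (Real.exp U / 2) = 8 * X * L * Real.exp (-U) := by
      rw [Real.exp_neg]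
      field_simp
      ring
    rw [h2] at h1
    calc (k : ℝ) * (Y * (2 + Real.log Y) / z) ≤ U ^ (4 * C) * (8 * X * L * Real.exp (-U)) := by
          rw [hkU]; gcongr
      _ = (8 * U ^ (4 * C) * L) * (X * Real.exp (-U)) := by ring
      _ ≤ Real.exp (U / 6) * (X * Real.exp (-U)) := by gcongr
      _ = X * (Real.exp (U / 6) * Real.exp (-U)) := by ring
      _ = X * Real.exp (-(U * (5 / 6))) := by
          rw [← Real.exp_add]
          congr 2
          ring
  have hfin : (FXP P X : ℝ) ≤ 8 * (X * Real.exp (-(U * (5 / 6)))) := by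
    rw [mul_add] at hmain
    linarith
  have h6 : (8 : ℝ) ≤ Real.exp (U / 2) := by
    have := Real.add_one_le_exp (U / 2)
    linarith
  calc (FXP P X : ℝ) ≤ 8 * (X * Real.exp (-(U * (5 / 6)))) := hfin
    _ ≤ Real.exp (U / 2) * (X * Real.exp (-(U * (5 / 6)))) := by gcongr
    _ = X * (Real.exp (U / 2) * Real.exp (-(U * (5 / 6)))) := by ring
    _ = X * Real.exp (-(U / 3)) := by
        rw [← Real.exp_add]
        congr 2
        ring

end Pool.Agent.H89.CY
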