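import Pool.Agent.H89.CY.Gap
import Pool.Agent.H24.MultinomialAsym

/-!
[H89 CY CHE] c N <= C N log N. Primes are cyclic, so there are at least pi(y) cyclic numbers <= y; if pi(y) >= N then
c N <= y. By `pi_lower` of H24/MultinomialAsym (y / (2 log y) <= primeCounting y for large y) y = ceil (4 N log N) works for large N
(log y <= 2 log N); the finitely many small N by the constant (log N >= log 2).
-/

namespace Pool.Agent.H89.CY

open Finset

private theorem c_le_of_pi (N y : ℕ) (hN : 1 ≤ N) (h : N ≤ Nat.primeCounting y) : c N ≤ y := by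
  classical
  have h1 : Nat.count Nat.Prime (y + 1) ≤ Nat.count Cyc (y + 1) :=
    Nat.count_mono_left fun p _ hp => cyc_prime p hp
  have h2 : Nat.primeCounting y = Nat.count Nat.Prime (y + 1) := rfl
  have h3 : N - 1 < Nat.count Cyc (y + 1) := by
    rw [h2] at h
    omega
  have h4 := Nat.nth_lt_of_lt_count h3
  unfold c
  omega

theorem che : ∃ C : ℝ, 0 < C ∧ ∀ N : ℕ, 2 ≤ N → (c N : ℝ) ≤ C * N * Real.log N := by
  obtain ⟨y0, hy0⟩ := Filter.eventually_atTop.1 Pool.Agent.H24.MultinomialAsym.pi_lower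
  have h1 : ∀ᶠ x : ℝ in Filter.atTop, 5 ≤ x ∧ 1 ≤ Real.log x ∧ 5 * Real.log x ≤ x := by
    have h2 := Real.isLittleO_log_id_atTop.bound (show (0 : ℝ) < 1 / 5 by norm_num)
    filter_upwards [Filter.eventually_ge_atTop 5, Real.tendsto_log_atTop.eventually_ge_atTop 1, h2] with x a1 a2 a3
    refine ⟨a1, a2, ?_⟩
    rw [Real.norm_eq_abs, abs_of_nonneg (by linarith), id, Real.norm_eq_abs, abs_of_nonneg (by linarith)] at a3
    linarith
  obtain ⟨N0, hN0⟩ := Filter.eventually_atTop.1 ((tendsto_natCast_atTop_atTop (R := ℝ)).eventually h1)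
  obtain ⟨M, hM⟩ : ∃ M : ℕ, M = max N0 (max y0 2) := ⟨_, rfl⟩
  have hM1 : N0 ≤ M := by rw [hM]; exact le_max_left _ _
  have hM2 : y0 ≤ M := by rw [hM]; exact (le_max_left _ _).trans (le_max_right _ _)
  have hM3 : 2 ≤ M := by rw [hM]; exact (le_max_right _ _).trans (le_max_right _ _)
  refine ⟨5 + c M, by positivity, fun N hN => ?_⟩
  have hN1 : (2 : ℝ) ≤ N := by exact_mod_cast hN
  have hlog2 : (1 / 2 : ℝ) ≤ Real.log 2 := by
    have := Real.log_two_gt_d9
    linarith
  have hlogN : (1 / 2 : ℝ) ≤ Real.log N :=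
    hlog2.trans (Real.log_le_log (by norm_num) hN1)
  have hNl : (1 : ℝ) ≤ N * Real.log N := by nlinarith
  have hcM : (0 : ℝ) ≤ c M := Nat.cast_nonneg _
  rcases Nat.lt_or_ge N M with hlt | hge
  · have h2 : c N < c M := c_lt N M (by omega) hlt
    have h3 : (c N : ℝ) ≤ c M := by exact_mod_cast h2.le
    have h4 : (c M : ℝ) * 1 ≤ c M * (N * Real.log N) := mul_le_mul_of_nonneg_left hNl hcM
    have h5 : (5 + (c M : ℝ)) * N * Real.log N = 5 * (N * Real.log N) + c M * (N * Real.log N) := by ring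
    rw [h5]
    linarith
  · obtain ⟨g1, g2, g3⟩ := hN0 N (hM1.trans hge)
    obtain ⟨y, hy⟩ : ∃ y : ℕ, y = ⌈4 * (N : ℝ) * Real.log N⌉₊ := ⟨_, rfl⟩
    have hyge : 4 * (N : ℝ) * Real.log N ≤ y := by rw [hy]; exact Nat.le_ceil _
    have hylt : (y : ℝ) < 4 * (N : ℝ) * Real.log N + 1 := by rw [hy]; exact Nat.ceil_lt_add_one (by positivity)
    have hyN : (N : ℝ) ≤ y := by nlinarith
    have hyN' : N ≤ y := by exact_mod_cast hyN
    have h2 := hy0 y (hM2.trans (hge.trans hyN'))
    have hypos : (0 : ℝ) < y := by linarith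
    have h3 : (y : ℝ) ≤ (N : ℝ) ^ 2 := by nlinarith
    have h4 : Real.log y ≤ 2 * Real.log N := by
      have h5 := Real.log_le_log hypos h3
      rw [Real.log_pow] at h5
      push_cast at h5
      exact h5
    have hly : 0 < Real.log y := Real.log_pos (by linarith)
    have h5 : (N : ℝ) ≤ (y : ℝ) / (2 * Real.log y) := by
      rw [le_div_iff₀ (by positivity)]
      have h6 : (N : ℝ) * Real.log y ≤ N * (2 * Real.log N) := mul_le_mul_of_nonneg_left h4 (by positivity)
      linarith
    have h6 : (N : ℝ) ≤ (Nat.primeCounting y : ℝ) := h5.trans h2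
    have h7 : N ≤ Nat.primeCounting y := by exact_mod_cast h6
    have h8 : c N ≤ y := c_le_of_pi N y (by omega) h7
    have h9 : (c N : ℝ) ≤ y := by exact_mod_cast h8
    have h10 : (0 : ℝ) ≤ c M * (N * Real.log N) := by positivity
    have h11 : (5 + (c M : ℝ)) * N * Real.log N = 5 * (N * Real.log N) + c M * (N * Real.log N) := by ring
    rw [h11]
    linarith

end Pool.Agent.H89.CY
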