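import Pool.Agent.H89.CY.FinP
import Pool.Agent.H89.CY.Che

/-!
[H89 CY FIN3] all but C N exp (- (log N)^c) of the gaps are shorter than (log c n)^eps.
-/

namespace Pool.Agent.H89.CY

open Filter

theorem pick2 (K : ℕ) (hK : 1 ≤ K) (x : ℝ) (hx : 0 ≤ x) :
    ((⌊x ^ (1 / (K : ℝ))⌋₊ : ℕ) : ℝ) ^ K ≤ x ∧ x ≤ (((⌊x ^ (1 / (K : ℝ))⌋₊ : ℕ) : ℝ) + 1) ^ K := by
  have h0 : 0 ≤ x ^ (1 / (K : ℝ)) := by positivity
  have hK0 : (K : ℝ) ≠ 0 := by exact_mod_cast (by omega : K ≠ 0)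
  have h8 : (x ^ (1 / (K : ℝ))) ^ K = x := by
    rw [← Real.rpow_natCast, ← Real.rpow_mul hx, one_div, inv_mul_cancel₀ hK0, Real.rpow_one]
  constructor
  · have h1 := Nat.floor_le h0
    have h2 := pow_le_pow_left₀ (Nat.cast_nonneg _) h1 K
    rwa [h8] at h2
  · have h1 := (Nat.lt_floor_add_one (x ^ (1 / (K : ℝ)))).le
    have h2 := pow_le_pow_left₀ h0 h1 K
    rwa [h8] at h2

theorem c_mono2 {n m : ℕ} (hn : 1 ≤ n) (h : n ≤ m) : c n ≤ c m := by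
  rcases h.eq_or_lt with h | h
  · rw [h]
  · exact (c_lt n m hn h).le

theorem sub_FXP (P : ℕ → Prop) (N X : ℕ) (hX : c N ≤ X) :
    {n | 2 ≤ n ∧ n ≤ N ∧ P n}.ncard ≤ FXP P X := by
  unfold FXP
  apply Set.ncard_le_ncard
  · rintro n ⟨h1, h2, h3⟩
    exact ⟨h1, h3, (c_mono2 (by omega) h2).trans hX⟩
  · exact fin_set X P

/-- the gap after `c n` is at least `(log c_n)^ε` -/
def Long (ε : ℝ) (n : ℕ) : Prop := (Real.log (c n)) ^ ε ≤ (c (n + 1) : ℝ) - c n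

theorem long_step (ε : ℝ) (hε : 0 < ε) (hε1 : ε ≤ 1) (K C : ℕ) (hK : 5 / ε ≤ K) (U L : ℝ) (hU : 1 ≤ U)
    (hL : U ^ (K * C) ≤ L) (n : ℕ) (hn : Long ε n) (hX : Real.exp (L / 2) ≤ c n) :
    (c n : ℝ) + U ^ (5 * C) / 2 ≤ c (n + 1) := by
  unfold Long at hn
  have hU0 : 0 < U := by linarith
  have h0 : (0 : ℝ) < c n := lt_of_lt_of_le (Real.exp_pos _) hX
  have h1 : L / 2 ≤ Real.log (c n) := (Real.le_log_iff_exp_le h0).2 hX
  have h2 : U ^ (K * C) / 2 ≤ Real.log (c n) := by linarith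
  have h3 : (U ^ (K * C) / 2) ^ ε ≤ (Real.log (c n)) ^ ε := Real.rpow_le_rpow (by positivity) h2 hε.le
  have h4 : U ^ (5 * C) / 2 ≤ (U ^ (K * C) / 2) ^ ε := by
    rw [Real.div_rpow (by positivity) (by norm_num)]
    have h5 : (2 : ℝ) ^ ε ≤ 2 := by
      have := Real.rpow_le_rpow_of_exponent_le (show (1 : ℝ) ≤ 2 by norm_num) hε1
      rwa [Real.rpow_one] at this
    have h6 : U ^ (5 * C) ≤ (U ^ (K * C)) ^ ε := by
      rw [← Real.rpow_natCast U (K * C), ← Real.rpow_mul hU0.le, ← Real.rpow_natCast U (5 * C)]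
      apply Real.rpow_le_rpow_of_exponent_le hU
      rw [div_le_iff₀ hε] at hK
      push_cast
      have : (0 : ℝ) ≤ C := Nat.cast_nonneg _
      nlinarith
    have h7 : (0 : ℝ) < 2 ^ ε := by positivity
    gcongr
  linarith

theorem fin_ev3 (ε : ℝ) (hε : 0 < ε) (hε1 : ε ≤ 1) : ∃ C c : ℝ, 0 < C ∧ 0 < c ∧ ∀ᶠ N : ℕ in atTop,
    ({n | 2 ≤ n ∧ n ≤ N ∧ Long ε n}.ncard : ℝ) ≤ C * N * Real.exp (-(Real.log N) ^ c) := by
  obtain ⟨C1, hC1, hche⟩ := che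
  obtain ⟨C, hC, hfz0⟩ := finP
  obtain ⟨K0, hK0⟩ := exists_nat_ge (5 / ε)
  set K := max 5 K0 with hKdef
  have hK5 : 5 ≤ K := le_max_left _ _
  have hKe : 5 / ε ≤ K := hK0.trans (by exact_mod_cast le_max_right 5 K0)
  obtain ⟨u0, hu0, hfz⟩ := hfz0 K hK5
  have hCr : (0 : ℝ) < C := by exact_mod_cast (by omega : 0 < C)
  have hKr : (0 : ℝ) < K := by exact_mod_cast (by omega : 0 < K)
  have hKC1 : 1 ≤ K * C := Nat.mul_pos (by omega) (by omega)
  set e : ℝ := 1 / ((K * C : ℕ) : ℝ) with he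
  set c' : ℝ := 1 / ((K + 1) * C) with hc
  have hcp : 0 < c' := by rw [hc]; positivity
  have hep : 0 < e := by rw [he]; push_cast; positivity
  have hec : 0 < e - c' := by
    rw [he, hc]
    push_cast
    rw [sub_pos]
    apply one_div_lt_one_div_of_lt (by positivity)
    nlinarith
  refine ⟨C1, c', hC1, hcp, ?_⟩
  have tN : Tendsto (fun N : ℕ => Real.log (N : ℝ)) atTop atTop :=
    Real.tendsto_log_atTop.comp tendsto_natCast_atTop_atTop
  have e1 : ∀ᶠ y : ℝ in atTop, 2 * ((u0 : ℝ) + 1) ≤ y ^ e := (tendsto_rpow_atTop hep).eventually_ge_atTop _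
  have e2 : ∀ᶠ y : ℝ in atTop, (12 : ℝ) ≤ y ^ (e - c') := (tendsto_rpow_atTop hec).eventually_ge_atTop _
  have e3 : ∀ᶠ y : ℝ in atTop, Real.log y ≤ y ^ c' := by
    have h1 := (isLittleO_log_rpow_atTop hcp).bound (show (0 : ℝ) < 1 by norm_num)
    filter_upwards [h1, eventually_ge_atTop 1] with y hy hy1
    rw [Real.norm_eq_abs, Real.norm_eq_abs, abs_of_nonneg (Real.log_nonneg hy1),
      abs_of_nonneg (by positivity), one_mul] at hy
    exact hy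
  have e4 : ∀ᶠ y : ℝ in atTop, (1 : ℝ) ≤ y := eventually_ge_atTop 1
  filter_upwards [tN.eventually (e1.and (e2.and (e3.and e4))), eventually_ge_atTop 3] with N hN hN3
  obtain ⟨g1, g2, g3, g4⟩ := hN
  set y := Real.log (N : ℝ) with hy
  have hN0 : (3 : ℝ) ≤ N := by exact_mod_cast hN3
  have hy0 : 0 < y := by linarith
  set X := ⌊C1 * N * Real.log N⌋₊ with hX
  have hXpos : 0 ≤ C1 * N * Real.log N := by positivity
  have hcX : c N ≤ X := Nat.le_floor (hche N (by omega))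
  have hNX : N ≤ X := (c_ge N (by omega)).trans hcX
  have hXN : (N : ℝ) ≤ X := by exact_mod_cast hNX
  have hX0 : (0 : ℝ) < X := by linarith
  have hXle : (X : ℝ) ≤ C1 * N * Real.log N := Nat.floor_le hXpos
  set x := Real.log (X : ℝ) with hx
  have hyx : y ≤ x := Real.log_le_log (by linarith) hXN
  have hx0 : 0 ≤ x := by linarith
  have hXx : (X : ℝ) = Real.exp x := by rw [hx, Real.exp_log hX0]
  obtain ⟨p1, p2⟩ := pick2 (K * C) hKC1 x hx0
  rw [← he] at p1 p2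
  set u := ⌊x ^ e⌋₊ with hu
  have hmono : y ^ e ≤ x ^ e := Real.rpow_le_rpow hy0.le hyx hep.le
  have hulow : y ^ e / 2 ≤ u := by
    have h1 := (Nat.lt_floor_add_one (x ^ e)).le
    rw [← hu] at h1
    have h2 : (0 : ℝ) ≤ u0 := Nat.cast_nonneg _
    linarith
  have huu0 : u0 ≤ u := by
    have : (u0 : ℝ) ≤ u := by linarith
    exact_mod_cast this
  have hu1 : (1 : ℝ) ≤ u := by exact_mod_cast hu0.trans huu0
  have key := hfz u huu0 X (by rw [hXx]; gcongr) (by rw [hXx]; gcongr) (Long ε)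
    (fun n _ hL hXn => long_step ε hε hε1 K C hKe u x hu1 p1 n hL hXn)
  have hexp : Real.log y + y ^ c' ≤ (u : ℝ) / 3 := by
    have h1 : y ^ e = y ^ (e - c') * y ^ c' := by
      rw [← Real.rpow_add hy0]
      congr 1
      ring
    have h4 : 0 ≤ y ^ c' := by positivity
    have h5 : 12 * y ^ c' ≤ y ^ e := by rw [h1]; gcongr
    linarith
  calc ({n | 2 ≤ n ∧ n ≤ N ∧ Long ε n}.ncard : ℝ) ≤ FXP (Long ε) X := by exact_mod_cast sub_FXP (Long ε) N X hcX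
    _ ≤ X * Real.exp (-((u : ℝ) / 3)) := key
    _ ≤ (C1 * N * y) * Real.exp (-(Real.log y + y ^ c')) := by
        gcongr
    _ = C1 * N * Real.exp (-y ^ c') := by
        rw [neg_add, Real.exp_add, Real.exp_neg (Real.log y), Real.exp_log hy0]
        field_simp

theorem ext_all (P : ℕ → Prop) (C1 c : ℝ) (hC1 : 0 < C1) (hc : 0 < c)
    (h : ∀ᶠ N : ℕ in atTop, ({n | 2 ≤ n ∧ n ≤ N ∧ P n}.ncard : ℝ) ≤ C1 * N * Real.exp (-(Real.log N) ^ c)) :
    ∃ C : ℝ, 0 < C ∧ ∀ N : ℕ, 2 ≤ N → ({n | 2 ≤ n ∧ n ≤ N ∧ P n}.ncard : ℝ) ≤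
      C * N * Real.exp (-(Real.log N) ^ c) := by
  obtain ⟨N0, hN0⟩ := eventually_atTop.1 h
  set C2 : ℝ := Real.exp ((Real.log (max N0 2 : ℕ)) ^ c) with hC2
  have hC2p : 0 < C2 := Real.exp_pos _
  refine ⟨C1 + C2, by positivity, ?_⟩
  intro N hN
  rcases le_or_gt N0 N with h1 | h1
  · refine (hN0 N h1).trans ?_
    gcongr
    linarith
  · have h2 : {n | 2 ≤ n ∧ n ≤ N ∧ P n}.ncard ≤ N := by
      have h3 : {n | 2 ≤ n ∧ n ≤ N ∧ P n} ⊆ (Finset.Icc 1 N : Set ℕ) := by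
        rintro n ⟨h4, h5, _⟩
        simp only [Finset.coe_Icc, Set.mem_Icc]
        omega
      refine (Set.ncard_le_ncard h3 (Finset.finite_toSet _)).trans ?_
      rw [Set.ncard_coe_finset, Nat.card_Icc]
      omega
    have h3 : (2 : ℝ) ≤ N := by exact_mod_cast hN
    have hlN : 0 ≤ Real.log N := Real.log_nonneg (by linarith)
    have h4 : Real.log N ≤ Real.log (max N0 2 : ℕ) := by
      apply Real.log_le_log (by linarith)
      exact_mod_cast (by omega : N ≤ max N0 2)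
    have h5 : 1 ≤ C2 * Real.exp (-(Real.log N) ^ c) := by
      rw [hC2, ← Real.exp_add]
      apply Real.one_le_exp
      have := Real.rpow_le_rpow hlN h4 hc.le
      linarith
    calc ({n | 2 ≤ n ∧ n ≤ N ∧ P n}.ncard : ℝ) ≤ N := by exact_mod_cast h2
      _ = N * 1 := (mul_one _).symm
      _ ≤ N * (C2 * Real.exp (-(Real.log N) ^ c)) := by gcongr
      _ = C2 * N * Real.exp (-(Real.log N) ^ c) := by ring
      _ ≤ (C1 + C2) * N * Real.exp (-(Real.log N) ^ c) := by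
          gcongr
          linarith

/-- for large `n` a failure with the factor `lam` is a gap of length at least `(log c_n)^(1/2)` -/
theorem fails_long (lam : ℝ) (hl : 0 < lam) : ∃ n0 : ℕ, ∀ n, n0 ≤ n → 2 ≤ n → FailsL lam n → Long (1 / 2) n := by
  obtain ⟨n0, hn0⟩ := exists_nat_ge (Real.exp (1 / lam ^ 2))
  refine ⟨n0, fun n hn h2 hf => ?_⟩
  have h1 := gapL lam n h2 hf
  unfold Long
  refine le_trans ?_ h1
  have h3 : (n0 : ℝ) ≤ c n := by exact_mod_cast hn.trans (c_ge n (by omega))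
  have h4 : Real.exp (1 / lam ^ 2) ≤ c n := hn0.trans h3
  have h5 : (0 : ℝ) < c n := lt_of_lt_of_le (Real.exp_pos _) h4
  have h6 : 1 / lam ^ 2 ≤ Real.log (c n) := (Real.le_log_iff_exp_le h5).2 h4
  have h7 : 0 < Real.log (c n : ℝ) := lt_of_lt_of_le (by positivity) h6
  rw [← Real.sqrt_eq_rpow]
  rw [Real.sqrt_le_left (by positivity)]
  have h8 : 1 ≤ lam ^ 2 * Real.log (c n) := by
    rw [div_le_iff₀ (by positivity)] at h6
    linarith
  nlinarith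

/-- eventual bounds pass to sets which are contained up to finitely many elements -/
theorem ev_trans (P Q : ℕ → Prop) (n0 : ℕ) (hPQ : ∀ n, n0 ≤ n → 2 ≤ n → P n → Q n) (C1 c : ℝ) (hC1 : 0 < C1)
    (hc : 0 < c) (h : ∀ᶠ N : ℕ in atTop, ({n | 2 ≤ n ∧ n ≤ N ∧ Q n}.ncard : ℝ) ≤
      C1 * N * Real.exp (-(Real.log N) ^ c)) :
    ∀ᶠ N : ℕ in atTop, ({n | 2 ≤ n ∧ n ≤ N ∧ P n}.ncard : ℝ) ≤
      C1 * N * Real.exp (-(Real.log N) ^ (min c (1 / 2))) + n0 := by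
  filter_upwards [h, eventually_ge_atTop 3] with N hN hN3
  have h1 : {n | 2 ≤ n ∧ n ≤ N ∧ P n} ⊆ (Finset.range n0 : Set ℕ) ∪ {n | 2 ≤ n ∧ n ≤ N ∧ Q n} := by
    rintro n ⟨a1, a2, a3⟩
    rcases lt_or_ge n n0 with h | h
    · left; simpa using h
    · right; exact ⟨a1, a2, hPQ n h a1 a3⟩
  have hf : {n | 2 ≤ n ∧ n ≤ N ∧ Q n}.Finite := by
    apply (Set.finite_Iic N).subset
    rintro n ⟨_, h2, _⟩
    exact h2
  have h2 := (Set.ncard_le_ncard h1 ((Finset.finite_toSet _).union hf)).trans (Set.ncard_union_le _ _)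
  rw [Set.ncard_coe_finset, Finset.card_range] at h2
  have h3 : ({n | 2 ≤ n ∧ n ≤ N ∧ P n}.ncard : ℝ) ≤ n0 + ({n | 2 ≤ n ∧ n ≤ N ∧ Q n}.ncard : ℝ) := by
    exact_mod_cast h2
  have h4 : (1 : ℝ) ≤ Real.log N := by
    rw [Real.le_log_iff_exp_le (by positivity)]
    have : (3 : ℝ) ≤ N := by exact_mod_cast hN3
    linarith [Real.exp_one_lt_d9]
  have h5 : (Real.log N) ^ (min c (1 / 2)) ≤ (Real.log N) ^ c :=
    Real.rpow_le_rpow_of_exponent_le h4 (min_le_left _ _)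
  have h6 : C1 * N * Real.exp (-(Real.log N) ^ c) ≤ C1 * N * Real.exp (-(Real.log N) ^ (min c (1 / 2))) := by
    gcongr
  linarith

/-- `n0 ≤ N exp (-(log N)^c)` for large `N`, `c ≤ 1/2` -/
theorem ev_const (n0 : ℕ) (c : ℝ) (hc : 0 < c) (hc1 : c ≤ 1 / 2) :
    ∀ᶠ N : ℕ in atTop, (n0 : ℝ) ≤ 1 * N * Real.exp (-(Real.log N) ^ c) := by
  have tN : Tendsto (fun N : ℕ => Real.log (N : ℝ)) atTop atTop :=
    Real.tendsto_log_atTop.comp tendsto_natCast_atTop_atTop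
  have e1 : ∀ᶠ y : ℝ in atTop, (4 : ℝ) ≤ y := eventually_ge_atTop 4
  have e2 : ∀ᶠ y : ℝ in atTop, (n0 : ℝ) ≤ Real.exp (y / 2) := by
    have : Tendsto (fun y : ℝ => Real.exp (y / 2)) atTop atTop :=
      Real.tendsto_exp_atTop.comp (tendsto_id.atTop_div_const (by norm_num))
    exact this.eventually_ge_atTop _
  filter_upwards [tN.eventually (e1.and e2), eventually_ge_atTop 1] with N hN hN1
  obtain ⟨g1, g2⟩ := hN
  have hN0 : (0 : ℝ) < N := by exact_mod_cast (by omega : 0 < N)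
  set y := Real.log (N : ℝ) with hy
  have hNy : (N : ℝ) = Real.exp y := by rw [hy, Real.exp_log hN0]
  have h1 : y ^ c ≤ y / 2 := by
    have h2 : y ^ c ≤ y ^ (1 / 2 : ℝ) := Real.rpow_le_rpow_of_exponent_le (by linarith) hc1
    have h3 : y ^ (1 / 2 : ℝ) ≤ y / 2 := by
      rw [← Real.sqrt_eq_rpow, Real.sqrt_le_left (by positivity)]
      nlinarith
    linarith
  rw [one_mul, hNy, ← Real.exp_add]
  refine g2.trans (Real.exp_le_exp.2 ?_)
  linarith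

theorem fin3 :
    (∀ ε : ℝ, 0 < ε → ∃ C c : ℝ, 0 < C ∧ 0 < c ∧ ∀ N : ℕ, 2 ≤ N →
      ({n | 2 ≤ n ∧ n ≤ N ∧ Long ε n}.ncard : ℝ) ≤ C * N * Real.exp (-(Real.log N) ^ c)) ∧
    (∃ c : ℝ, 0 < c ∧
      (∃ C : ℝ, 0 < C ∧ ∀ N : ℕ, 2 ≤ N →
        ({n | 2 ≤ n ∧ n ≤ N ∧ Fails n}.ncard : ℝ) ≤ C * N * Real.exp (-(Real.log N) ^ c)) ∧
      (∀ lam : ℝ, 0 < lam → ∃ C : ℝ, 0 < C ∧ ∀ N : ℕ, 2 ≤ N →
        ({n | 2 ≤ n ∧ n ≤ N ∧ FailsL lam n}.ncard : ℝ) ≤ C * N * Real.exp (-(Real.log N) ^ c))) := by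
  refine ⟨?_, ?_⟩
  · intro ε hε
    obtain ⟨C1, c1, hC1, hc1, h⟩ := fin_ev3 (min ε 1) (lt_min hε one_pos) (min_le_right _ _)
    have hlong : ∀ n, 3 ≤ n → 2 ≤ n → Long ε n → Long (min ε 1) n := by
      intro n hn _ hL
      unfold Long at hL ⊢
      refine le_trans ?_ hL
      apply Real.rpow_le_rpow_of_exponent_le _ (min_le_left _ _)
      have h3 : (3 : ℝ) ≤ c n := by exact_mod_cast hn.trans (c_ge n (by omega))
      rw [Real.le_log_iff_exp_le (by linarith)]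
      linarith [Real.exp_one_lt_d9]
    have h2 := ev_trans (Long ε) (Long (min ε 1)) 3 hlong C1 c1 hC1 hc1 h
    have hm : 0 < min c1 (1 / 2) := lt_min hc1 (by norm_num)
    have h3 := ev_const 3 (min c1 (1 / 2)) hm (min_le_right _ _)
    obtain ⟨C, hC, hh⟩ := ext_all (Long ε) (C1 + 1) (min c1 (1 / 2)) (by positivity) hm (by
      filter_upwards [h2, h3] with N a b
      have : (C1 + 1) * (N : ℝ) * Real.exp (-(Real.log N) ^ (min c1 (1 / 2))) =
        C1 * N * Real.exp (-(Real.log N) ^ (min c1 (1 / 2))) +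
          1 * N * Real.exp (-(Real.log N) ^ (min c1 (1 / 2))) := by ring
      rw [this]
      linarith)
    exact ⟨C, min c1 (1 / 2), hC, hm, hh⟩
  · obtain ⟨C1, c1, hC1, hc1, h⟩ := fin_ev3 (1 / 2) (by norm_num) (by norm_num)
    have hm : 0 < min c1 (1 / 2) := lt_min hc1 (by norm_num)
    have main : ∀ lam : ℝ, 0 < lam → ∀ P : ℕ → Prop, (∀ n, 2 ≤ n → P n → FailsL lam n) →
        ∃ C : ℝ, 0 < C ∧ ∀ N : ℕ, 2 ≤ N →
          ({n | 2 ≤ n ∧ n ≤ N ∧ P n}.ncard : ℝ) ≤ C * N * Real.exp (-(Real.log N) ^ (min c1 (1 / 2))) := by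
      intro lam hl P hP
      obtain ⟨n0, hn0⟩ := fails_long lam hl
      have h2 := ev_trans P (Long (1 / 2)) n0 (fun n a b p => hn0 n a b (hP n b p)) C1 c1 hC1 hc1 h
      have h3 := ev_const n0 (min c1 (1 / 2)) hm (min_le_right _ _)
      exact ext_all P (C1 + 1) (min c1 (1 / 2)) (by positivity) hm (by
        filter_upwards [h2, h3] with N a b
        have : (C1 + 1) * (N : ℝ) * Real.exp (-(Real.log N) ^ (min c1 (1 / 2))) =
          C1 * N * Real.exp (-(Real.log N) ^ (min c1 (1 / 2))) +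
            1 * N * Real.exp (-(Real.log N) ^ (min c1 (1 / 2))) := by ring
        rw [this]
        linarith)
    exact ⟨min c1 (1 / 2), hm, main 1 one_pos Fails fails_one, fun lam hl => main lam hl _ (fun n _ h => h)⟩

end Pool.Agent.H89.CY
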