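import Pool.Agent.H89.CY.Rgh

/-!
[H89 CY BLK] pigeonhole: one block of length y of the interval contains many of the numbers counted by `rgh`.
range k is the union of the k / y blocks [i y, (i+1) y) and a rest of less than y elements. If each block had fewer than (c/2) y / log y
elements of the set, the set would have at most (c/2) k / log y + y elements. For k >= y^(C+3) this contradicts `rgh` for y > 2 / c.
-/

namespace Pool.Agent.H89.CY

open Finset Classical

private theorem block_count (y k : ℕ) (hy : 0 < y) (S : Finset ℕ) (F : ℕ → Finset ℕ)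
    (hS : ∀ j ∈ S, j < k ∧ j % y ∈ F (j / y)) :
    S.card ≤ ∑ i ∈ range (k / y), (F i).card + y := by
  have hsub : S ⊆ (range (k / y)).biUnion (fun i => (F i).image (fun j => y * i + j)) ∪
      Ico (y * (k / y)) k := by
    intro j hj
    obtain ⟨hjk, hjF⟩ := hS j hj
    rw [mem_union]
    by_cases hi : j / y < k / y
    · left
      rw [mem_biUnion]
      refine ⟨j / y, mem_range.2 hi, mem_image.2 ⟨j % y, hjF, ?_⟩⟩
      exact Nat.div_add_mod j y
    · right
      rw [mem_Ico]
      refine ⟨?_, hjk⟩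
      have h1 : y * (k / y) ≤ y * (j / y) := Nat.mul_le_mul_left _ (by omega)
      exact h1.trans (Nat.mul_div_le j y)
  have h1 : (Ico (y * (k / y)) k).card ≤ y := by
    rw [Nat.card_Ico]
    have h2 := Nat.div_add_mod k y
    have h3 := Nat.mod_lt k hy
    omega
  refine (card_le_card hsub).trans ((card_union_le _ _).trans (Nat.add_le_add ?_ h1))
  refine card_biUnion_le.trans (sum_le_sum fun i _ => card_image_le)

theorem blk : ∃ (w C y0 : ℕ) (c : ℝ), 2 ≤ w ∧ 2 ≤ C ∧ 0 < c ∧ w < y0 ∧ ∀ y : ℕ, y0 ≤ y → ∀ k : ℕ, y ^ C ≤ k →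
    ∀ a : ℕ, ∃ b : ℕ, b + y ≤ k ∧ c * y / Real.log y ≤
      ((range y).filter (fun j => ∀ p ∈ PR w y, ¬ p ∣ 1 + primorial w * (a + b + j))).card := by
  obtain ⟨w, C, c, y0, hw, hC, hc, hwy, H⟩ := rgh
  refine ⟨w, C + 3, y0 + ⌈2 / c⌉₊ + 3, c / 2, hw, by omega, by positivity, by omega, ?_⟩
  intro y hy k hk a
  have hy0 : 0 < y := by omega
  have hyR : (0 : ℝ) < y := by exact_mod_cast hy0
  have hy3 : (3 : ℝ) ≤ y := by
    have : 3 ≤ y := by omega
    exact_mod_cast this
  have hlog : 0 < Real.log y := Real.log_pos (by linarith)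
  have hyc : 2 / c < y := by
    have h1 : 2 / c ≤ ⌈2 / c⌉₊ := Nat.le_ceil _
    have h2 : ((⌈2 / c⌉₊ : ℕ) : ℝ) < y := by
      have : ⌈2 / c⌉₊ < y := by omega
      exact_mod_cast this
    linarith
  have hyC : y ^ C ≤ k := le_trans (Nat.pow_le_pow_right hy0 (by omega)) hk
  have hy3k : y ^ 3 ≤ k := le_trans (Nat.pow_le_pow_right hy0 (by omega)) hk
  have hk3 : (y : ℝ) ^ 3 ≤ k := by exact_mod_cast hy3k
  have h0 := H y (by omega) k hyC a
  by_contra hcon
  push Not at hcon
  set F : ℕ → Finset ℕ := fun i =>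
    (range y).filter (fun j => ∀ p ∈ PR w y, ¬ p ∣ 1 + primorial w * (a + y * i + j)) with hF
  have hFc : ∀ i ∈ range (k / y), ((F i).card : ℝ) ≤ c / 2 * y / Real.log y := by
    intro i hi
    have hi' := mem_range.1 hi
    have h1 : y * i + y ≤ k := by
      have h2 : y * (i + 1) ≤ y * (k / y) := Nat.mul_le_mul_left _ hi'
      have h3 := Nat.mul_div_le k y
      rw [Nat.mul_add, Nat.mul_one] at h2
      omega
    exact (hcon (y * i) h1).le
  have hcount := block_count y k hy0
    ((range k).filter (fun j => ∀ p ∈ PR w y, ¬ p ∣ 1 + primorial w * (a + j))) F (by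
      intro j hj
      rw [mem_filter, mem_range] at hj
      refine ⟨hj.1, ?_⟩
      rw [hF]
      simp only [mem_filter, mem_range]
      refine ⟨Nat.mod_lt j hy0, ?_⟩
      intro p hp
      have h1 : a + y * (j / y) + j % y = a + j := by
        rw [Nat.add_assoc, Nat.div_add_mod]
      rw [h1]
      exact hj.2 p hp)
  have hcount' : (((range k).filter (fun j => ∀ p ∈ PR w y,
      ¬ p ∣ 1 + primorial w * (a + j))).card : ℝ) ≤
      ∑ i ∈ range (k / y), ((F i).card : ℝ) + y := by
    exact_mod_cast hcount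
  have hsum : ∑ i ∈ range (k / y), ((F i).card : ℝ) ≤ c / 2 * k / Real.log y := by
    calc ∑ i ∈ range (k / y), ((F i).card : ℝ) ≤
        ∑ _i ∈ range (k / y), c / 2 * y / Real.log y := sum_le_sum hFc
      _ = ((k / y : ℕ) : ℝ) * (c / 2 * y / Real.log y) := by
          rw [sum_const, card_range, nsmul_eq_mul]
      _ ≤ (k : ℝ) / y * (c / 2 * y / Real.log y) := by
          refine mul_le_mul_of_nonneg_right Nat.cast_div_le ?_
          positivity
      _ = c / 2 * k / Real.log y := by
          field_simp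
  have h1 : c * k / Real.log y ≤ c / 2 * k / Real.log y + y := by linarith
  have h2 : c / 2 * k / Real.log y ≤ y := by
    have h3 : c * k / Real.log y = c / 2 * k / Real.log y + c / 2 * k / Real.log y := by ring
    linarith
  have h3 : c / 2 * k ≤ y * Real.log y := by
    rwa [div_le_iff₀ hlog] at h2
  have h4 : Real.log y ≤ y := (Real.log_le_sub_one_of_pos hyR).trans (by linarith)
  have h5 : c / 2 * (y : ℝ) ^ 3 ≤ y * y := by
    calc c / 2 * (y : ℝ) ^ 3 ≤ c / 2 * k := mul_le_mul_of_nonneg_left hk3 (by positivity)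
      _ ≤ y * Real.log y := h3
      _ ≤ y * y := mul_le_mul_of_nonneg_left h4 hyR.le
  have h6 : 2 < c * y := by
    rw [div_lt_iff₀ hc] at hyc
    linarith
  have h7 : (0 : ℝ) < y * y := by positivity
  nlinarith

end Pool.Agent.H89.CY
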