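import Pool.Agent.H89.CY.Def

/-!
[H89 CY CMP] comparison of two weighted sets of points by the moments of order at most r (truncated inclusion-exclusion).
Put up A a H T = sum of a ω over the ω in A with T ⊆ H ω. Let G(T) = sum over U ⊆ T of (-1)^(|T|-|U|) F(U) (Moebius), so
|G(T)| <= 2^|T| and F(U) = sum over T ⊆ U of G(T) (Finset Moebius inversion; Mathlib has
`Finset.sum_powerset_neg_one_pow_card` or do it by swapping the sums: sum over V ⊆ T ⊆ U of (-1)^(|T|-|V|) = [V = U]).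
Put F_r(U) = sum over T ⊆ U, |T| < r, of G(T). If |U| < r then F_r(U) = F(U). If |U| >= r then
|F(U) - F_r(U)| <= 1 + sum_{i<r} C(|U|,i) 2^i <= C(|U|,r) (2^r + sum_{i<r} C(r,i) 2^i) = 3^r C(|U|,r), because
C(u,i) C(u-i,r-i) = C(u,r) C(r,i) gives C(u,i) <= C(u,r) C(r,i), and 1 <= 2^r, C(u,r) >= 1.
Sum over ω: sum a F_r(H ω) = sum_{|T|<r} G(T) up(T) and sum a C(|H ω|, r) = sum_{|T|=r} up(T) (all H ω ⊆ P). Twice.
-/

namespace Pool.Agent.H89.CY

open Finset Classical

/-- moment of the set `T` -/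
noncomputable def up {Ω α : Type*} (A : Finset Ω) (a : Ω → ℝ) (H : Ω → Finset α) (T : Finset α) : ℝ :=
  ∑ ω ∈ A.filter (fun ω => T ⊆ H ω), a ω

/-- Moebius transform -/
private noncomputable def mob {α : Type*} (F : Finset α → ℝ) (T : Finset α) : ℝ :=
  ∑ V ∈ T.powerset, (-1) ^ (T.card + V.card) * F V

private theorem mob_insert {α : Type*} (F : Finset α → ℝ) (x : α) (T : Finset α) (hx : x ∉ T) :
    mob F (insert x T) = mob (fun V => F (insert x V)) T - mob F T := by
  unfold mob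
  rw [sum_powerset_insert hx, card_insert_of_notMem hx]
  have h1 : ∑ V ∈ T.powerset, (-1 : ℝ) ^ (T.card + 1 + V.card) * F V =
      - ∑ V ∈ T.powerset, (-1 : ℝ) ^ (T.card + V.card) * F V := by
    rw [← sum_neg_distrib]
    refine sum_congr rfl fun V _ => ?_
    have : T.card + 1 + V.card = (T.card + V.card) + 1 := by ring
    rw [this, pow_succ]
    ring
  have h2 : ∑ V ∈ T.powerset, (-1 : ℝ) ^ (T.card + 1 + (insert x V).card) * F (insert x V) =
      ∑ V ∈ T.powerset, (-1 : ℝ) ^ (T.card + V.card) * F (insert x V) := by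
    refine sum_congr rfl fun V hV => ?_
    have hxV : x ∉ V := fun h => hx (mem_powerset.1 hV h)
    rw [card_insert_of_notMem hxV]
    have : T.card + 1 + (V.card + 1) = (T.card + V.card) + 2 := by ring
    rw [this, pow_add]
    norm_num
  rw [h1, h2]
  ring

private theorem mob_sum {α : Type*} (U : Finset α) : ∀ F : Finset α → ℝ, ∑ T ∈ U.powerset, mob F T = F U := by
  induction U using Finset.induction_on with
  | empty =>
    intro F
    simp [mob]
  | insert x U hx ih =>
    intro F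
    rw [sum_powerset_insert hx]
    have h1 : ∑ T ∈ U.powerset, mob F (insert x T) =
        ∑ T ∈ U.powerset, mob (fun V => F (insert x V)) T - ∑ T ∈ U.powerset, mob F T := by
      rw [← sum_sub_distrib]
      refine sum_congr rfl fun T hT => ?_
      exact mob_insert F x T fun h => hx (mem_powerset.1 hT h)
    rw [h1, ih (fun V => F (insert x V))]
    ring

private theorem mob_abs {α : Type*} (F : Finset α → ℝ) (h0 : ∀ U, 0 ≤ F U) (h1 : ∀ U, F U ≤ 1) (T : Finset α) :
    |mob F T| ≤ 2 ^ T.card := by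
  unfold mob
  refine (abs_sum_le_sum_abs _ _).trans ?_
  have h2 : ∀ V ∈ T.powerset, |(-1 : ℝ) ^ (T.card + V.card) * F V| ≤ 1 := by
    intro V _
    rw [abs_mul, abs_pow, abs_neg, abs_one, one_pow, one_mul, abs_of_nonneg (h0 V)]
    exact h1 V
  refine (sum_le_sum h2).trans ?_
  rw [sum_const, card_powerset, nsmul_eq_mul, mul_one]
  push_cast
  exact le_rfl

private theorem choose_le' (u r i : ℕ) (hr : r ≤ u) (hi : i ≤ r) :
    ((u.choose i : ℕ) : ℝ) ≤ (u.choose r : ℕ) * (r.choose i : ℕ) := by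
  have h1 : u.choose r * r.choose i = u.choose i * (u - i).choose (r - i) := Nat.choose_mul hi
  have h2 : 1 ≤ (u - i).choose (r - i) := Nat.choose_pos (Nat.sub_le_sub_right hr i)
  have h3 : u.choose i ≤ u.choose r * r.choose i := by
    rw [h1]
    exact Nat.le_mul_of_pos_right _ h2
  exact_mod_cast h3

private theorem low {α : Type*} (U : Finset α) (r : ℕ) (hr : r ≤ U.card) :
    1 + ∑ T ∈ U.powerset.filter (fun T => T.card < r), (2 : ℝ) ^ T.card ≤ 3 ^ r * (U.card.choose r : ℕ) := by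
  have h1 : ∑ T ∈ U.powerset.filter (fun T => T.card < r), (2 : ℝ) ^ T.card =
      ∑ i ∈ range r, ((U.card.choose i : ℕ) : ℝ) * 2 ^ i := by
    rw [sum_filter]
    have h2 := sum_powerset_apply_card (fun i => if i < r then (2 : ℝ) ^ i else 0) (x := U)
    rw [h2]
    have h3 : range r ⊆ range (U.card + 1) := range_subset_range.2 (by omega)
    rw [← sum_subset h3]
    · refine sum_congr rfl fun i hi => ?_
      rw [if_pos (mem_range.1 hi), nsmul_eq_mul]
    · intro i _ hi
      rw [if_neg (fun h => hi (mem_range.2 h)), smul_zero]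
  rw [h1]
  have h4 : ∑ i ∈ range r, ((U.card.choose i : ℕ) : ℝ) * 2 ^ i ≤
      ∑ i ∈ range r, ((U.card.choose r : ℕ) : ℝ) * ((r.choose i : ℕ) : ℝ) * 2 ^ i := by
    refine sum_le_sum fun i hi => ?_
    exact mul_le_mul_of_nonneg_right (choose_le' _ _ _ hr (mem_range.1 hi).le) (by positivity)
  have h5 : (1 : ℝ) ≤ ((U.card.choose r : ℕ) : ℝ) * ((r.choose r : ℕ) : ℝ) * 2 ^ r := by
    have a1 : (1 : ℝ) ≤ ((U.card.choose r : ℕ) : ℝ) := by exact_mod_cast Nat.choose_pos hr
    have a2 : (1 : ℝ) ≤ 2 ^ r := one_le_pow₀ (by norm_num)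
    rw [Nat.choose_self, Nat.cast_one, mul_one]
    nlinarith
  have h6 : (3 : ℝ) ^ r = ∑ i ∈ range (r + 1), 2 ^ i * ((r.choose i : ℕ) : ℝ) := by
    have h7 := add_pow (2 : ℝ) 1 r
    simp only [one_pow, mul_one] at h7
    rw [← h7]
    norm_num
  calc 1 + ∑ i ∈ range r, ((U.card.choose i : ℕ) : ℝ) * 2 ^ i ≤
      ((U.card.choose r : ℕ) : ℝ) * ((r.choose r : ℕ) : ℝ) * 2 ^ r +
        ∑ i ∈ range r, ((U.card.choose r : ℕ) : ℝ) * ((r.choose i : ℕ) : ℝ) * 2 ^ i := add_le_add h5 h4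
    _ = ∑ i ∈ range (r + 1), ((U.card.choose r : ℕ) : ℝ) * ((r.choose i : ℕ) : ℝ) * 2 ^ i := by
      rw [sum_range_succ, add_comm]
    _ = 3 ^ r * (U.card.choose r : ℕ) := by
      rw [h6, sum_mul]
      refine sum_congr rfl fun i _ => ?_
      ring

private theorem trunc {α : Type*} (F : Finset α → ℝ) (h0 : ∀ U, 0 ≤ F U) (h1 : ∀ U, F U ≤ 1) (r : ℕ) (U : Finset α) :
    |F U - ∑ T ∈ U.powerset.filter (fun T => T.card < r), mob F T| ≤
      3 ^ r * ∑ T ∈ U.powerset.filter (fun T => T.card = r), (1 : ℝ) := by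
  have hc : ∑ T ∈ U.powerset.filter (fun T => T.card = r), (1 : ℝ) = (U.card.choose r : ℕ) := by
    rw [sum_const, nsmul_eq_mul, mul_one]
    have : U.powerset.filter (fun T => T.card = r) = U.powersetCard r := by
      ext T
      rw [mem_filter, mem_powerset, mem_powersetCard]
    rw [this, card_powersetCard]
  rw [hc]
  by_cases hr : r ≤ U.card
  · refine le_trans ?_ (low U r hr)
    have h2 : |∑ T ∈ U.powerset.filter (fun T => T.card < r), mob F T| ≤
        ∑ T ∈ U.powerset.filter (fun T => T.card < r), (2 : ℝ) ^ T.card :=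
      (abs_sum_le_sum_abs _ _).trans (sum_le_sum fun _ _ => mob_abs F h0 h1 _)
    have h3 : |F U| ≤ 1 := by
      rw [abs_of_nonneg (h0 U)]
      exact h1 U
    exact (abs_sub _ _).trans (add_le_add h3 h2)
  · have h2 : U.powerset.filter (fun T => T.card < r) = U.powerset := by
      refine filter_true_of_mem fun T hT => ?_
      exact lt_of_le_of_lt (card_le_card (mem_powerset.1 hT)) (not_le.1 hr)
    rw [h2, mob_sum, sub_self, abs_zero]
    positivity

private theorem swap {Ω α : Type*} (P : Finset α) (A : Finset Ω) (a : Ω → ℝ) (H : Ω → Finset α)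
    (hH : ∀ ω ∈ A, H ω ⊆ P) (q : Finset α → Prop) [DecidablePred q] (g : Finset α → ℝ) :
    ∑ ω ∈ A, a ω * ∑ T ∈ (H ω).powerset.filter q, g T = ∑ T ∈ P.powerset.filter q, g T * up A a H T := by
  have h1 : ∀ ω ∈ A, a ω * ∑ T ∈ (H ω).powerset.filter q, g T =
      ∑ T ∈ P.powerset.filter q, if T ⊆ H ω then g T * a ω else 0 := by
    intro ω hω
    rw [← sum_filter, mul_sum]
    have h2 : (H ω).powerset.filter q = (P.powerset.filter q).filter (fun T => T ⊆ H ω) := by
      ext T
      simp only [mem_filter, mem_powerset]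
      exact ⟨fun h => ⟨⟨h.1.trans (hH ω hω), h.2⟩, h.1⟩, fun h => ⟨h.2, h.1.2⟩⟩
    rw [h2]
    refine sum_congr rfl fun T _ => ?_
    ring
  rw [sum_congr rfl h1, sum_comm]
  refine sum_congr rfl fun T _ => ?_
  rw [← sum_filter, up, mul_sum]

theorem cmp {Ω Ω' α : Type*} (P : Finset α) (A : Finset Ω) (B : Finset Ω') (a : Ω → ℝ) (b : Ω' → ℝ)
    (ha : ∀ ω ∈ A, 0 ≤ a ω) (hb : ∀ ω ∈ B, 0 ≤ b ω) (H : Ω → Finset α) (H' : Ω' → Finset α)
    (hH : ∀ ω ∈ A, H ω ⊆ P) (hH' : ∀ ω ∈ B, H' ω ⊆ P) (F : Finset α → ℝ) (h0 : ∀ U, 0 ≤ F U) (h1 : ∀ U, F U ≤ 1)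
    (r : ℕ) :
    ∑ ω ∈ A, a ω * F (H ω) ≤ ∑ ω ∈ B, b ω * F (H' ω)
      + ∑ T ∈ P.powerset.filter (fun T => T.card < r), 2 ^ T.card * |up A a H T - up B b H' T|
      + 3 ^ r * ∑ T ∈ P.powerset.filter (fun T => T.card = r), (up A a H T + up B b H' T) := by
  have hA : ∑ ω ∈ A, a ω * F (H ω) ≤ ∑ T ∈ P.powerset.filter (fun T => T.card < r), mob F T * up A a H T
      + 3 ^ r * ∑ T ∈ P.powerset.filter (fun T => T.card = r), up A a H T := by
    rw [← swap P A a H hH (fun T => T.card < r) (mob F)]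
    have e1 : ∑ T ∈ P.powerset.filter (fun T => T.card = r), up A a H T =
        ∑ ω ∈ A, a ω * ∑ T ∈ (H ω).powerset.filter (fun T => T.card = r), (1 : ℝ) := by
      rw [swap P A a H hH (fun T => T.card = r) (fun _ => 1)]
      simp only [one_mul]
    rw [e1, mul_sum, ← sum_add_distrib]
    refine sum_le_sum fun ω hω => ?_
    have h2 := (abs_le.1 (trunc F h0 h1 r (H ω))).2
    have h3 : a ω * F (H ω) ≤ a ω * (∑ T ∈ (H ω).powerset.filter (fun T => T.card < r), mob F T +
        3 ^ r * ∑ T ∈ (H ω).powerset.filter (fun T => T.card = r), (1 : ℝ)) :=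
      mul_le_mul_of_nonneg_left (by linarith) (ha ω hω)
    refine h3.trans (le_of_eq ?_)
    ring
  have hB : ∑ T ∈ P.powerset.filter (fun T => T.card < r), mob F T * up B b H' T
      - 3 ^ r * ∑ T ∈ P.powerset.filter (fun T => T.card = r), up B b H' T ≤ ∑ ω ∈ B, b ω * F (H' ω) := by
    rw [← swap P B b H' hH' (fun T => T.card < r) (mob F)]
    have e1 : ∑ T ∈ P.powerset.filter (fun T => T.card = r), up B b H' T =
        ∑ ω ∈ B, b ω * ∑ T ∈ (H' ω).powerset.filter (fun T => T.card = r), (1 : ℝ) := by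
      rw [swap P B b H' hH' (fun T => T.card = r) (fun _ => 1)]
      simp only [one_mul]
    rw [e1, mul_sum, ← sum_sub_distrib]
    refine sum_le_sum fun ω hω => ?_
    have h2 := (abs_le.1 (trunc F h0 h1 r (H' ω))).1
    have h3 : b ω * (∑ T ∈ (H' ω).powerset.filter (fun T => T.card < r), mob F T -
        3 ^ r * ∑ T ∈ (H' ω).powerset.filter (fun T => T.card = r), (1 : ℝ)) ≤ b ω * F (H' ω) :=
      mul_le_mul_of_nonneg_left (by linarith) (hb ω hω)
    refine le_trans (le_of_eq ?_) h3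
    ring
  have hC : ∑ T ∈ P.powerset.filter (fun T => T.card < r), mob F T * up A a H T -
      ∑ T ∈ P.powerset.filter (fun T => T.card < r), mob F T * up B b H' T ≤
      ∑ T ∈ P.powerset.filter (fun T => T.card < r), 2 ^ T.card * |up A a H T - up B b H' T| := by
    rw [← sum_sub_distrib]
    refine sum_le_sum fun T _ => ?_
    rw [← mul_sub]
    refine (le_abs_self _).trans ?_
    rw [abs_mul]
    exact mul_le_mul_of_nonneg_right (mob_abs F h0 h1 T) (abs_nonneg _)
  have hD : 3 ^ r * ∑ T ∈ P.powerset.filter (fun T => T.card = r), (up A a H T + up B b H' T) =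
      3 ^ r * ∑ T ∈ P.powerset.filter (fun T => T.card = r), up A a H T +
        3 ^ r * ∑ T ∈ P.powerset.filter (fun T => T.card = r), up B b H' T := by
    rw [sum_add_distrib, mul_add]
  rw [hD]
  linarith

end Pool.Agent.H89.CY
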