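import Pool.Agent.H89.CY.Gap

/-!
[H89 CY CNT] failures give long runs of non cyclic numbers in the progression 1 mod D.
For a failing `n` with `A ≤ c n` the gap is at least log (c n) >= log A >= (k+1) D (theorem `gap`). Put
t = c n / D + 1 (natural division). Then c n < D t, so c n < 1 + D (t + j), and for j < k:
1 + D (t + j) <= 1 + D (c n / D + k) <= 1 + c n + D k < c n + (k+1) D <= c (n+1) (D >= 2), so by `no_cyc` none of them is
cyclic. The map n |-> c n / D + 1 is injective on the failing n: for n < n' (both failing) c n' >= c (n+1) >= c n + (k+1) D.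
(Set.ncard_le_ncard_of_injOn; the target set is finite, t <= X / D + 1.)
-/

namespace Pool.Agent.H89.CY

open Finset

private theorem gap' (D k A n : ℕ) (hD : 2 ≤ D) (hA : (((k + 1) * D : ℕ) : ℝ) ≤ Real.log A)
    (hn : 2 ≤ n) (hf : Fails n) (hAn : A ≤ c n) : c n + (k + 1) * D ≤ c (n + 1) := by
  have hpos : (0 : ℝ) < Real.log A := by
    refine lt_of_lt_of_le ?_ hA
    have : 0 < (k + 1) * D := Nat.mul_pos (Nat.succ_pos k) (by omega)
    exact_mod_cast this
  have hA0 : 0 < A := by
    rcases Nat.eq_zero_or_pos A with h | h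
    · rw [h] at hpos
      simp at hpos
    · exact h
  have h1 : Real.log A ≤ Real.log (c n) :=
    Real.log_le_log (by exact_mod_cast hA0) (by exact_mod_cast hAn)
  have h2 := gap n hn hf
  have h3 : (((k + 1) * D : ℕ) : ℝ) ≤ (c (n + 1) : ℝ) - c n := hA.trans (h1.trans h2)
  have h4 : ((c n + (k + 1) * D : ℕ) : ℝ) ≤ (c (n + 1) : ℝ) := by
    rw [Nat.cast_add]
    linarith
  exact_mod_cast h4

private theorem div_lt (D k A n m : ℕ) (hD : 2 ≤ D) (hA : (((k + 1) * D : ℕ) : ℝ) ≤ Real.log A)
    (hn : 2 ≤ n) (hf : Fails n) (hAn : A ≤ c n) (hm : n < m) : c n / D < c m / D := by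
  have h1 := gap' D k A n hD hA hn hf hAn
  have h2 : c (n + 1) ≤ c m := by
    rcases Nat.lt_or_ge (n + 1) m with h | h
    · exact (c_lt (n + 1) m (by omega) h).le
    · have : n + 1 = m := by omega
      rw [this]
  have h3 : c n + D ≤ c m := by nlinarith
  have hD0 : 0 < D := by omega
  calc c n / D < c n / D + 1 := Nat.lt_succ_self _
    _ = (c n + D) / D := (Nat.add_div_right (c n) hD0).symm
    _ ≤ c m / D := Nat.div_le_div_right h3

theorem cnt (D k A X : ℕ) (hD : 2 ≤ D) (hk : 1 ≤ k) (hA : (((k + 1) * D : ℕ) : ℝ) ≤ Real.log A) :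
    {n | 2 ≤ n ∧ Fails n ∧ A ≤ c n ∧ c n ≤ X}.ncard ≤
      {t | t ≤ X / D + 1 ∧ ∀ j < k, ¬ Cyc (1 + D * (t + j))}.ncard := by
  refine Set.ncard_le_ncard_of_injOn (fun n => c n / D + 1) ?_ ?_ ?_
  · rintro n ⟨hn, hf, hAn, hX⟩
    have h1 := gap' D k A n hD hA hn hf hAn
    refine ⟨Nat.add_le_add_right (Nat.div_le_div_right hX) 1, ?_⟩
    intro j hj
    have h2 : D * (c n / D) ≤ c n := Nat.mul_div_le (c n) D
    have h3 : c n < D * (c n / D) + D := by
      have := Nat.lt_mul_div_succ (c n) (show 0 < D by omega)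
      rw [Nat.mul_add, Nat.mul_one] at this
      exact this
    have h4 : D * (c n / D + 1 + j) = D * (c n / D) + D + D * j := by ring
    have h5 : D * j + D ≤ D * k := by
      have : D * (j + 1) ≤ D * k := Nat.mul_le_mul_left D hj
      rw [Nat.mul_add, Nat.mul_one] at this
      exact this
    have h6 : (k + 1) * D = D * k + D := by ring
    apply no_cyc n _ (by omega)
    · rw [h4]
      omega
    · rw [h4]
      omega
  · rintro n ⟨hn, hf, hAn, _⟩ m ⟨hm, hfm, hAm, _⟩ h
    have h' : c n / D = c m / D := Nat.succ_injective h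
    rcases Nat.lt_trichotomy n m with h1 | h1 | h1
    · have := div_lt D k A n m hD hA hn hf hAn h1
      omega
    · exact h1
    · have := div_lt D k A m n hD hA hm hfm hAm h1
      omega
  · exact (Set.finite_Iic (X / D + 1)).subset (fun t ht => ht.1)

end Pool.Agent.H89.CY
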