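import Pool.Agent.H89.CY.Def

/-!
[H89 CY CRT] counting s < S in prescribed classes for a set T of pairs (p, j), p in R.
-/

namespace Pool.Agent.H89.CY.A

open Finset Classical

private theorem one_class (T : Finset (ℕ × ℕ)) (ρ : ℕ → ℕ → ℕ) (hT : ∀ a ∈ T, a.1.Prime)
    (h1 : ∀ a ∈ T, ∀ b ∈ T, a.1 = b.1 → a = b) :
    ∃ r : ℕ, ∀ s : ℕ, (∀ a ∈ T, s ≡ ρ a.1 a.2 [MOD a.1]) ↔ s ≡ r [MOD ∏ a ∈ T, a.1] := by
  induction T using Finset.induction_on with
  | empty =>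
    refine ⟨0, fun s => ?_⟩
    simp [Nat.modEq_one]
  | insert a T ha ih =>
    obtain ⟨r, hr⟩ := ih (fun b hb => hT b (mem_insert_of_mem hb))
      (fun b hb c hc => h1 b (mem_insert_of_mem hb) c (mem_insert_of_mem hc))
    have hco : Nat.Coprime a.1 (∏ b ∈ T, b.1) := by
      apply Nat.Coprime.prod_right
      intro b hb
      refine (Nat.coprime_primes (hT a (mem_insert_self _ _)) (hT b (mem_insert_of_mem hb))).2 ?_
      intro h
      have h2 := h1 a (mem_insert_self _ _) b (mem_insert_of_mem hb) h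
      rw [h2] at ha
      exact ha hb
    obtain ⟨k, hk1, hk2⟩ := Nat.chineseRemainder hco (ρ a.1 a.2) r
    refine ⟨k, fun s => ?_⟩
    rw [prod_insert ha, ← Nat.modEq_and_modEq_iff_modEq_mul hco]
    constructor
    · intro h
      refine ⟨(h a (mem_insert_self _ _)).trans hk1.symm, ?_⟩
      exact ((hr s).1 fun b hb => h b (mem_insert_of_mem hb)).trans hk2.symm
    · rintro ⟨h2, h3⟩ b hb
      rcases mem_insert.1 hb with rfl | hb
      · exact h2.trans hk1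
      · exact (hr s).2 (h3.trans hk2) b hb

private theorem count_class (S d r : ℕ) (hd : 0 < d) :
    |(((range S).filter (fun s => s ≡ r [MOD d])).card : ℝ) - S / d| ≤ 1 := by
  have h0 : ((range S).filter (fun s => s ≡ r [MOD d])).card = S.count (· ≡ r [MOD d]) :=
    (Nat.count_eq_card_filter_range _ _).symm
  have h1 : ((range S).filter (fun s => s ≡ r [MOD d])).card =
      S / d + if r % d < S % d then 1 else 0 := by
    rw [h0]
    exact Nat.count_modEq_card S hd r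
  have hd' : (0 : ℝ) < d := by exact_mod_cast hd
  have h2 : (S : ℝ) / d = (S / d : ℕ) + ((S % d : ℕ) : ℝ) / d := by
    rw [div_eq_iff hd'.ne', add_mul, div_mul_cancel₀ _ hd'.ne']
    have h3 : S = S / d * d + S % d := (Nat.div_add_mod' S d).symm
    exact_mod_cast h3
  have h4 : ((S % d : ℕ) : ℝ) / d ≤ 1 := by
    rw [div_le_one hd']
    exact_mod_cast (Nat.mod_lt S hd).le
  have h5 : (0 : ℝ) ≤ ((S % d : ℕ) : ℝ) / d := by positivity
  rw [h1, h2]
  push_cast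
  split_ifs with h
  · rw [abs_le]
    constructor <;> linarith
  · rw [abs_le]
    constructor <;> linarith

theorem crt (S : ℕ) (T : Finset (ℕ × ℕ)) (ρ : ℕ → ℕ → ℕ) (hT : ∀ a ∈ T, a.1.Prime)
    (h1 : ∀ a ∈ T, ∀ b ∈ T, a.1 = b.1 → a = b) :
    |(((range S).filter (fun s => ∀ a ∈ T, s ≡ ρ a.1 a.2 [MOD a.1])).card : ℝ) - S * ∏ a ∈ T, (1 / (a.1 : ℝ))| ≤ 1 := by
  obtain ⟨r, hr⟩ := one_class T ρ hT h1
  have hd : 0 < ∏ a ∈ T, a.1 := prod_pos fun a ha => (hT a ha).pos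
  have e1 : (range S).filter (fun s => ∀ a ∈ T, s ≡ ρ a.1 a.2 [MOD a.1]) =
      (range S).filter (fun s => s ≡ r [MOD ∏ a ∈ T, a.1]) := by
    apply filter_congr
    intro s _
    exact hr s
  have e2 : (S : ℝ) * ∏ a ∈ T, (1 / (a.1 : ℝ)) = S / ((∏ a ∈ T, a.1 : ℕ) : ℝ) := by
    rw [prod_div_distrib, prod_const_one]
    push_cast
    ring
  have h := count_class S (∏ a ∈ T, a.1) r hd
  rw [e2]
  have e3 : ((range S).filter (fun s => ∀ a ∈ T, s ≡ ρ a.1 a.2 [MOD a.1])).card =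
      ((range S).filter (fun s => s ≡ r [MOD ∏ a ∈ T, a.1])).card := congrArg Finset.card e1
  rw [e3]
  exact h

theorem crt0 (S : ℕ) (T : Finset (ℕ × ℕ)) (ρ : ℕ → ℕ → ℕ)
    (hρ : ∀ a ∈ T, ∀ b ∈ T, a.1 = b.1 → ρ a.1 a.2 ≡ ρ b.1 b.2 [MOD a.1] → a = b)
    (h1 : ¬ ∀ a ∈ T, ∀ b ∈ T, a.1 = b.1 → a = b) :
    ((range S).filter (fun s => ∀ a ∈ T, s ≡ ρ a.1 a.2 [MOD a.1])).card = 0 := by
  rw [card_eq_zero, filter_eq_empty_iff]
  intro s _ hs
  apply h1
  intro a ha b hb hab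
  refine hρ a ha b hb hab ?_
  have h2 : s ≡ ρ b.1 b.2 [MOD a.1] := by
    rw [hab]
    exact hs b hb
  exact (hs a ha).symm.trans h2

end Pool.Agent.H89.CY.A
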