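import Pool.Agent.H89.CY.Def

/-!
[H89 CY CRT, part 2] `esum`: the elementary symmetric sums; `few`: the number of small subsets.
-/

namespace Pool.Agent.H89.CY.B

open Finset Classical

theorem esum {α : Type*} (P : Finset α) (x : α → ℝ) (hx : ∀ a ∈ P, 0 ≤ x a) (y : ℝ) (hy : 0 < y) (r : ℕ) :
    ∑ T ∈ P.powerset.filter (fun T => T.card = r), ∏ a ∈ T, x a ≤ Real.exp (y * ∑ a ∈ P, x a) / y ^ r := by
  have hyr : 0 < y ^ r := pow_pos hy r
  rw [le_div_iff₀ hyr, Finset.sum_mul]
  calc ∑ T ∈ P.powerset.filter (fun T => T.card = r), (∏ a ∈ T, x a) * y ^ r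
      = ∑ T ∈ P.powerset.filter (fun T => T.card = r), ∏ a ∈ T, (y * x a) := by
        refine Finset.sum_congr rfl fun T hT => ?_
        rw [Finset.prod_mul_distrib, Finset.prod_const, (Finset.mem_filter.1 hT).2, mul_comm]
    _ ≤ ∑ T ∈ P.powerset, ∏ a ∈ T, (y * x a) := by
        refine Finset.sum_le_sum_of_subset_of_nonneg (Finset.filter_subset _ _) fun T hT _ => ?_
        refine Finset.prod_nonneg fun a ha => mul_nonneg hy.le (hx a (Finset.mem_powerset.1 hT ha))
    _ = ∏ a ∈ P, (1 + y * x a) := (Finset.prod_one_add P).symm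
    _ ≤ ∏ a ∈ P, Real.exp (y * x a) := by
        refine Finset.prod_le_prod (fun a ha => ?_) fun a ha => ?_
        · have := mul_nonneg hy.le (hx a ha)
          linarith
        · rw [add_comm]
          exact Real.add_one_le_exp _
    _ = Real.exp (y * ∑ a ∈ P, x a) := by rw [← Real.exp_sum, Finset.mul_sum]

/-- the number of subsets with at most r elements -/
theorem few {α : Type*} (P : Finset α) (r : ℕ) :
    (P.powerset.filter (fun T => T.card ≤ r)).card ≤ (P.card + 1) ^ r := by
  induction r with
  | zero =>
    have h1 : P.powerset.filter (fun T => T.card ≤ 0) ⊆ {∅} := by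
      intro T hT
      rw [Finset.mem_singleton, ← Finset.card_eq_zero]
      exact Nat.le_zero.1 (Finset.mem_filter.1 hT).2
    refine (Finset.card_le_card h1).trans ?_
    simp
  | succ r ih =>
    have h1 : P.powerset.filter (fun T => T.card ≤ r + 1) ⊆
        ((P.powerset.filter (fun T => T.card ≤ r)) ×ˢ (insertNone P)).image
          (fun z : Finset α × Option α => z.2.elim z.1 (fun a => insert a z.1)) := by
      intro T hT
      rw [Finset.mem_filter, Finset.mem_powerset] at hT
      rw [Finset.mem_image]
      by_cases h : T.card ≤ r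
      · refine ⟨(T, none), ?_, rfl⟩
        rw [Finset.mem_product, Finset.mem_filter, Finset.mem_powerset]
        exact ⟨⟨hT.1, h⟩, Finset.none_mem_insertNone⟩
      · obtain ⟨a, ha⟩ : T.Nonempty := Finset.card_pos.1 (by omega)
        refine ⟨(T.erase a, some a), ?_, Finset.insert_erase ha⟩
        rw [Finset.mem_product, Finset.mem_filter, Finset.mem_powerset]
        refine ⟨⟨(Finset.erase_subset a T).trans hT.1, ?_⟩, Finset.some_mem_insertNone.2 (hT.1 ha)⟩
        show (T.erase a).card ≤ r
        rw [Finset.card_erase_of_mem ha]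
        omega
    refine (Finset.card_le_card h1).trans (Finset.card_image_le.trans ?_)
    rw [Finset.card_product, Finset.card_insertNone, pow_succ]
    exact Nat.mul_le_mul_right _ ih

end Pool.Agent.H89.CY.B
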