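import Pool.Agent.H89.CY.Def
import Pool.Agent.H89.CY.CrtA
import Pool.Agent.H89.CY.CrtB

/-!
[H89 CY CRT] counting s < S in prescribed classes for a set T of pairs (p, j), p in R.
* `crt`: if no two pairs of T have the same p: the conditions s = ρ p j mod p, (p, j) in T, are one class modulo
  d = prod over T of p (Chinese remainder, induction over T; Nat.chineseRemainder), and #{s < S : s = a mod d} is within 1 of S/d
  (Nat.count_modEq_card or a direct argument).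
* `crt0`: if two different pairs (p,i), (p,j) lie in T, there is no s (residues different modulo p).
* `esum`: sum over T ⊆ P with |T| = r of prod x = at most exp (y sum x) / y^r: prod (1 + y x_a) = sum_T prod (y x_a)
  (Finset.prod_one_add or Finset.prod_add), 1 + u <= exp u, all x >= 0, y > 0.
-/

namespace Pool.Agent.H89.CY

open Finset Classical

theorem crt (S : ℕ) (T : Finset (ℕ × ℕ)) (ρ : ℕ → ℕ → ℕ) (hT : ∀ a ∈ T, a.1.Prime)
    (h1 : ∀ a ∈ T, ∀ b ∈ T, a.1 = b.1 → a = b) :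
    |(((range S).filter (fun s => ∀ a ∈ T, s ≡ ρ a.1 a.2 [MOD a.1])).card : ℝ) - S * ∏ a ∈ T, (1 / (a.1 : ℝ))| ≤ 1 :=
  A.crt S T ρ hT h1

theorem crt0 (S : ℕ) (T : Finset (ℕ × ℕ)) (ρ : ℕ → ℕ → ℕ)
    (hρ : ∀ a ∈ T, ∀ b ∈ T, a.1 = b.1 → ρ a.1 a.2 ≡ ρ b.1 b.2 [MOD a.1] → a = b)
    (h1 : ¬ ∀ a ∈ T, ∀ b ∈ T, a.1 = b.1 → a = b) :
    ((range S).filter (fun s => ∀ a ∈ T, s ≡ ρ a.1 a.2 [MOD a.1])).card = 0 :=
  A.crt0 S T ρ hρ h1

theorem esum {α : Type*} (P : Finset α) (x : α → ℝ) (hx : ∀ a ∈ P, 0 ≤ x a) (y : ℝ) (hy : 0 < y) (r : ℕ) :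
    ∑ T ∈ P.powerset.filter (fun T => T.card = r), ∏ a ∈ T, x a ≤ Real.exp (y * ∑ a ∈ P, x a) / y ^ r :=
  B.esum P x hx y hy r

/-- the number of subsets with at most r elements -/
theorem few {α : Type*} (P : Finset α) (r : ℕ) :
    (P.powerset.filter (fun T => T.card ≤ r)).card ≤ (P.card + 1) ^ r :=
  B.few P r

end Pool.Agent.H89.CY
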