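import Pool.Agent.H89.CY.PerA

/-!
[H89 CY PER] full periods: the proportion of s for which all j are hit is at most (1 - prod (1 - 1/p)) ^ |J|.
* `cls`: G periodic modulo Q, p coprime to Q: the s < Q p n with s = a mod p and G s are exactly 1/p of the s < Q p n with G s.
  (Chinese remainder: both counts are n times, resp. n p times, the number of s < Q with G s.)
* `per`: induction over R (Finset.induction_on), for all J, ρ, n. Step R' = insert p R, Q = prod over R:
  the s < Q p n for which Hit R' J holds: either s = ρ p j mod p for exactly one j in J (the residues are different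
  modulo p), and then Hit R (J \ {j}) s, or for no j, and then Hit R J s. By `cls` (the complement class counted by subtraction),
  count = sum_j (1/p) g(J \ {j}) + (1 - |J|/p) g(J), g(J) = #{s < Q p n : Hit R J s} <= Q p n x ^ |J|, x = 1 - prod over R of (1 - 1/p)
  (induction hypothesis with p n for n). |J| <= p by the injectivity. With m = |J| >= 1:
  (m/p) x^(m-1) + (1 - m/p) x^m <= (x + (1-x)/p)^m (Bernoulli / first two terms of the binomial formula, 0 <= x <= 1), and
  x + (1-x)/p = 1 - prod over R' of (1 - 1/p). For m = 0 both sides are trivial.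
-/

namespace Pool.Agent.H89.CY

open Finset Classical

theorem cls (Q p n a : ℕ) (hQ : 1 ≤ Q) (hp : 1 ≤ p) (hc : Nat.Coprime Q p) (G : ℕ → Prop)
    (hG : ∀ s, G (s + Q) ↔ G s) :
    p * ((range (Q * p * n)).filter (fun s => s ≡ a [MOD p] ∧ G s)).card =
      ((range (Q * p * n)).filter (fun s => G s)).card :=
  A.cls Q p n a hQ hp hc G hG

private theorem hit_per (R J : Finset ℕ) (ρ : ℕ → ℕ → ℕ) (s : ℕ) :
    Hit R J ρ (s + ∏ p ∈ R, p) ↔ Hit R J ρ s := by
  have h1 : ∀ q ∈ R, s + ∏ p ∈ R, p ≡ s [MOD q] := by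
    intro q hq
    have hd : q ∣ ∏ p ∈ R, p := Finset.dvd_prod_of_mem (fun p => p) hq
    have h2 := (Nat.modEq_zero_iff_dvd.2 hd)
    have h3 := (Nat.ModEq.refl s).add h2
    simpa using h3
  unfold Hit
  constructor
  · intro h j hj
    obtain ⟨q, hq, hs⟩ := h j hj
    exact ⟨q, hq, (h1 q hq).symm.trans hs⟩
  · intro h j hj
    obtain ⟨q, hq, hs⟩ := h j hj
    exact ⟨q, hq, (h1 q hq).trans hs⟩

private theorem point (R J : Finset ℕ) (ρ : ℕ → ℕ → ℕ) (p : ℕ)
    (hinj : ∀ i ∈ J, ∀ j ∈ J, ρ p i ≡ ρ p j [MOD p] → i = j) (s : ℕ) :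
    (if Hit (insert p R) J ρ s then 1 else 0) +
      ∑ j ∈ J, (if s ≡ ρ p j [MOD p] ∧ Hit R J ρ s then 1 else 0) =
    ∑ j ∈ J, (if s ≡ ρ p j [MOD p] ∧ Hit R (J.erase j) ρ s then 1 else 0) +
      (if Hit R J ρ s then 1 else 0) := by
  by_cases h : ∃ j0 ∈ J, s ≡ ρ p j0 [MOD p]
  · obtain ⟨j0, hj0, hs⟩ := h
    have huniq : ∀ j ∈ J, j ≠ j0 → ¬ s ≡ ρ p j [MOD p] := fun j hj hne h' =>
      hne (hinj j hj j0 hj0 (h'.symm.trans hs))
    have hiff : Hit (insert p R) J ρ s ↔ Hit R (J.erase j0) ρ s := by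
      unfold Hit
      constructor
      · intro h j hj
        obtain ⟨hne, hj⟩ := Finset.mem_erase.1 hj
        obtain ⟨q, hq, hqs⟩ := h j hj
        rcases Finset.mem_insert.1 hq with hqp | hq
        · rw [hqp] at hqs
          exact absurd hqs (huniq j hj hne)
        · exact ⟨q, hq, hqs⟩
      · intro h j hj
        by_cases hne : j = j0
        · rw [hne]
          exact ⟨p, Finset.mem_insert_self _ _, hs⟩
        · obtain ⟨q, hq, hqs⟩ := h j (Finset.mem_erase.2 ⟨hne, hj⟩)
          exact ⟨q, Finset.mem_insert_of_mem hq, hqs⟩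
    have e1 : ∑ j ∈ J, (if s ≡ ρ p j [MOD p] ∧ Hit R J ρ s then 1 else 0) =
        (if Hit R J ρ s then 1 else 0) := by
      rw [Finset.sum_eq_single j0]
      · by_cases hh : Hit R J ρ s
        · rw [if_pos ⟨hs, hh⟩, if_pos hh]
        · rw [if_neg (fun h => hh h.2), if_neg hh]
      · intro j hj hne
        exact if_neg fun h => huniq j hj hne h.1
      · intro hj
        exact absurd hj0 hj
    have e2 : ∑ j ∈ J, (if s ≡ ρ p j [MOD p] ∧ Hit R (J.erase j) ρ s then 1 else 0) =
        (if Hit (insert p R) J ρ s then 1 else 0) := by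
      rw [Finset.sum_eq_single j0]
      · by_cases hh : Hit R (J.erase j0) ρ s
        · rw [if_pos ⟨hs, hh⟩, if_pos (hiff.2 hh)]
        · rw [if_neg (fun h => hh h.2), if_neg (fun h => hh (hiff.1 h))]
      · intro j hj hne
        exact if_neg fun h => huniq j hj hne h.1
      · intro hj
        exact absurd hj0 hj
    rw [e1, e2]
  · have hno : ∀ j ∈ J, ¬ s ≡ ρ p j [MOD p] := fun j hj h' => h ⟨j, hj, h'⟩
    have hiff : Hit (insert p R) J ρ s ↔ Hit R J ρ s := by
      unfold Hit
      constructor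
      · intro h j hj
        obtain ⟨q, hq, hqs⟩ := h j hj
        rcases Finset.mem_insert.1 hq with hqp | hq
        · rw [hqp] at hqs
          exact absurd hqs (hno j hj)
        · exact ⟨q, hq, hqs⟩
      · intro h j hj
        obtain ⟨q, hq, hqs⟩ := h j hj
        exact ⟨q, Finset.mem_insert_of_mem hq, hqs⟩
    have e1 : ∑ j ∈ J, (if s ≡ ρ p j [MOD p] ∧ Hit R J ρ s then 1 else 0) = 0 :=
      Finset.sum_eq_zero fun j hj => if_neg fun h => hno j hj h.1
    have e2 : ∑ j ∈ J, (if s ≡ ρ p j [MOD p] ∧ Hit R (J.erase j) ρ s then 1 else 0) = 0 :=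
      Finset.sum_eq_zero fun j hj => if_neg fun h => hno j hj h.1
    rw [e1, e2, add_zero, zero_add]
    by_cases hh : Hit R J ρ s
    · rw [if_pos hh, if_pos (hiff.2 hh)]
    · rw [if_neg hh, if_neg (fun h => hh (hiff.1 h))]

private theorem step_eq (R J : Finset ℕ) (ρ : ℕ → ℕ → ℕ) (p N : ℕ)
    (hinj : ∀ i ∈ J, ∀ j ∈ J, ρ p i ≡ ρ p j [MOD p] → i = j)
    (hc : ∀ (a : ℕ) (K : Finset ℕ), p * ((range N).filter (fun s => s ≡ a [MOD p] ∧ Hit R K ρ s)).card =
      ((range N).filter (fun s => Hit R K ρ s)).card) :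
    p * ((range N).filter (fun s => Hit (insert p R) J ρ s)).card +
      J.card * ((range N).filter (fun s => Hit R J ρ s)).card =
    ∑ j ∈ J, ((range N).filter (fun s => Hit R (J.erase j) ρ s)).card +
      p * ((range N).filter (fun s => Hit R J ρ s)).card := by
  have h1 : ((range N).filter (fun s => Hit (insert p R) J ρ s)).card +
      ∑ j ∈ J, ((range N).filter (fun s => s ≡ ρ p j [MOD p] ∧ Hit R J ρ s)).card =
    ∑ j ∈ J, ((range N).filter (fun s => s ≡ ρ p j [MOD p] ∧ Hit R (J.erase j) ρ s)).card +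
      ((range N).filter (fun s => Hit R J ρ s)).card := by
    simp only [Finset.card_filter]
    rw [Finset.sum_comm, ← Finset.sum_add_distrib, Finset.sum_comm (s := J), ← Finset.sum_add_distrib]
    exact Finset.sum_congr rfl fun s _ => point R J ρ p hinj s
  have h2 : p * ∑ j ∈ J, ((range N).filter (fun s => s ≡ ρ p j [MOD p] ∧ Hit R J ρ s)).card =
      J.card * ((range N).filter (fun s => Hit R J ρ s)).card := by
    rw [Finset.mul_sum, Finset.sum_congr rfl (fun j _ => hc (ρ p j) J), Finset.sum_const, smul_eq_mul]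
  have h3 : p * ∑ j ∈ J, ((range N).filter (fun s => s ≡ ρ p j [MOD p] ∧ Hit R (J.erase j) ρ s)).card =
      ∑ j ∈ J, ((range N).filter (fun s => Hit R (J.erase j) ρ s)).card := by
    rw [Finset.mul_sum]
    exact Finset.sum_congr rfl fun j _ => hc (ρ p j) (J.erase j)
  rw [← h2, ← h3, ← mul_add, ← mul_add, h1]

private theorem bern {x d : ℝ} (hx : 0 ≤ x) (hd : 0 ≤ d) (k : ℕ) :
    x ^ (k + 1) + (k + 1) * x ^ k * d ≤ (x + d) ^ (k + 1) := by
  induction k with
  | zero => simp
  | succ k ih =>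
    have h1 : (x + d) * (x ^ (k + 1) + (k + 1) * x ^ k * d) ≤ (x + d) * (x + d) ^ (k + 1) :=
      mul_le_mul_of_nonneg_left ih (by positivity)
    have h2 : 0 ≤ ((k : ℝ) + 1) * x ^ k * d * d := by positivity
    have e1 : (x + d) * (x ^ (k + 1) + (k + 1) * x ^ k * d) =
        x ^ (k + 1 + 1) + ((k : ℝ) + 1 + 1) * x ^ (k + 1) * d + ((k : ℝ) + 1) * x ^ k * d * d := by ring
    have e2 : (x + d) * (x + d) ^ (k + 1) = (x + d) ^ (k + 1 + 1) := by ring
    push_cast
    rw [e1, e2] at h1
    linarith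

theorem per (R J : Finset ℕ) (ρ : ℕ → ℕ → ℕ) (hR : ∀ p ∈ R, p.Prime)
    (hρ : ∀ p ∈ R, ∀ i ∈ J, ∀ j ∈ J, ρ p i ≡ ρ p j [MOD p] → i = j) (n : ℕ) :
    (((range ((∏ p ∈ R, p) * n)).filter (fun s => Hit R J ρ s)).card : ℝ) ≤
      ((∏ p ∈ R, p) * n : ℕ) * (1 - ∏ p ∈ R, (1 - 1 / (p : ℝ))) ^ J.card := by
  induction R using Finset.induction_on generalizing J n with
  | empty =>
    rcases J.eq_empty_or_nonempty with hJ | hJ
    · rw [hJ, Finset.card_empty, pow_zero, mul_one]
      have h1 := Finset.card_filter_le (range ((∏ p ∈ (∅ : Finset ℕ), p) * n)) (fun s => Hit ∅ ∅ ρ s)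
      rw [Finset.card_range] at h1
      exact_mod_cast h1
    · obtain ⟨j, hj⟩ := hJ
      have h1 : (range ((∏ p ∈ (∅ : Finset ℕ), p) * n)).filter (fun s => Hit ∅ J ρ s) = ∅ := by
        rw [Finset.filter_eq_empty_iff]
        intro s _ h
        obtain ⟨q, hq, -⟩ := h j hj
        simp at hq
      rw [h1, Finset.card_empty, Finset.prod_empty, Nat.cast_zero]
      have h2 : (0 : ℝ) ≤ 1 - ∏ p ∈ (∅ : Finset ℕ), (1 - 1 / (p : ℝ)) := by simp
      positivity
  | insert p R hpR ih =>
    have hp : p.Prime := hR p (Finset.mem_insert_self _ _)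
    have hR' : ∀ q ∈ R, q.Prime := fun q hq => hR q (Finset.mem_insert_of_mem hq)
    have hρ' : ∀ K ⊆ J, ∀ q ∈ R, ∀ i ∈ K, ∀ j ∈ K, ρ q i ≡ ρ q j [MOD q] → i = j :=
      fun K hK q hq i hi j hj h => hρ q (Finset.mem_insert_of_mem hq) i (hK hi) j (hK hj) h
    have hinj := hρ p (Finset.mem_insert_self _ _)
    set Q := ∏ q ∈ R, q with hQdef
    have hQ1 : 1 ≤ Q := Finset.prod_pos fun q hq => (hR' q hq).pos
    have hco : Nat.Coprime Q p := by
      apply Nat.Coprime.prod_left
      intro q hq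
      refine (Nat.coprime_primes (hR' q hq) hp).2 ?_
      rintro rfl
      exact hpR hq
    have hN : (∏ q ∈ insert p R, q) * n = Q * p * n := by
      rw [Finset.prod_insert hpR, mul_comm p]
    have hN2 : Q * (p * n) = Q * p * n := by rw [mul_assoc]
    rw [hN]
    set N := Q * p * n with hNdef
    set x : ℝ := 1 - ∏ q ∈ R, (1 - 1 / (q : ℝ)) with hx
    have hfac : ∀ q ∈ R, (0 : ℝ) ≤ 1 - 1 / (q : ℝ) ∧ 1 - 1 / (q : ℝ) ≤ 1 := by
      intro q hq
      have h1 : (1 : ℝ) ≤ q := by exact_mod_cast (hR' q hq).one_le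
      have h2 : 1 / (q : ℝ) ≤ 1 := by
        rw [div_le_one (by linarith)]
        exact h1
      have h3 : 0 ≤ 1 / (q : ℝ) := by positivity
      exact ⟨by linarith, by linarith⟩
    have hx0 : 0 ≤ x := by
      have : ∏ q ∈ R, (1 - 1 / (q : ℝ)) ≤ 1 := Finset.prod_le_one (fun q hq => (hfac q hq).1) fun q hq => (hfac q hq).2
      rw [hx]
      linarith
    have hx1 : x ≤ 1 := by
      have : 0 ≤ ∏ q ∈ R, (1 - 1 / (q : ℝ)) := Finset.prod_nonneg fun q hq => (hfac q hq).1
      rw [hx]
      linarith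
    have hp0 : (0 : ℝ) < p := by exact_mod_cast hp.pos
    have hx' : 1 - ∏ q ∈ insert p R, (1 - 1 / (q : ℝ)) = x + (1 - x) / p := by
      rw [Finset.prod_insert hpR, hx]
      field_simp
      ring
    rw [hx']
    have hg : ∀ K ⊆ J, (((range N).filter (fun s => Hit R K ρ s)).card : ℝ) ≤ (N : ℝ) * x ^ K.card := by
      intro K hK
      have h1 := ih K hR' (hρ' K hK) (p * n)
      rw [hN2] at h1
      exact h1
    have hcls : ∀ (a : ℕ) (K : Finset ℕ), p * ((range N).filter (fun s => s ≡ a [MOD p] ∧ Hit R K ρ s)).card =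
        ((range N).filter (fun s => Hit R K ρ s)).card := fun a K =>
      cls Q p n a hQ1 hp.one_le hco (fun s => Hit R K ρ s) (fun s => hit_per R K ρ s)
    have hstep := step_eq R J ρ p N hinj hcls
    have hJp : J.card ≤ p := by
      have h1 : (J.image (fun j => ρ p j % p)).card = J.card :=
        Finset.card_image_of_injOn fun i hi j hj h => hinj i hi j hj h
      have h2 : J.image (fun j => ρ p j % p) ⊆ range p := by
        intro y hy
        obtain ⟨j, -, rfl⟩ := Finset.mem_image.1 hy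
        exact Finset.mem_range.2 (Nat.mod_lt _ hp.pos)
      have h3 := Finset.card_le_card h2
      rwa [h1, Finset.card_range] at h3
    rcases Nat.eq_zero_or_pos J.card with hJ0 | hJ0
    · rw [hJ0, pow_zero, mul_one]
      have h1 := Finset.card_filter_le (range N) (fun s => Hit (insert p R) J ρ s)
      rw [Finset.card_range] at h1
      exact_mod_cast h1
    · obtain ⟨k, hk⟩ : ∃ k, J.card = k + 1 := ⟨J.card - 1, by omega⟩
      have hstep' : (p : ℝ) * (((range N).filter (fun s => Hit (insert p R) J ρ s)).card : ℝ) +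
          (J.card : ℝ) * (((range N).filter (fun s => Hit R J ρ s)).card : ℝ) =
          ∑ j ∈ J, (((range N).filter (fun s => Hit R (J.erase j) ρ s)).card : ℝ) +
          (p : ℝ) * (((range N).filter (fun s => Hit R J ρ s)).card : ℝ) := by
        exact_mod_cast hstep
      have hs1 : ∑ j ∈ J, (((range N).filter (fun s => Hit R (J.erase j) ρ s)).card : ℝ) ≤
          ((k : ℝ) + 1) * ((N : ℝ) * x ^ k) := by
        have h1 : ∀ j ∈ J, (((range N).filter (fun s => Hit R (J.erase j) ρ s)).card : ℝ) ≤ (N : ℝ) * x ^ k := by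
          intro j hj
          have h2 := hg (J.erase j) (Finset.erase_subset _ _)
          rw [Finset.card_erase_of_mem hj, hk, Nat.add_sub_cancel] at h2
          exact h2
        have h3 := Finset.sum_le_card_nsmul _ _ _ h1
        rw [nsmul_eq_mul, hk] at h3
        push_cast at h3
        exact h3
      have hs2 : ((p : ℝ) - J.card) * (((range N).filter (fun s => Hit R J ρ s)).card : ℝ) ≤
          ((p : ℝ) - J.card) * ((N : ℝ) * x ^ (k + 1)) := by
        have h1 := hg J (Finset.Subset.refl _)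
        rw [hk] at h1
        have h2 : (J.card : ℝ) ≤ p := by exact_mod_cast hJp
        exact mul_le_mul_of_nonneg_left h1 (by linarith)
      have hb := bern hx0 (div_nonneg (sub_nonneg.2 hx1) hp0.le : 0 ≤ (1 - x) / p) k
      have hN0 : (0 : ℝ) ≤ N := Nat.cast_nonneg _
      have hkc : (J.card : ℝ) = (k : ℝ) + 1 := by rw [hk]; push_cast; ring
      rw [hkc] at hs2 hstep'
      have h4 : (p : ℝ) * (((range N).filter (fun s => Hit (insert p R) J ρ s)).card : ℝ) ≤
          (N : ℝ) * (((k : ℝ) + 1) * x ^ k + ((p : ℝ) - (k + 1)) * x ^ (k + 1)) := by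
        linarith
      have h5 : ((k : ℝ) + 1) * x ^ k + ((p : ℝ) - (k + 1)) * x ^ (k + 1) =
          p * (x ^ (k + 1) + (k + 1) * x ^ k * ((1 - x) / p)) := by
        field_simp
        ring
      rw [h5] at h4
      have h6 : (N : ℝ) * (p * (x ^ (k + 1) + (k + 1) * x ^ k * ((1 - x) / p))) ≤
          (N : ℝ) * (p * (x + (1 - x) / p) ^ (k + 1)) :=
        mul_le_mul_of_nonneg_left (mul_le_mul_of_nonneg_left hb hp0.le) hN0
      have h7 : (p : ℝ) * (((range N).filter (fun s => Hit (insert p R) J ρ s)).card : ℝ) ≤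
          p * ((N : ℝ) * (x + (1 - x) / p) ^ (k + 1)) := by
        linarith
      rw [hk]
      exact le_of_mul_le_mul_left h7 hp0

end Pool.Agent.H89.CY
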