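import Pool.Agent.H89.CY.Cmp
import Pool.Agent.H89.CY.Per
import Pool.Agent.H89.CY.Crt

/-!
[H89 CY COR] the core sieve: the number of s < S for which all j in J are hit by the primes of R.
Apply `cmp` with P = R ×ˢ J, A = range S, a = 1/S, B = range S' with S' = (prod over R of p) * S, b = 1/S',
H s = H' s = P.filter (s = ρ p j mod p), F U = 1 if for all j in J there is p in R with (p, j) in U, else 0.
Then sum over A = #{s < S : Hit}/S, sum over B = #{s < S' : Hit}/S' <= (1 - prod)^|J| by `per` (n = S).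
For T ⊆ P: up A a H T = #{s < S : s = ρ p j mod p for (p,j) in T}/S. By `crt` it is within 1/S of prod over T of 1/p if no two
pairs of T have the same p, and 0 otherwise (`crt0`); the same for S' >= S. So |up - up'| <= 2/S and up + up' <= 2 prod 1/p + 2/S.
Number of T with |T| <= r: `few`, (|R||J|+1)^r. `esum` with y = 9, x (p,j) = 1/p: sum over |T| = r of prod 1/p <= exp(9 |J| sum 1/p)/9^r.
Multiply by S: S (1-prod)^|J| + 2 * 2^r (|R||J|+1)^r + 2 * 3^r (|R||J|+1)^r + 2 S 3^r exp(..)/9^r.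
-/

namespace Pool.Agent.H89.CY

open Finset Classical

private theorem up_eq (R J : Finset ℕ) (ρ : ℕ → ℕ → ℕ) (N : ℕ) (T : Finset (ℕ × ℕ)) (hT : T ⊆ R ×ˢ J) :
    up (range N) (fun _ => 1 / (N : ℝ)) (fun s => (R ×ˢ J).filter (fun a => s ≡ ρ a.1 a.2 [MOD a.1])) T =
      (((range N).filter (fun s => ∀ a ∈ T, s ≡ ρ a.1 a.2 [MOD a.1])).card : ℝ) / N := by
  have key : ∀ inst : DecidablePred
      (fun s => T ⊆ (R ×ˢ J).filter (fun a => s ≡ ρ a.1 a.2 [MOD a.1])),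
      @Finset.filter ℕ (fun s => T ⊆ (R ×ˢ J).filter (fun a => s ≡ ρ a.1 a.2 [MOD a.1])) inst
        (range N) = (range N).filter (fun s => ∀ a ∈ T, s ≡ ρ a.1 a.2 [MOD a.1]) := by
    intro inst
    ext s
    rw [@mem_filter _ _ inst _ _, mem_filter]
    constructor
    · rintro ⟨h1, h2⟩
      exact ⟨h1, fun a ha => (mem_filter.1 (h2 ha)).2⟩
    · rintro ⟨h1, h2⟩
      exact ⟨h1, fun a ha => mem_filter.2 ⟨hT ha, h2 a ha⟩⟩
  unfold up
  rw [sum_const, nsmul_eq_mul]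
  refine Eq.trans (congrArg (fun W : Finset ℕ => (W.card : ℝ) * (1 / (N : ℝ))) (key _)) ?_
  beta_reduce
  ring

private theorem up_bd (R J : Finset ℕ) (ρ : ℕ → ℕ → ℕ) (hR : ∀ p ∈ R, p.Prime)
    (hρ : ∀ p ∈ R, ∀ i ∈ J, ∀ j ∈ J, ρ p i ≡ ρ p j [MOD p] → i = j) (S S' : ℕ) (hS : 1 ≤ S) (hSS : S ≤ S')
    (T : Finset (ℕ × ℕ)) (hT : T ⊆ R ×ˢ J) (u u' : ℝ)
    (hu : u = (((range S).filter (fun s => ∀ a ∈ T, s ≡ ρ a.1 a.2 [MOD a.1])).card : ℝ) / S)
    (hu' : u' = (((range S').filter (fun s => ∀ a ∈ T, s ≡ ρ a.1 a.2 [MOD a.1])).card : ℝ) / S') :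
    |u - u'| ≤ 2 / S ∧ u + u' ≤ 2 * ∏ a ∈ T, (1 / (a.1 : ℝ)) + 2 / S := by
  have hS0 : (0 : ℝ) < S := by exact_mod_cast hS
  have hS0' : (0 : ℝ) < S' := by exact_mod_cast (hS.trans hSS)
  have hpr : 0 ≤ ∏ a ∈ T, (1 / (a.1 : ℝ)) := prod_nonneg fun a _ => by positivity
  have hinv : 1 / (S' : ℝ) ≤ 1 / S := one_div_le_one_div_of_le hS0 (by exact_mod_cast hSS)
  by_cases h1 : ∀ a ∈ T, ∀ b ∈ T, a.1 = b.1 → a = b
  · have hTp : ∀ a ∈ T, a.1.Prime := fun a ha => hR a.1 (mem_product.1 (hT ha)).1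
    have key : ∀ N : ℕ, (0 : ℝ) < N → ∀ x : ℝ,
        x = (((range N).filter (fun s => ∀ a ∈ T, s ≡ ρ a.1 a.2 [MOD a.1])).card : ℝ) / N →
        |x - ∏ a ∈ T, (1 / (a.1 : ℝ))| ≤ 1 / N := by
      intro N hN x hx
      have h2 := crt N T ρ hTp h1
      have h3 : x - ∏ a ∈ T, (1 / (a.1 : ℝ)) =
          ((((range N).filter (fun s => ∀ a ∈ T, s ≡ ρ a.1 a.2 [MOD a.1])).card : ℝ) -
            N * ∏ a ∈ T, (1 / (a.1 : ℝ))) / N := by
        rw [hx]
        field_simp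
      rw [h3, abs_div, abs_of_pos hN]
      exact div_le_div_of_nonneg_right h2 hN.le
    have k1 := abs_le.1 (key S hS0 u hu)
    have k2 := abs_le.1 (key S' hS0' u' hu')
    have e : (2 : ℝ) / S = 1 / S + 1 / S := by ring
    rw [e]
    constructor
    · rw [abs_le]
      constructor <;> linarith [k1.1, k1.2, k2.1, k2.2]
    · linarith [k1.1, k1.2, k2.1, k2.2]
  · have hρ' : ∀ a ∈ T, ∀ b ∈ T, a.1 = b.1 → ρ a.1 a.2 ≡ ρ b.1 b.2 [MOD a.1] → a = b := by
      intro a ha b hb hab h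
      have ha' := mem_product.1 (hT ha)
      have hb' := mem_product.1 (hT hb)
      rw [← hab] at h
      exact Prod.ext hab (hρ a.1 ha'.1 a.2 ha'.2 b.2 hb'.2 h)
    have c1 := crt0 S T ρ hρ' h1
    have c2 := crt0 S' T ρ hρ' h1
    rw [c1, Nat.cast_zero, zero_div] at hu
    rw [c2, Nat.cast_zero, zero_div] at hu'
    have h2 : (0 : ℝ) ≤ 2 / S := by positivity
    rw [hu, hu']
    constructor
    · simpa using h2
    · linarith

theorem core (R J : Finset ℕ) (ρ : ℕ → ℕ → ℕ) (hR : ∀ p ∈ R, p.Prime)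
    (hρ : ∀ p ∈ R, ∀ i ∈ J, ∀ j ∈ J, ρ p i ≡ ρ p j [MOD p] → i = j) (S r : ℕ) (hS : 1 ≤ S) :
    (((range S).filter (fun s => Hit R J ρ s)).card : ℝ) ≤
      S * ((1 - ∏ p ∈ R, (1 - 1 / (p : ℝ))) ^ J.card +
        2 * Real.exp (9 * (J.card * ∑ p ∈ R, 1 / (p : ℝ))) / 3 ^ r)
      + 4 * (3 * ((R.card : ℝ) * J.card + 1)) ^ r := by
  have hQ : 1 ≤ ∏ p ∈ R, p := Finset.prod_pos fun q hq => (hR q hq).pos
  have hSS : S ≤ (∏ p ∈ R, p) * S := Nat.le_mul_of_pos_left S hQ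
  have hper := per R J ρ hR hρ S
  set S' := (∏ p ∈ R, p) * S with hS'
  have hS0 : (0 : ℝ) < S := by exact_mod_cast hS
  have hS0' : (0 : ℝ) < S' := by exact_mod_cast (hS.trans hSS)
  set P := R ×ˢ J with hP
  set H : ℕ → Finset (ℕ × ℕ) := fun s => P.filter (fun a => s ≡ ρ a.1 a.2 [MOD a.1]) with hH
  set F : Finset (ℕ × ℕ) → ℝ := fun U => if ∀ j ∈ J, ∃ p ∈ R, (p, j) ∈ U then 1 else 0 with hF
  have hF0 : ∀ U, 0 ≤ F U := fun U => by
    rw [hF]
    simp only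
    split_ifs <;> norm_num
  have hF1 : ∀ U, F U ≤ 1 := fun U => by
    rw [hF]
    simp only
    split_ifs <;> norm_num
  have hFH : ∀ s, F (H s) = if Hit R J ρ s then 1 else 0 := by
    intro s
    have : (∀ j ∈ J, ∃ p ∈ R, (p, j) ∈ H s) ↔ Hit R J ρ s := by
      unfold Hit
      constructor
      · intro h j hj
        obtain ⟨p, hp, h2⟩ := h j hj
        exact ⟨p, hp, (mem_filter.1 h2).2⟩
      · intro h j hj
        obtain ⟨p, hp, h2⟩ := h j hj
        exact ⟨p, hp, mem_filter.2 ⟨mem_product.2 ⟨hp, hj⟩, h2⟩⟩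
    rw [hF]
    simp only
    by_cases h : Hit R J ρ s
    · rw [if_pos h, if_pos (this.2 h)]
    · rw [if_neg h, if_neg (fun h' => h (this.1 h'))]
  have hsum : ∀ N : ℕ, ∑ s ∈ range N, 1 / (N : ℝ) * F (H s) =
      (((range N).filter (fun s => Hit R J ρ s)).card : ℝ) / N := by
    intro N
    rw [← mul_sum, sum_congr rfl (fun s _ => hFH s), sum_boole]
    ring
  have hc := cmp P (range S) (range S') (fun _ => 1 / (S : ℝ)) (fun _ => 1 / (S' : ℝ))
    (fun _ _ => by positivity) (fun _ _ => by positivity) H H (fun s _ => filter_subset _ _)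
    (fun s _ => filter_subset _ _) F hF0 hF1 r
  rw [hsum S, hsum S'] at hc
  have hbd : ∀ T ∈ P.powerset, |up (range S) (fun _ => 1 / (S : ℝ)) H T -
        up (range S') (fun _ => 1 / (S' : ℝ)) H T| ≤ 2 / S ∧
      up (range S) (fun _ => 1 / (S : ℝ)) H T + up (range S') (fun _ => 1 / (S' : ℝ)) H T ≤
        2 * ∏ a ∈ T, (1 / (a.1 : ℝ)) + 2 / S := by
    intro T hT
    have hT' := mem_powerset.1 hT
    exact up_bd R J ρ hR hρ S S' hS hSS T hT' _ _ (up_eq R J ρ S T hT') (up_eq R J ρ S' T hT')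
  have hcard : (P.card : ℝ) = R.card * J.card := by
    rw [hP, card_product]
    push_cast
    ring
  have hfew : ∀ (q : Finset (ℕ × ℕ) → Prop) [DecidablePred q], (∀ T, q T → T.card ≤ r) →
      ((P.powerset.filter q).card : ℝ) ≤ ((P.card : ℝ) + 1) ^ r := by
    intro q _ hq
    have h1 : (P.powerset.filter q).card ≤ (P.powerset.filter (fun T => T.card ≤ r)).card := by
      apply card_le_card
      intro T hT
      have := mem_filter.1 hT
      exact mem_filter.2 ⟨this.1, hq T this.2⟩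
    have h2 := h1.trans (few P r)
    exact_mod_cast h2
  have h2S : (0 : ℝ) ≤ 2 / S := by positivity
  have t1 : ∑ T ∈ P.powerset.filter (fun T => T.card < r), 2 ^ T.card *
      |up (range S) (fun _ => 1 / (S : ℝ)) H T - up (range S') (fun _ => 1 / (S' : ℝ)) H T| ≤
      ((P.card : ℝ) + 1) ^ r * (2 ^ r * (2 / S)) := by
    have h1 : ∀ T ∈ P.powerset.filter (fun T => T.card < r), (2 : ℝ) ^ T.card *
        |up (range S) (fun _ => 1 / (S : ℝ)) H T - up (range S') (fun _ => 1 / (S' : ℝ)) H T| ≤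
        2 ^ r * (2 / S) := by
      intro T hT
      have hT' := mem_filter.1 hT
      exact mul_le_mul (pow_le_pow_right₀ (by norm_num) hT'.2.le) (hbd T hT'.1).1 (abs_nonneg _)
        (by positivity)
    have h2 := sum_le_card_nsmul _ _ _ h1
    rw [nsmul_eq_mul] at h2
    have h3 := hfew (fun T => T.card < r) (fun T hT => hT.le)
    exact h2.trans (mul_le_mul_of_nonneg_right h3 (by positivity))
  have t2 : ∑ T ∈ P.powerset.filter (fun T => T.card = r),
      (up (range S) (fun _ => 1 / (S : ℝ)) H T + up (range S') (fun _ => 1 / (S' : ℝ)) H T) ≤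
      2 * (Real.exp (9 * (J.card * ∑ p ∈ R, 1 / (p : ℝ))) / 9 ^ r) +
        ((P.card : ℝ) + 1) ^ r * (2 / S) := by
    have h1 : ∑ T ∈ P.powerset.filter (fun T => T.card = r),
        (up (range S) (fun _ => 1 / (S : ℝ)) H T + up (range S') (fun _ => 1 / (S' : ℝ)) H T) ≤
        ∑ T ∈ P.powerset.filter (fun T => T.card = r),
          (2 * ∏ a ∈ T, (1 / (a.1 : ℝ)) + 2 / S) :=
      sum_le_sum fun T hT => (hbd T (mem_filter.1 hT).1).2
    refine h1.trans ?_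
    rw [sum_add_distrib, ← mul_sum, sum_const, nsmul_eq_mul]
    have h2 := esum P (fun a : ℕ × ℕ => 1 / (a.1 : ℝ)) (fun a _ => by positivity) 9 (by norm_num) r
    have h3 : ∑ a ∈ P, 1 / ((a.1 : ℕ) : ℝ) = J.card * ∑ p ∈ R, 1 / (p : ℝ) := by
      rw [hP, sum_product, mul_sum]
      refine sum_congr rfl fun p _ => ?_
      simp only
      rw [sum_const, nsmul_eq_mul]
    rw [h3] at h2
    have h4 := hfew (fun T => T.card = r) (fun T hT => hT.le)
    exact add_le_add (mul_le_mul_of_nonneg_left h2 (by norm_num))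
      (mul_le_mul_of_nonneg_right h4 h2S)
  have t3 : (((range S').filter (fun s => Hit R J ρ s)).card : ℝ) / S' ≤
      (1 - ∏ p ∈ R, (1 - 1 / (p : ℝ))) ^ J.card := by
    rw [div_le_iff₀ hS0']
    linarith
  rw [hcard] at t1 t2
  set E := Real.exp (9 * (J.card * ∑ p ∈ R, 1 / (p : ℝ))) with hE
  set M := ((R.card : ℝ) * J.card + 1) with hM
  set Y := (1 - ∏ p ∈ R, (1 - 1 / (p : ℝ))) ^ J.card with hY
  have hM0 : 0 ≤ M ^ r := by positivity
  have t4 := mul_le_mul_of_nonneg_left t2 (show (0 : ℝ) ≤ 3 ^ r by positivity)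
  have t5 : (((range S).filter (fun s => Hit R J ρ s)).card : ℝ) / S ≤
      Y + M ^ r * (2 ^ r * (2 / S)) + 3 ^ r * (2 * (E / 9 ^ r) + M ^ r * (2 / S)) := by
    linarith
  rw [div_le_iff₀ hS0] at t5
  refine t5.trans ?_
  have e9 : (9 : ℝ) ^ r = 3 ^ r * 3 ^ r := by
    rw [← mul_pow]
    norm_num
  have e1 : (Y + M ^ r * (2 ^ r * (2 / S)) + 3 ^ r * (2 * (E / 9 ^ r) + M ^ r * (2 / S))) * S =
      S * (Y + 2 * E / 3 ^ r) + (2 * (2 ^ r * M ^ r) + 2 * (3 ^ r * M ^ r)) := by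
    rw [e9]
    field_simp
    ring
  rw [e1]
  have e2 : (2 : ℝ) ^ r * M ^ r ≤ 3 ^ r * M ^ r :=
    mul_le_mul_of_nonneg_right (pow_le_pow_left₀ (by norm_num) (by norm_num) r) hM0
  have e3 : 4 * (3 * M) ^ r = 2 * (3 ^ r * M ^ r) + 2 * (3 ^ r * M ^ r) := by
    rw [mul_pow]
    ring
  rw [e3]
  linarith

end Pool.Agent.H89.CY
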