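import Mathlib

/-!
[H89 CY] MP_a37e4a_nt: the inequality for cyclic numbers holds for almost all n. Definitions.
-/

namespace Pool.Agent.H89.CY

open Finset

/-- `m` is a cyclic number -/
def Cyc (m : ℕ) : Prop := Nat.gcd m (Nat.totient m) = 1

/-- the cyclic numbers in increasing order, `c 1 = 1`, `c 2 = 2`, `c 3 = 3`, `c 4 = 5` -/
noncomputable def c (n : ℕ) : ℕ := Nat.nth Cyc (n - 1)

/-- the inequality `c_n ^ (1/(n-1)) > c_(n+1) ^ (1/n)` fails -/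
def Fails (n : ℕ) : Prop :=
  ¬ ((c (n + 1) : ℝ) ^ (1 / (n : ℝ)) < (c n : ℝ) ^ (1 / ((n : ℝ) - 1)))

/-- numbers which have a bad divisor with a large prime -/
def Kill (z m : ℕ) : Prop :=
  ∃ p, z < p ∧ (p * p ∣ m ∨ ∃ e, 1 ≤ e ∧ p * (1 + e * p) ∣ m)

/-- the primes in `(a, b]` -/
def PR (a b : ℕ) : Finset ℕ := (Icc (a + 1) b).filter Nat.Prime

/-- the set of all `j` in `J` is hit: each `j` has a `p` in `R` with `s = ρ p j` modulo `p` -/
def Hit (R J : Finset ℕ) (ρ : ℕ → ℕ → ℕ) (s : ℕ) : Prop := ∀ j ∈ J, ∃ p ∈ R, s ≡ ρ p j [MOD p]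

end Pool.Agent.H89.CY
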