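import Pool.Agent.H89.CY.FinX
import Pool.Agent.H89.CY.Che

/-!
[H89 CY FIN] all but C N exp (- (log log N)^(11/10)) of the n <= N satisfy the inequality.
-/

namespace Pool.Agent.H89.CY

open Filter

theorem pick (x : ℝ) (hx : 0 ≤ x) :
    2 * ((⌊(x / 2) ^ (1 / 8 : ℝ)⌋₊ : ℕ) : ℝ) ^ 8 ≤ x ∧ x ≤ 2 * (((⌊(x / 2) ^ (1 / 8 : ℝ)⌋₊ : ℕ) : ℝ) + 1) ^ 8 := by
  have h0 : 0 ≤ (x / 2) ^ (1 / 8 : ℝ) := by positivity
  have h8 : ((x / 2) ^ (1 / 8 : ℝ)) ^ 8 = x / 2 := by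
    rw [← Real.rpow_natCast, ← Real.rpow_mul (by positivity)]
    norm_num
  constructor
  · have h1 := Nat.floor_le h0
    have h2 := pow_le_pow_left₀ (Nat.cast_nonneg _) h1 8
    rw [h8] at h2
    linarith
  · have h1 := (Nat.lt_floor_add_one ((x / 2) ^ (1 / 8 : ℝ))).le
    have h2 := pow_le_pow_left₀ h0 h1 8
    rw [h8] at h2
    linarith

theorem c_mono {n m : ℕ} (hn : 1 ≤ n) (h : n ≤ m) : c n ≤ c m := by
  rcases h.eq_or_lt with h | h
  · rw [h]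
  · exact (c_lt n m hn h).le

theorem sub_FX (N X : ℕ) (hX : c N ≤ X) : {n | 2 ≤ n ∧ n ≤ N ∧ Fails n}.ncard ≤ FX X := by
  unfold FX
  apply Set.ncard_le_ncard
  · rintro n ⟨h1, h2, h3⟩
    exact ⟨h1, h3, (c_mono (by omega) h2).trans hX⟩
  · exact fin_set X Fails

theorem fin_ev : ∃ C : ℝ, 0 < C ∧ ∀ᶠ N : ℕ in atTop, ({n | 2 ≤ n ∧ n ≤ N ∧ Fails n}.ncard : ℝ) ≤
    C * N * Real.exp (-(Real.log (Real.log N)) ^ (11 / 10 : ℝ)) := by
  obtain ⟨C1, hC1, hche⟩ := che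
  obtain ⟨c1, hc1, v0, hfx⟩ := finX
  refine ⟨C1, hC1, ?_⟩
  have tN : Tendsto (fun N : ℕ => Real.log (Real.log (N : ℝ))) atTop atTop :=
    Real.tendsto_log_atTop.comp (Real.tendsto_log_atTop.comp tendsto_natCast_atTop_atTop)
  -- conditions on y = log log N
  have t1 : Tendsto (fun y : ℝ => (y / 2) ^ (1 / 8 : ℝ)) atTop atTop :=
    (tendsto_rpow_atTop (by norm_num)).comp (tendsto_id.atTop_div_const (by norm_num))
  have t2 : Tendsto (fun y : ℝ => y ^ (1 / 40 : ℝ)) atTop atTop := tendsto_rpow_atTop (by norm_num)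
  set c3 : ℝ := c1 * (1 / 2) ^ 9 * (1 / 2) ^ (9 / 8 : ℝ) with hc3
  have hc3p : 0 < c3 := by rw [hc3]; positivity
  have e1 : ∀ᶠ y : ℝ in atTop, 2 * ((v0 : ℝ) + 1) ≤ (y / 2) ^ (1 / 8 : ℝ) := t1.eventually_ge_atTop _
  have e2 : ∀ᶠ y : ℝ in atTop, 2 / c3 ≤ y ^ (1 / 40 : ℝ) := t2.eventually_ge_atTop _
  have e3 : ∀ᶠ y : ℝ in atTop, (1 : ℝ) ≤ y := eventually_ge_atTop 1
  filter_upwards [tN.eventually (e1.and (e2.and e3)), eventually_ge_atTop 3] with N hN hN3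
  obtain ⟨g1, g2, g3⟩ := hN
  set y := Real.log (Real.log (N : ℝ)) with hy
  have hN0 : (3 : ℝ) ≤ N := by exact_mod_cast hN3
  have hlogN : 0 < Real.log N := Real.log_pos (by linarith)
  have hlogN' : Real.log N = Real.exp y := (Real.exp_log hlogN).symm
  set X := ⌊C1 * N * Real.log N⌋₊ with hX
  have hXpos : 0 ≤ C1 * N * Real.log N := by positivity
  have hcX : c N ≤ X := Nat.le_floor (hche N (by omega))
  have hNX : N ≤ X := (c_ge N (by omega)).trans hcX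
  have hXN : (N : ℝ) ≤ X := by exact_mod_cast hNX
  have hX0 : (0 : ℝ) < X := by linarith
  have hXle : (X : ℝ) ≤ C1 * N * Real.log N := Nat.floor_le hXpos
  have hlogX : Real.log N ≤ Real.log X := Real.log_le_log (by linarith) hXN
  have hlogX0 : 0 < Real.log X := lt_of_lt_of_le hlogN hlogX
  set x := Real.log (Real.log (X : ℝ)) with hx
  have hyx : y ≤ x := Real.log_le_log hlogN hlogX
  have hx0 : 0 ≤ x := by linarith
  have hXx : (X : ℝ) = Real.exp (Real.exp x) := by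
    rw [hx, Real.exp_log hlogX0, Real.exp_log hX0]
  obtain ⟨p1, p2⟩ := pick x hx0
  set v := ⌊(x / 2) ^ (1 / 8 : ℝ)⌋₊ with hv
  have hmono : (y / 2) ^ (1 / 8 : ℝ) ≤ (x / 2) ^ (1 / 8 : ℝ) := by
    apply Real.rpow_le_rpow (by positivity) (by linarith) (by norm_num)
  have hvlow : (y / 2) ^ (1 / 8 : ℝ) / 2 ≤ v := by
    have h1 := (Nat.lt_floor_add_one ((x / 2) ^ (1 / 8 : ℝ))).le
    rw [← hv] at h1
    have h2 : (0 : ℝ) ≤ v0 := Nat.cast_nonneg _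
    linarith
  have hvv0 : v0 ≤ v := by
    have : (v0 : ℝ) ≤ v := by linarith
    exact_mod_cast this
  have key := hfx v hvv0 X (by rw [hXx]; gcongr) (by rw [hXx]; gcongr)
  have hv9 : c3 * y ^ (9 / 8 : ℝ) ≤ c1 * (v : ℝ) ^ 9 := by
    have h1 : ((y / 2) ^ (1 / 8 : ℝ) / 2) ^ 9 ≤ (v : ℝ) ^ 9 := pow_le_pow_left₀ (by positivity) hvlow 9
    have h2 : ((y / 2) ^ (1 / 8 : ℝ) / 2) ^ 9 = (1 / 2) ^ 9 * ((1 / 2) ^ (9 / 8 : ℝ) * y ^ (9 / 8 : ℝ)) := by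
      rw [div_pow, ← Real.rpow_natCast ((y / 2) ^ (1 / 8 : ℝ)), ← Real.rpow_mul (by positivity),
        show y / 2 = (1 / 2) * y by ring, Real.mul_rpow (by norm_num) (by linarith)]
      norm_num
      ring
    rw [h2] at h1
    calc c3 * y ^ (9 / 8 : ℝ) = c1 * ((1 / 2) ^ 9 * ((1 / 2) ^ (9 / 8 : ℝ) * y ^ (9 / 8 : ℝ))) := by rw [hc3]; ring
      _ ≤ c1 * (v : ℝ) ^ 9 := by gcongr
  have hexp : y + y ^ (11 / 10 : ℝ) ≤ c1 * (v : ℝ) ^ 9 := by
    refine le_trans ?_ hv9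
    have h1 : y ^ (9 / 8 : ℝ) = y ^ (1 / 40 : ℝ) * y ^ (11 / 10 : ℝ) := by
      rw [← Real.rpow_add (by linarith)]
      norm_num
    have h2 : y ≤ y ^ (11 / 10 : ℝ) := by
      conv_lhs => rw [← Real.rpow_one y]
      exact Real.rpow_le_rpow_of_exponent_le g3 (by norm_num)
    have h3 : 2 ≤ c3 * y ^ (1 / 40 : ℝ) := by
      rw [div_le_iff₀ hc3p] at g2
      linarith
    have h4 : 0 ≤ y ^ (11 / 10 : ℝ) := by positivity
    rw [h1, ← mul_assoc]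
    nlinarith
  calc ({n | 2 ≤ n ∧ n ≤ N ∧ Fails n}.ncard : ℝ) ≤ FX X := by exact_mod_cast sub_FX N X hcX
    _ ≤ X * Real.exp (-(c1 * (v : ℝ) ^ 9)) := key
    _ ≤ (C1 * N * Real.log N) * Real.exp (-(y + y ^ (11 / 10 : ℝ))) := by
        gcongr
    _ = C1 * N * Real.exp (-y ^ (11 / 10 : ℝ)) := by
        rw [hlogN', neg_add, Real.exp_add]
        have : Real.exp y * Real.exp (-y) = 1 := by rw [← Real.exp_add]; simp
        linear_combination (C1 * N * Real.exp (-y ^ (11 / 10 : ℝ))) * this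

theorem fin : ∃ C : ℝ, ∀ N : ℕ, 3 ≤ N → ({n | 2 ≤ n ∧ n ≤ N ∧ Fails n}.ncard : ℝ) ≤
    C * N * Real.exp (-(Real.log (Real.log N)) ^ (11 / 10 : ℝ)) := by
  obtain ⟨C1, hC1, h⟩ := fin_ev
  obtain ⟨N0, hN0⟩ := eventually_atTop.1 h
  set C2 : ℝ := Real.exp ((Real.log (Real.log (max N0 3 : ℕ))) ^ (11 / 10 : ℝ)) with hC2
  refine ⟨C1 + C2, ?_⟩
  intro N hN
  have hC2p : 0 < C2 := Real.exp_pos _
  rcases le_or_gt N0 N with h1 | h1
  · refine (hN0 N h1).trans ?_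
    gcongr
    linarith
  · have h2 : {n | 2 ≤ n ∧ n ≤ N ∧ Fails n}.ncard ≤ N := by
      have h3 : {n | 2 ≤ n ∧ n ≤ N ∧ Fails n} ⊆ (Finset.Icc 1 N : Set ℕ) := by
        rintro n ⟨h4, h5, _⟩
        simp only [Finset.coe_Icc, Set.mem_Icc]
        omega
      refine (Set.ncard_le_ncard h3 (Finset.finite_toSet _)).trans ?_
      rw [Set.ncard_coe_finset, Nat.card_Icc]
      omega
    have h3 : (3 : ℝ) ≤ N := by exact_mod_cast hN
    have hlN : 1 ≤ Real.log N := by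
      rw [Real.le_log_iff_exp_le (by linarith)]
      linarith [Real.exp_one_lt_d9]
    have h4 : Real.log (Real.log N) ≤ Real.log (Real.log (max N0 3 : ℕ)) := by
      apply Real.log_le_log (by linarith)
      apply Real.log_le_log (by linarith)
      exact_mod_cast (by omega : N ≤ max N0 3)
    have h5 : 1 ≤ C2 * Real.exp (-(Real.log (Real.log N)) ^ (11 / 10 : ℝ)) := by
      rw [hC2, ← Real.exp_add]
      apply Real.one_le_exp
      have := Real.rpow_le_rpow (Real.log_nonneg hlN) h4 (show (0 : ℝ) ≤ 11 / 10 by norm_num)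
      linarith
    calc ({n | 2 ≤ n ∧ n ≤ N ∧ Fails n}.ncard : ℝ) ≤ N := by exact_mod_cast h2
      _ = N * 1 := (mul_one _).symm
      _ ≤ N * (C2 * Real.exp (-(Real.log (Real.log N)) ^ (11 / 10 : ℝ))) := by gcongr
      _ = C2 * N * Real.exp (-(Real.log (Real.log N)) ^ (11 / 10 : ℝ)) := by ring
      _ ≤ (C1 + C2) * N * Real.exp (-(Real.log (Real.log N)) ^ (11 / 10 : ℝ)) := by
          gcongr
          linarith

end Pool.Agent.H89.CY
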