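import Pool.Agent.H89.CY.Par

/-!
[H89 CY FINX] the number of failures with c n <= X is at most X exp (- c1 v^9).
-/

namespace Pool.Agent.H89.CY

open Finset Classical Filter

theorem finX : ∃ c1 : ℝ, 0 < c1 ∧ ∃ v0 : ℕ, ∀ v : ℕ, v0 ≤ v → ∀ X : ℕ,
    Real.exp (Real.exp (2 * (v : ℝ) ^ 8)) ≤ X → (X : ℝ) ≤ Real.exp (Real.exp (2 * ((v : ℝ) + 1) ^ 8)) →
    (FX X : ℝ) ≤ X * Real.exp (-(c1 * (v : ℝ) ^ 9)) := by
  obtain ⟨c0, hc0, hdlt⟩ := dlt
  obtain ⟨v1, hv1⟩ := mer
  obtain ⟨v2, hv2⟩ := pic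
  obtain ⟨v3, hv3⟩ := eventually_atTop.1 (ev_pow 50)
  set c := min (c0 / 20) (1 / 2) with hc
  have hcpos : 0 < c := by rw [hc]; positivity
  have hcl : c ≤ c0 / 20 := min_le_left _ _
  have hcr : c ≤ 1 / 2 := min_le_right _ _
  obtain ⟨v4, hv4⟩ := exists_nat_ge (4 / c)
  refine ⟨c / 2, by positivity, max (max v1 v2) (max (max v3 v4) 3000), ?_⟩
  intro v hv X hX1 hX2
  have a1 : v1 ≤ v := le_trans (le_trans (le_max_left _ _) (le_max_left _ _)) hv
  have a2 : v2 ≤ v := le_trans (le_trans (le_max_right _ _) (le_max_left _ _)) hv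
  have a3 : v3 ≤ v := le_trans (le_trans (le_trans (le_max_left _ _) (le_max_left _ _)) (le_max_right _ _)) hv
  have a4 : v4 ≤ v := le_trans (le_trans (le_trans (le_max_right _ _) (le_max_left _ _)) (le_max_right _ _)) hv
  have a5 : 3000 ≤ v := le_trans (le_trans (le_max_right _ _) (le_max_right _ _)) hv
  have b5 : (3000 : ℝ) ≤ v := by exact_mod_cast a5
  have b0 : (0 : ℝ) < v := by linarith
  have b1 : (1 : ℝ) ≤ v := by linarith
  have hp50 : (v : ℝ) ^ 50 ≤ Real.exp v := hv3 v a3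
  set V : ℝ := (v : ℝ) with hV
  have hpow : ∀ m n : ℕ, m ≤ n → V ^ m ≤ V ^ n := fun m n h => pow_le_pow_right₀ b1 h
  have hone : ∀ m : ℕ, 1 ≤ V ^ m := fun m => one_le_pow₀ b1
  -- X and its logarithm
  have hX0 : (0 : ℝ) < X := lt_of_lt_of_le (Real.exp_pos _) hX1
  have hXn : 0 < X := by exact_mod_cast hX0
  set L := Real.log X with hL
  have hL1 : Real.exp (2 * V ^ 8) ≤ L := by rw [hL, Real.le_log_iff_exp_le hX0]; exact hX1
  have hL2 : L ≤ Real.exp (2 * (V + 1) ^ 8) := by rw [hL, Real.log_le_iff_le_exp hX0]; exact hX2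
  have hXL : (X : ℝ) = Real.exp L := (Real.exp_log hX0).symm
  have hVL : V ^ 50 ≤ L := by
    refine hp50.trans (le_trans (Real.exp_le_exp.2 ?_) hL1)
    have := hpow 1 8 (by norm_num)
    rw [pow_one] at this
    linarith
  have h4950 : V ^ 49 * 3000 ≤ V ^ 50 := by
    rw [show V ^ 50 = V ^ 49 * V by ring]; gcongr
  have hVL49 : V ^ 49 * 3000 ≤ L := h4950.trans hVL
  have hLbig : (3000 : ℝ) ≤ L := by
    have := hone 49
    nlinarith
  -- parameters
  set w := v ^ 8 with hw
  set k := v ^ 18 with hk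
  set z := ⌊Real.exp (V ^ 9)⌋₊ with hz
  set r := v ^ 28 with hr
  set D := primorial w with hD
  set A := ⌈Real.exp (L / 2)⌉₊ with hA
  set Y := 1 + D * (X / D + 1 + k) with hY
  have hv9 : (2 : ℝ) ≤ V ^ 9 := by have := hpow 1 9 (by norm_num); rw [pow_one] at this; linarith
  have hzle : (z : ℝ) ≤ Real.exp (V ^ 9) := Nat.floor_le (Real.exp_pos _).le
  have hzge : Real.exp (V ^ 9) / 2 ≤ z := by
    have h1 := Nat.lt_floor_add_one (Real.exp (V ^ 9))
    have h2 : 2 ≤ Real.exp (V ^ 9) := by have := Real.add_one_le_exp (V ^ 9); linarith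
    rw [← hz] at h1
    linarith
  have hz3 : 3 ≤ z := by
    have h2 : 6 ≤ Real.exp (V ^ 9) := by
      have := Real.add_one_le_exp (V ^ 9)
      have := hpow 1 9 (by norm_num); rw [pow_one] at this; linarith
    have : (3 : ℝ) ≤ z := by linarith
    exact_mod_cast this
  have hw2 : 2 ≤ w := by
    rw [hw]
    calc 2 ≤ v := by omega
      _ = v ^ 1 := (pow_one v).symm
      _ ≤ v ^ 8 := Nat.pow_le_pow_right (by omega) (by norm_num)
  have hwk : w < k := Nat.pow_lt_pow_right (by omega) (by norm_num)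
  have hD2 : 2 ≤ D := two_le_prim w hw2
  have hDle : (D : ℝ) ≤ Real.exp (1.4 * V ^ 8) := by
    have h1 : (D : ℝ) ≤ ((4 ^ w : ℕ) : ℝ) := by exact_mod_cast primorial_le_four_pow w
    refine h1.trans ((four_pow w).trans ?_)
    rw [hw]
    push_cast
    exact le_refl _
  have hkD : (((k + 1) * D : ℕ) : ℝ) ≤ L / 2 := by
    push_cast
    rw [hk]
    push_cast
    have h1 : V ^ 18 + 1 ≤ Real.exp V / 2 := by
      have h2 : V ^ 50 = V ^ 49 * V := by ring
      have h3 := hpow 18 49 (by norm_num)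
      have h4 := hone 49
      nlinarith
    have h5 : V ≤ 0.6 * V ^ 8 := by
      have h6 : V ^ 8 = V * V ^ 7 := by ring
      have h7 : (2 : ℝ) ≤ V ^ 7 := by have := hpow 1 7 (by norm_num); rw [pow_one] at this; linarith
      nlinarith
    calc (V ^ 18 + 1) * (D : ℝ) ≤ (Real.exp V / 2) * Real.exp (1.4 * V ^ 8) := by gcongr
      _ = Real.exp (V + 1.4 * V ^ 8) / 2 := by rw [Real.exp_add]; ring
      _ ≤ Real.exp (2 * V ^ 8) / 2 := by
          have : V + 1.4 * V ^ 8 ≤ 2 * V ^ 8 := by linarith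
          have := Real.exp_le_exp.2 this
          linarith
      _ ≤ L / 2 := by linarith
  have hAlog : (((k + 1) * D : ℕ) : ℝ) ≤ Real.log A := by
    refine hkD.trans ?_
    rw [Real.le_log_iff_exp_le]
    · exact Nat.le_ceil _
    · exact_mod_cast Nat.ceil_pos.2 (Real.exp_pos _)
  have hmain := gen w k z D r (k / 10) A X Y hwk rfl hD2 (by omega) hAlog (hv1 v a1) (hv2 v a2) le_rfl rfl
  -- the terms
  have hAle : (A : ℝ) ≤ 2 * Real.exp (L / 2) := by
    have h1 : (A : ℝ) < Real.exp (L / 2) + 1 := Nat.ceil_lt_add_one (Real.exp_pos _).le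
    have h2 : 1 ≤ Real.exp (L / 2) := Real.one_le_exp (by linarith)
    linarith
  have hLhalf : 3 * Real.exp (L / 2) ≤ X * Real.exp (-(V ^ 9)) := by
    rw [hXL, ← Real.exp_add]
    have h1 : (3 : ℝ) ≤ Real.exp 2 := by have := Real.add_one_le_exp (2 : ℝ); linarith
    calc 3 * Real.exp (L / 2) ≤ Real.exp 2 * Real.exp (L / 2) := by gcongr
      _ = Real.exp (2 + L / 2) := by rw [Real.exp_add]
      _ ≤ Real.exp (L + -(V ^ 9)) := by
          apply Real.exp_le_exp.2
          have := hpow 9 49 (by norm_num)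
          have := hone 49
          linarith
  have hM : (v : ℝ) ^ 18 / 20 ≤ ((k / 10 : ℕ) : ℝ) := by
    have h1 : (k : ℝ) / 10 < ((k / 10 : ℕ) : ℝ) + 1 := by
      have := Nat.lt_div_mul_add (a := k) (b := 10) (by norm_num)
      have h2 : (k : ℝ) < ((k / 10 : ℕ) : ℝ) * 10 + 10 := by exact_mod_cast this
      linarith
    have h3 : (k : ℝ) = V ^ 18 := by rw [hk]; push_cast; rfl
    have h4 : (20 : ℝ) ≤ V ^ 18 := by have := hpow 1 18 (by norm_num); rw [pow_one] at this; linarith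
    rw [h3] at h1
    change V ^ 18 / 20 ≤ _
    linarith
  have e1 := E1_le c0 hc0 hdlt v k z (k / 10) (by omega) hz3 hzle hM
  have e2 := E2_le v k z r (by omega) hk hr (by omega) hzle
  have e3 := E3_le v w k z r (by omega) hk hr hzle ((hpow 18 50 (by norm_num)).trans hp50)
  have e3' : Real.exp (V ^ 38) ≤ Real.exp (L / 2) := by
    apply Real.exp_le_exp.2
    have := hpow 38 49 (by norm_num)
    have := hone 49
    linarith
  have e1' : Real.exp (-(c0 / 20 * V ^ 9)) ≤ Real.exp (-(c * V ^ 9)) := by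
    apply Real.exp_le_exp.2
    have : c * V ^ 9 ≤ c0 / 20 * V ^ 9 := by gcongr
    linarith
  have e9 : Real.exp (-(V ^ 9)) ≤ Real.exp (-(c * V ^ 9)) := by
    apply Real.exp_le_exp.2
    have : c * V ^ 9 ≤ 1 * V ^ 9 := by gcongr; linarith
    linarith
  have hTQ : (((X / D + 2 : ℕ) : ℝ) + (∏ p ∈ PR w k, p : ℕ)) ≤ 2 * X := by
    have h1 : ((X / D + 2 : ℕ) : ℝ) ≤ X := by
      have h2 : X / D ≤ X / 2 := Nat.div_le_div_left hD2 (by norm_num)
      have h3 : 4 ≤ X := by
        have : (4 : ℝ) ≤ X := by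
          rw [hXL]
          have := Real.add_one_le_exp L
          linarith
        exact_mod_cast this
      exact_mod_cast (by omega : X / D + 2 ≤ X)
    have h4 : ((∏ p ∈ PR w k, p : ℕ) : ℝ) ≤ X := by
      refine (Q_le w k).trans ?_
      rw [hXL]
      apply Real.exp_le_exp.2
      have h3 : (k : ℝ) = V ^ 18 := by rw [hk]; push_cast; rfl
      rw [h3]
      have := hpow 18 49 (by norm_num)
      have := hone 49
      linarith
    linarith
  have hYle : (Y : ℝ) ≤ 2 * X := by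
    have h1 : Y ≤ 1 + X + (k + 1) * D := by
      rw [hY]
      have h2 : D * (X / D + 1 + k) = D * (X / D) + (k + 1) * D := by ring
      have h3 := Nat.mul_div_le X D
      omega
    have h2 : (Y : ℝ) ≤ 1 + X + (((k + 1) * D : ℕ) : ℝ) := by exact_mod_cast h1
    have h3 : 1 + L ≤ (X : ℝ) := by
      rw [hXL]
      have := Real.add_one_le_exp L
      linarith
    linarith
  have hYpos : (1 : ℝ) ≤ Y := by
    have : 1 ≤ Y := by rw [hY]; omega
    exact_mod_cast this
  have hlogY : Real.log Y ≤ L + 1 := by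
    have h1 : Real.log Y ≤ Real.log (2 * X) := Real.log_le_log (by linarith) hYle
    rw [Real.log_mul (by norm_num) hX0.ne'] at h1
    linarith [Real.log_two_lt_d9]
  have e4 : (k : ℝ) * (Y * (2 + Real.log Y) / z) ≤ X * Real.exp (-(c * V ^ 9)) := by
    have h3 : (k : ℝ) = V ^ 18 := by rw [hk]; push_cast; rfl
    have h1 : (Y : ℝ) * (2 + Real.log Y) / z ≤ 2 * X * (2 * L) / (Real.exp (V ^ 9) / 2) := by
      have h5 : 0 ≤ Real.log Y := Real.log_nonneg hYpos
      have h6 : 2 + Real.log Y ≤ 2 * L := by linarith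
      gcongr
    have h2 : 2 * X * (2 * L) / (Real.exp (V ^ 9) / 2) = 8 * X * L * Real.exp (-(V ^ 9)) := by
      rw [Real.exp_neg]
      field_simp
      ring
    rw [h2] at h1
    have h7 : (8 : ℝ) * V ^ 18 ≤ Real.exp V := by
      have h8 : V ^ 50 = V ^ 49 * V := by ring
      have h9 := hpow 18 49 (by norm_num)
      have h10 := hone 49
      nlinarith
    have h11 : V + 2 * (V + 1) ^ 8 - V ^ 9 ≤ -(c * V ^ 9) := by
      have h12 : (V + 1) ^ 8 ≤ (2 * V) ^ 8 := by
        apply pow_le_pow_left₀ (by linarith)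
        linarith
      have h13 : (2 * V) ^ 8 = 256 * V ^ 8 := by ring
      have h14 : V ^ 9 = V ^ 8 * V := by ring
      have h15 : V ^ 8 * 3000 ≤ V ^ 8 * V := by gcongr
      have h16 := hpow 1 8 (by norm_num)
      rw [pow_one] at h16
      have h17 : c * V ^ 9 ≤ 1 / 2 * V ^ 9 := by gcongr
      have h18 := hone 8
      linarith
    calc (k : ℝ) * (Y * (2 + Real.log Y) / z) ≤ V ^ 18 * (8 * X * L * Real.exp (-(V ^ 9))) := by
          rw [h3]; gcongr
      _ = (8 * V ^ 18) * L * X * Real.exp (-(V ^ 9)) := by ring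
      _ ≤ Real.exp V * Real.exp (2 * (V + 1) ^ 8) * X * Real.exp (-(V ^ 9)) := by
          have : 0 ≤ L := by linarith
          gcongr
      _ = X * Real.exp (V + 2 * (V + 1) ^ 8 - V ^ 9) := by
          rw [sub_eq_add_neg, Real.exp_add, Real.exp_add]; ring
      _ ≤ X * Real.exp (-(c * V ^ 9)) := by
          gcongr
  have e5 : ((((X / D + 2 : ℕ) : ℝ) + (∏ p ∈ PR w k, p : ℕ)) *
        ((1 - ∏ p ∈ PR k z, (1 - 1 / (p : ℝ))) ^ (k / 10) +
        2 * Real.exp (9 * (k * ∑ p ∈ PR k z, 1 / (p : ℝ))) / 3 ^ r)) ≤ 4 * (X * Real.exp (-(c * V ^ 9))) := by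
    have h1 : (1 - ∏ p ∈ PR k z, (1 - 1 / (p : ℝ))) ^ (k / 10) +
        2 * Real.exp (9 * (k * ∑ p ∈ PR k z, 1 / (p : ℝ))) / 3 ^ r ≤ 2 * Real.exp (-(c * V ^ 9)) := by
      have := e1.trans e1'
      have := e2.trans e9
      linarith
    calc _ ≤ 2 * (X : ℝ) * (2 * Real.exp (-(c * V ^ 9))) := by
          apply mul_le_mul hTQ h1 _ (by positivity)
          have h3 : 0 ≤ (1 - ∏ p ∈ PR k z, (1 - 1 / (p : ℝ))) := by
            have : ∏ p ∈ PR k z, (1 - 1 / (p : ℝ)) ≤ 1 := by
              apply prod_le_one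
              · intro p hp
                unfold PR at hp
                rw [mem_filter] at hp
                have : (1 : ℝ) / p ≤ 1 := by
                  rw [div_le_one (by exact_mod_cast hp.2.pos)]
                  exact_mod_cast hp.2.one_lt.le
                linarith
              · intro p hp
                have : (0 : ℝ) ≤ 1 / p := by positivity
                linarith
            linarith
          positivity
      _ = 4 * (X * Real.exp (-(c * V ^ 9))) := by ring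
  have hfin : (FX X : ℝ) ≤ 6 * (X * Real.exp (-(c * V ^ 9))) := by
    have h1 : X * Real.exp (-(V ^ 9)) ≤ X * Real.exp (-(c * V ^ 9)) := by gcongr
    linarith
  have h6 : (6 : ℝ) ≤ Real.exp (c / 2 * V ^ 9) := by
    have h1 : 4 / c ≤ V := hv4.trans (by rw [hV]; exact_mod_cast a4)
    rw [div_le_iff₀ hcpos] at h1
    have h2 : 2 ≤ c / 2 * V := by linarith
    have h3 : (3000 : ℝ) ≤ V ^ 8 := by have := hpow 1 8 (by norm_num); rw [pow_one] at this; linarith
    have h4 : V ^ 9 = V * V ^ 8 := by ring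
    have h5 : 5 ≤ c / 2 * V ^ 9 := by
      rw [h4, ← mul_assoc]
      nlinarith
    have := Real.add_one_le_exp (c / 2 * V ^ 9)
    linarith
  calc (FX X : ℝ) ≤ 6 * (X * Real.exp (-(c * V ^ 9))) := hfin
    _ ≤ Real.exp (c / 2 * V ^ 9) * (X * Real.exp (-(c * V ^ 9))) := by gcongr
    _ = X * (Real.exp (c / 2 * V ^ 9) * Real.exp (-(c * V ^ 9))) := by ring
    _ = X * Real.exp (-(c / 2 * V ^ 9)) := by
        rw [← Real.exp_add]
        congr 2
        ring

end Pool.Agent.H89.CY
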