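import Pool.Agent.H89.CY.Gen

/-!
[H89 CY GAPL] the version of Gap and Cnt with a factor lambda.
-/

namespace Pool.Agent.H89.CY

open Finset Classical

/-- the inequality with the factor `lam` fails -/
def FailsL (lam : ℝ) (n : ℕ) : Prop :=
  ¬ (((n : ℝ) - 1) * (Real.log (c (n + 1)) - Real.log (c n)) < lam * Real.log (c n))

theorem fails_one (n : ℕ) (hn : 2 ≤ n) (h : Fails n) : FailsL 1 n := by
  have ha : n ≤ c n := c_ge n (by omega)
  have hab : c n < c (n + 1) := c_lt n (n + 1) (by omega) (Nat.lt_succ_self n)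
  unfold Fails at h
  unfold FailsL
  rw [not_lt] at h ⊢
  have hn' : (2 : ℝ) ≤ n := by exact_mod_cast hn
  have ha' : (n : ℝ) ≤ c n := by exact_mod_cast ha
  have hab' : (c n : ℝ) < c (n + 1) := by exact_mod_cast hab
  set a : ℝ := ((c n : ℕ) : ℝ)
  set b : ℝ := ((c (n + 1) : ℕ) : ℝ)
  have ha0 : 0 < a := by linarith
  have hb0 : 0 < b := by linarith
  have h1 := Real.log_le_log (Real.rpow_pos_of_pos ha0 _) h
  rw [Real.log_rpow ha0, Real.log_rpow hb0] at h1
  have h2 : (n : ℝ) * Real.log a ≤ ((n : ℝ) - 1) * Real.log b := by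
    have hp : 0 < (n : ℝ) * ((n : ℝ) - 1) := by
      apply mul_pos <;> linarith
    have h3 := mul_le_mul_of_nonneg_left h1 hp.le
    have h4 : (n : ℝ) * ((n : ℝ) - 1) * (1 / ((n : ℝ) - 1) * Real.log a) = n * Real.log a := by
      have : (n : ℝ) - 1 ≠ 0 := by linarith
      field_simp
    have h5 : (n : ℝ) * ((n : ℝ) - 1) * (1 / (n : ℝ) * Real.log b) = ((n : ℝ) - 1) * Real.log b := by
      have : (n : ℝ) ≠ 0 := by linarith
      field_simp
    rw [h4, h5] at h3
    exact h3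
  linarith

theorem fails_mono (lam mu : ℝ) (h : lam ≤ mu) (n : ℕ) (hn : 2 ≤ n) (hf : FailsL mu n) : FailsL lam n := by
  unfold FailsL at hf ⊢
  rw [not_lt] at hf ⊢
  refine le_trans ?_ hf
  have : 0 ≤ Real.log (c n : ℝ) := by
    apply Real.log_nonneg
    exact_mod_cast le_trans (by omega) (c_ge n (by omega))
  gcongr

theorem gapL (lam : ℝ) (n : ℕ) (hn : 2 ≤ n) (h : FailsL lam n) :
    lam * Real.log (c n) ≤ (c (n + 1) : ℝ) - c n := by
  have ha : n ≤ c n := c_ge n (by omega)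
  have hab : c n < c (n + 1) := c_lt n (n + 1) (by omega) (Nat.lt_succ_self n)
  unfold FailsL at h
  rw [not_lt] at h
  have hn' : (2 : ℝ) ≤ n := by exact_mod_cast hn
  have ha' : (n : ℝ) ≤ c n := by exact_mod_cast ha
  have hab' : (c n : ℝ) < c (n + 1) := by exact_mod_cast hab
  set a : ℝ := ((c n : ℕ) : ℝ)
  set b : ℝ := ((c (n + 1) : ℕ) : ℝ)
  have ha0 : 0 < a := by linarith
  have hb0 : 0 < b := by linarith
  have h3 : Real.log b - Real.log a ≤ (b - a) / a := by
    rw [← Real.log_div hb0.ne' ha0.ne']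
    refine (Real.log_le_sub_one_of_pos (div_pos hb0 ha0)).trans (le_of_eq ?_)
    field_simp
  have h5 : ((n : ℝ) - 1) * (Real.log b - Real.log a) ≤ ((n : ℝ) - 1) * ((b - a) / a) :=
    mul_le_mul_of_nonneg_left h3 (by linarith)
  have h6 : ((n : ℝ) - 1) * ((b - a) / a) ≤ b - a := by
    rw [mul_div_assoc', div_le_iff₀ ha0]
    have : (n : ℝ) - 1 ≤ a := by linarith
    nlinarith
  linarith

private theorem gapL' (lam : ℝ) (hl : 0 < lam) (D k A n : ℕ) (hD : 2 ≤ D)
    (hA : (((k + 1) * D : ℕ) : ℝ) ≤ lam * Real.log A)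
    (hn : 2 ≤ n) (hf : FailsL lam n) (hAn : A ≤ c n) : c n + (k + 1) * D ≤ c (n + 1) := by
  have hpos : (0 : ℝ) < lam * Real.log A := by
    refine lt_of_lt_of_le ?_ hA
    have : 0 < (k + 1) * D := Nat.mul_pos (Nat.succ_pos k) (by omega)
    exact_mod_cast this
  have hA0 : 0 < A := by
    rcases Nat.eq_zero_or_pos A with h | h
    · rw [h] at hpos
      simp at hpos
    · exact h
  have h1 : Real.log A ≤ Real.log (c n) :=
    Real.log_le_log (by exact_mod_cast hA0) (by exact_mod_cast hAn)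
  have h1' : lam * Real.log A ≤ lam * Real.log (c n) := by gcongr
  have h2 := gapL lam n hn hf
  have h3 : (((k + 1) * D : ℕ) : ℝ) ≤ (c (n + 1) : ℝ) - c n := hA.trans (h1'.trans h2)
  have h4 : ((c n + (k + 1) * D : ℕ) : ℝ) ≤ (c (n + 1) : ℝ) := by
    rw [Nat.cast_add]
    linarith
  exact_mod_cast h4

private theorem div_ltL (lam : ℝ) (hl : 0 < lam) (D k A n m : ℕ) (hD : 2 ≤ D)
    (hA : (((k + 1) * D : ℕ) : ℝ) ≤ lam * Real.log A)
    (hn : 2 ≤ n) (hf : FailsL lam n) (hAn : A ≤ c n) (hm : n < m) : c n / D < c m / D := by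
  have h1 := gapL' lam hl D k A n hD hA hn hf hAn
  have h2 : c (n + 1) ≤ c m := by
    rcases Nat.lt_or_ge (n + 1) m with h | h
    · exact (c_lt (n + 1) m (by omega) h).le
    · have : n + 1 = m := by omega
      rw [this]
  have h3 : c n + D ≤ c m := by nlinarith
  have hD0 : 0 < D := by omega
  calc c n / D < c n / D + 1 := Nat.lt_succ_self _
    _ = (c n + D) / D := (Nat.add_div_right (c n) hD0).symm
    _ ≤ c m / D := Nat.div_le_div_right h3

theorem cntL (lam : ℝ) (hl : 0 < lam) (D k A X : ℕ) (hD : 2 ≤ D)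
    (hA : (((k + 1) * D : ℕ) : ℝ) ≤ lam * Real.log A) :
    {n | 2 ≤ n ∧ FailsL lam n ∧ A ≤ c n ∧ c n ≤ X}.ncard ≤
      {t | t ≤ X / D + 1 ∧ ∀ j < k, ¬ Cyc (1 + D * (t + j))}.ncard := by
  refine Set.ncard_le_ncard_of_injOn (fun n => c n / D + 1) ?_ ?_ ?_
  · rintro n ⟨hn, hf, hAn, hX⟩
    have h1 := gapL' lam hl D k A n hD hA hn hf hAn
    refine ⟨Nat.add_le_add_right (Nat.div_le_div_right hX) 1, ?_⟩
    intro j hj
    have h2 : D * (c n / D) ≤ c n := Nat.mul_div_le (c n) D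
    have h3 : c n < D * (c n / D) + D := by
      have := Nat.lt_mul_div_succ (c n) (show 0 < D by omega)
      rw [Nat.mul_add, Nat.mul_one] at this
      exact this
    have h4 : D * (c n / D + 1 + j) = D * (c n / D) + D + D * j := by ring
    have h5 : D * j + D ≤ D * k := by
      have : D * (j + 1) ≤ D * k := Nat.mul_le_mul_left D hj
      rw [Nat.mul_add, Nat.mul_one] at this
      exact this
    have h6 : (k + 1) * D = D * k + D := by ring
    apply no_cyc n _ (by omega)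
    · rw [h4]
      omega
    · rw [h4]
      omega
  · rintro n ⟨hn, hf, hAn, _⟩ m ⟨hm, hfm, hAm, _⟩ h
    have h' : c n / D = c m / D := Nat.succ_injective h
    rcases Nat.lt_trichotomy n m with h1 | h1 | h1
    · have := div_ltL lam hl D k A n m hD hA hn hf hAn h1
      omega
    · exact h1
    · have := div_ltL lam hl D k A m n hD hA hm hfm hAm h1
      omega
  · exact (Set.finite_Iic (X / D + 1)).subset (fun t ht => ht.1)

/-- the number of failures with `c n ≤ X` -/
noncomputable def FXL (lam : ℝ) (X : ℕ) : ℕ := {n | 2 ≤ n ∧ FailsL lam n ∧ c n ≤ X}.ncard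

theorem FXL_le (lam : ℝ) (A X : ℕ) :
    FXL lam X ≤ A + {n | 2 ≤ n ∧ FailsL lam n ∧ A ≤ c n ∧ c n ≤ X}.ncard := by
  unfold FXL
  have hf : {n | 2 ≤ n ∧ FailsL lam n ∧ A ≤ c n ∧ c n ≤ X}.Finite := by
    apply (Set.finite_Iic X).subset
    intro n hn
    exact (c_ge n (by have := hn.1; omega)).trans hn.2.2.2
  have h1 : {n | 2 ≤ n ∧ FailsL lam n ∧ c n ≤ X} ⊆
      (range A : Set ℕ) ∪ {n | 2 ≤ n ∧ FailsL lam n ∧ A ≤ c n ∧ c n ≤ X} := by
    rintro n ⟨h2, h3, h4⟩
    rcases lt_or_ge (c n) A with h | h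
    · left
      have := c_ge n (by omega)
      simp only [coe_range, Set.mem_Iio]
      omega
    · right
      exact ⟨h2, h3, h, h4⟩
  refine (Set.ncard_le_ncard h1 ((finite_toSet _).union hf)).trans ?_
  refine (Set.ncard_union_le _ _).trans ?_
  rw [Set.ncard_coe_finset, card_range]

end Pool.Agent.H89.CY
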