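import Pool.Agent.H89.CY.Par
import Pool.Agent.H89.CY.Sv2
import Pool.Agent.H89.CY.Blk
import Pool.Agent.H89.CY.GapL

/-!
[H89 CY FINY] stronger form: the number of failures with c n <= X is at most X exp (- u / 3), u = (log X)^(1/(5C)).
-/

namespace Pool.Agent.H89.CY

open Finset Classical Filter

theorem genL (lam : ℝ) (hl : 0 < lam) (w y k z D r M A X Y : ℕ) (hwy : w < y) (hD : D = primorial w) (hD2 : 2 ≤ D)
    (hz : 1 ≤ z) (hA : (((k + 1) * D : ℕ) : ℝ) ≤ lam * Real.log A)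
    (hJ : ∀ a : ℕ, ∃ b : ℕ, b + y ≤ k ∧
      M ≤ ((range y).filter (fun j => ∀ p ∈ PR w y, ¬ p ∣ 1 + D * (a + b + j))).card)
    (hY : Y = 1 + D * (X / D + 1 + k)) :
    (FXL lam X : ℝ) ≤ A + (k + 1) * ((((X / D + 2 : ℕ) : ℝ) + k + (∏ p ∈ PR w y, p : ℕ)) *
        ((1 - ∏ p ∈ PR y z, (1 - 1 / (p : ℝ))) ^ M +
        2 * Real.exp (9 * (y * ∑ p ∈ PR y z, 1 / (p : ℝ))) / 3 ^ r)
      + 4 * (∏ p ∈ PR w y, p : ℕ) * (3 * ((z : ℝ) * y + 1)) ^ r) + k * (Y * (2 + Real.log Y) / z) := by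
  have e1 := FXL_le lam A X
  have e2 := cntL lam hl D k A X hD2 hA
  have e3 := two_sets w k z D X hD
  have e4 := sv2 w y k z D (X / D + 2) r M hwy hD hJ
  have e5 : ((∑ j ∈ range k, ((range (X / D + 2)).filter (fun t => Kill z (1 + D * (t + j)))).card : ℕ) : ℝ) ≤
      k * (Y * (2 + Real.log Y) / z) := by
    push_cast
    refine (sum_le_sum fun j hj => kill_j k z D X j Y (by omega) hz (mem_range.1 hj) hY).trans ?_
    rw [sum_const, card_range, nsmul_eq_mul]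
  have e6 : (FXL lam X : ℝ) ≤ A + ((((range (X / D + 2)).filter
      (fun t => ∀ j < k, ∃ p ∈ PR w z, p ∣ 1 + D * (t + j))).card : ℝ) +
      ((∑ j ∈ range k, ((range (X / D + 2)).filter (fun t => Kill z (1 + D * (t + j)))).card : ℕ) : ℝ)) := by
    exact_mod_cast (e1.trans (by omega))
  linarith

theorem ev_pow6 (K : ℕ) : ∀ᶠ v : ℕ in atTop, (v : ℝ) ^ K ≤ Real.exp (v / 6) := by
  have h1 : Tendsto (fun x : ℝ => x ^ (K + 1) * Real.exp (-x)) atTop (nhds 0) :=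
    Real.tendsto_pow_mul_exp_neg_atTop_nhds_zero (K + 1)
  have h3 : Tendsto (fun v : ℕ => (v : ℝ) / 6) atTop atTop :=
    tendsto_natCast_atTop_atTop.atTop_div_const (by norm_num)
  have h2 := (h1.comp h3).eventually (eventually_le_nhds (show (0 : ℝ) < 1 by norm_num))
  filter_upwards [h2, eventually_ge_atTop (6 ^ (K + 1))] with v hv hv2
  simp only [Function.comp_apply] at hv
  rw [Real.exp_neg, ← div_eq_mul_inv, div_le_one (Real.exp_pos _)] at hv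
  refine le_trans ?_ hv
  have h4 : ((6 : ℝ) ^ (K + 1)) ≤ v := by exact_mod_cast hv2
  rw [div_pow, le_div_iff₀ (by positivity), pow_succ (v : ℝ) K]
  have : (0 : ℝ) ≤ (v : ℝ) ^ K := by positivity
  nlinarith

/-- main factor -/
theorem F1_le (c0 : ℝ) (hc0 : 0 < c0) (h : ∀ k z : ℕ, 3 ≤ z → c0 / Real.log z ≤ ∏ p ∈ PR k z, (1 - 1 / (p : ℝ)))
    (u y z : ℕ) (hu : 1 / c0 ≤ u) (hu1 : 1 ≤ u) (hz3 : 3 ≤ z) (hz : (z : ℝ) ≤ Real.exp u) :
    (1 - ∏ p ∈ PR y z, (1 - 1 / (p : ℝ))) ^ (u ^ 3) ≤ Real.exp (-u) := by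
  have hv0 : (0 : ℝ) < u := by exact_mod_cast (by omega : 0 < u)
  set δ := ∏ p ∈ PR y z, (1 - 1 / (p : ℝ)) with hδ
  have h1 : c0 / (u : ℝ) ≤ δ := by
    refine le_trans ?_ (h y z hz3)
    have h2 : 0 < Real.log z := Real.log_pos (by exact_mod_cast (by omega : 1 < z))
    have h3 : Real.log z ≤ (u : ℝ) := by
      rw [Real.log_le_iff_le_exp (by exact_mod_cast (by omega : 0 < z))]
      exact hz
    gcongr
  have h4 : δ ≤ 1 := by
    apply prod_le_one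
    · intro p hp
      unfold PR at hp
      rw [mem_filter] at hp
      have : (1 : ℝ) / p ≤ 1 := by
        rw [div_le_one (by exact_mod_cast hp.2.pos)]
        exact_mod_cast hp.2.one_lt.le
      linarith
    · intro p hp
      have : (0 : ℝ) ≤ 1 / p := by positivity
      linarith
  have h5 : (1 - δ) ^ (u ^ 3) ≤ (Real.exp (-δ)) ^ (u ^ 3) := by
    apply pow_le_pow_left₀ (by linarith)
    have := Real.add_one_le_exp (-δ)
    linarith
  refine h5.trans ?_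
  rw [← Real.exp_nat_mul]
  apply Real.exp_le_exp.2
  push_cast
  have h6 : (u : ℝ) ≤ (u : ℝ) ^ 3 * δ := by
    have h7 : (u : ℝ) ^ 3 * (c0 / u) = (u : ℝ) * (c0 * u) := by field_simp
    have h8 : 1 ≤ c0 * u := by
      rw [div_le_iff₀ hc0] at hu
      linarith
    calc (u : ℝ) = u * 1 := (mul_one _).symm
      _ ≤ u * (c0 * u) := by gcongr
      _ = (u : ℝ) ^ 3 * (c0 / u) := h7.symm
      _ ≤ (u : ℝ) ^ 3 * δ := by gcongr
  linarith

theorem F2_le (u y z : ℕ) (hv : 100 ≤ u) (hy : y = u ^ 4) (hz1 : 1 ≤ z) (hz : (z : ℝ) ≤ Real.exp u) :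
    2 * Real.exp (9 * (y * ∑ p ∈ PR y z, 1 / (p : ℝ))) / 3 ^ (u ^ 6) ≤ Real.exp (-u) := by
  have hv1 : (100 : ℝ) ≤ u := by exact_mod_cast hv
  have h1 : ∑ p ∈ PR y z, 1 / (p : ℝ) ≤ 1 + (u : ℝ) := by
    refine (sgm y z hz1).trans ?_
    have : Real.log z ≤ (u : ℝ) := by
      rw [Real.log_le_iff_le_exp (by exact_mod_cast (by omega : 0 < z))]
      exact hz
    linarith
  have h2 : (Real.exp 1) ^ (u ^ 6) ≤ (3 : ℝ) ^ (u ^ 6) := by
    apply pow_le_pow_left₀ (Real.exp_pos _).le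
    linarith [Real.exp_one_lt_d9]
  have h3 : Real.exp (9 * (y * ∑ p ∈ PR y z, 1 / (p : ℝ))) ≤ Real.exp (9 * ((u : ℝ) ^ 4 * (1 + u))) := by
    apply Real.exp_le_exp.2
    rw [hy] at h1 ⊢
    push_cast
    gcongr
  rw [div_le_iff₀ (by positivity)]
  have h4 : (Real.exp 1) ^ (u ^ 6) = Real.exp ((u : ℝ) ^ 6) := by
    rw [← Real.exp_nat_mul]
    push_cast
    rw [mul_one]
  have h5 : 2 * Real.exp (9 * ((u : ℝ) ^ 4 * (1 + u))) ≤ Real.exp (-(u : ℝ)) * Real.exp ((u : ℝ) ^ 6) := by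
    rw [← Real.exp_add]
    have h6 : (2 : ℝ) ≤ Real.exp 1 := by linarith [Real.exp_one_gt_d9]
    have h7 : 2 * Real.exp (9 * ((u : ℝ) ^ 4 * (1 + u))) ≤ Real.exp (1 + 9 * ((u : ℝ) ^ 4 * (1 + u))) := by
      rw [Real.exp_add]
      gcongr
    refine h7.trans (Real.exp_le_exp.2 ?_)
    have h8 : (u : ℝ) ^ 6 = u ^ 5 * u := by ring
    have h9 : (u : ℝ) ^ 5 * 100 ≤ u ^ 5 * u := by gcongr
    have h10 : (u : ℝ) ^ 4 ≤ u ^ 5 := pow_le_pow_right₀ (by linarith) (by norm_num)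
    have h11 : (u : ℝ) ^ 1 ≤ u ^ 5 := pow_le_pow_right₀ (by linarith) (by norm_num)
    have h12 : (1 : ℝ) ≤ u ^ 5 := one_le_pow₀ (by linarith)
    have h13 : (u : ℝ) ^ 4 * (1 + u) = u ^ 4 + u ^ 5 := by ring
    rw [h13, h8]
    linarith
  calc 2 * Real.exp (9 * (y * ∑ p ∈ PR y z, 1 / (p : ℝ))) ≤ 2 * Real.exp (9 * ((u : ℝ) ^ 4 * (1 + u))) := by
        linarith
    _ ≤ Real.exp (-(u : ℝ)) * Real.exp ((u : ℝ) ^ 6) := h5
    _ ≤ Real.exp (-(u : ℝ)) * 3 ^ (u ^ 6) := by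
        rw [← h4]
        gcongr

theorem F3_le (u w y z : ℕ) (hv : 100 ≤ u) (hy : y = u ^ 4) (hz : (z : ℝ) ≤ Real.exp u)
    (hp : (u : ℝ) ^ 4 ≤ Real.exp u) :
    4 * ((∏ p ∈ PR w y, p : ℕ) : ℝ) * (3 * ((z : ℝ) * y + 1)) ^ (u ^ 6) ≤ Real.exp (u ^ 8) := by
  have hv1 : (100 : ℝ) ≤ u := by exact_mod_cast hv
  have h1 : 3 * ((z : ℝ) * y + 1) ≤ Real.exp (u + u + 2) := by
    rw [hy]
    push_cast
    have h2 : (z : ℝ) * u ^ 4 ≤ Real.exp u * Real.exp u := by gcongr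
    have h3 : (1 : ℝ) ≤ Real.exp u * Real.exp u := by
      rw [← Real.exp_add]
      apply Real.one_le_exp
      positivity
    have h4 : (6 : ℝ) ≤ Real.exp 2 := by
      have := Real.exp_one_gt_d9
      have h5 : Real.exp 2 = Real.exp 1 * Real.exp 1 := by rw [← Real.exp_add]; norm_num
      rw [h5]
      nlinarith
    rw [Real.exp_add, Real.exp_add]
    have h6 : 0 ≤ Real.exp (u : ℝ) * Real.exp u := by positivity
    nlinarith
  have h2 : (3 * ((z : ℝ) * y + 1)) ^ (u ^ 6) ≤ Real.exp ((u : ℝ) ^ 6 * (u + u + 2)) := by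
    refine (pow_le_pow_left₀ (by positivity) h1 _).trans ?_
    rw [← Real.exp_nat_mul]
    push_cast
    exact le_refl _
  have h3 := Q_le w y
  have h4 : (4 : ℝ) ≤ Real.exp 2 := by
    have := Real.exp_one_gt_d9
    have h5 : Real.exp 2 = Real.exp 1 * Real.exp 1 := by rw [← Real.exp_add]; norm_num
    rw [h5]
    nlinarith
  calc 4 * ((∏ p ∈ PR w y, p : ℕ) : ℝ) * (3 * ((z : ℝ) * y + 1)) ^ (u ^ 6)
      ≤ Real.exp 2 * Real.exp (1.4 * y) * Real.exp ((u : ℝ) ^ 6 * (u + u + 2)) := by gcongr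
    _ = Real.exp (2 + 1.4 * y + (u : ℝ) ^ 6 * (u + u + 2)) := by rw [Real.exp_add, Real.exp_add]
    _ ≤ Real.exp (u ^ 8) := by
        apply Real.exp_le_exp.2
        rw [hy]
        push_cast
        have h8 : (u : ℝ) ^ 8 = u ^ 7 * u := by ring
        have h9 : (u : ℝ) ^ 7 * 100 ≤ u ^ 7 * u := by gcongr
        have h10 : (u : ℝ) ^ 4 ≤ u ^ 7 := pow_le_pow_right₀ (by linarith) (by norm_num)
        have h14 : (u : ℝ) ^ 6 ≤ u ^ 7 := pow_le_pow_right₀ (by linarith) (by norm_num)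
        have h12 : (1 : ℝ) ≤ u ^ 7 := one_le_pow₀ (by linarith)
        have h13 : (u : ℝ) ^ 6 * (u + u + 2) = 2 * u ^ 7 + 2 * u ^ 6 := by ring
        rw [h13, h8]
        linarith

end Pool.Agent.H89.CY
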