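import Pool.Agent.H89.CY.Def

/-!
[H89 CY GAP] basic facts on the sequence `c`, and a failure forces a long gap (proofs by helper82).
-/

namespace Pool.Agent.H89.CY

open Finset

theorem cyc_prime (p : ℕ) (hp : p.Prime) : Cyc p := by
  unfold Cyc
  rw [Nat.totient_prime hp]
  exact (Nat.coprime_self_sub_right hp.one_lt.le).2 (Nat.coprime_one_right p)

theorem cyc_inf : (setOf Cyc).Infinite :=
  Nat.infinite_setOfPred_prime.mono fun p hp => cyc_prime p hp

theorem c_cyc (n : ℕ) : Cyc (c n) := Nat.nth_mem_of_infinite cyc_inf _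

theorem c_lt (n m : ℕ) (hn : 1 ≤ n) (h : n < m) : c n < c m :=
  Nat.nth_strictMono cyc_inf (by omega)

theorem c_ge (n : ℕ) (hn : 1 ≤ n) : n ≤ c n := by
  induction n, hn using Nat.le_induction with
  | base =>
    have h := c_cyc 1
    rcases Nat.eq_zero_or_pos (c 1) with h0 | h0
    · rw [h0] at h
      exact absurd h (by unfold Cyc; simp)
    · exact h0
  | succ k hk ih =>
    have := c_lt k (k + 1) hk (Nat.lt_succ_self k)
    omega

theorem no_cyc (n m : ℕ) (hn : 1 ≤ n) (h1 : c n < m) (h2 : m < c (n + 1)) : ¬ Cyc m := by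
  classical
  intro hm
  have h3 : Nat.nth Cyc (Nat.count Cyc m) = m := Nat.nth_count hm
  have hs := Nat.nth_strictMono cyc_inf
  unfold c at h1 h2
  rw [← h3] at h1 h2
  have h4 := hs.lt_iff_lt.1 h1
  have h5 := hs.lt_iff_lt.1 h2
  omega

theorem gap (n : ℕ) (hn : 2 ≤ n) (h : Fails n) : Real.log (c n) ≤ (c (n + 1) : ℝ) - c n := by
  have ha : n ≤ c n := c_ge n (by omega)
  have hab : c n < c (n + 1) := c_lt n (n + 1) (by omega) (Nat.lt_succ_self n)
  unfold Fails at h
  rw [not_lt] at h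
  have hn' : (2 : ℝ) ≤ n := by exact_mod_cast hn
  have ha' : (n : ℝ) ≤ c n := by exact_mod_cast ha
  have hab' : (c n : ℝ) < c (n + 1) := by exact_mod_cast hab
  set a : ℝ := ((c n : ℕ) : ℝ)
  set b : ℝ := ((c (n + 1) : ℕ) : ℝ)
  have ha0 : 0 < a := by linarith
  have hb0 : 0 < b := by linarith
  have h1 := Real.log_le_log (Real.rpow_pos_of_pos ha0 _) h
  rw [Real.log_rpow ha0, Real.log_rpow hb0] at h1
  have h2 : (n : ℝ) * Real.log a ≤ ((n : ℝ) - 1) * Real.log b := by
    have hp : 0 < (n : ℝ) * ((n : ℝ) - 1) := by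
      apply mul_pos <;> linarith
    have h3 := mul_le_mul_of_nonneg_left h1 hp.le
    have h4 : (n : ℝ) * ((n : ℝ) - 1) * (1 / ((n : ℝ) - 1) * Real.log a) = n * Real.log a := by
      have : (n : ℝ) - 1 ≠ 0 := by linarith
      field_simp
    have h5 : (n : ℝ) * ((n : ℝ) - 1) * (1 / (n : ℝ) * Real.log b) = ((n : ℝ) - 1) * Real.log b := by
      have : (n : ℝ) ≠ 0 := by linarith
      field_simp
    rw [h4, h5] at h3
    exact h3
  have h3 : Real.log b - Real.log a ≤ (b - a) / a := by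
    rw [← Real.log_div hb0.ne' ha0.ne']
    refine (Real.log_le_sub_one_of_pos (div_pos hb0 ha0)).trans (le_of_eq ?_)
    field_simp
  have h4 : Real.log a ≤ ((n : ℝ) - 1) * (Real.log b - Real.log a) := by linarith
  have h5 : ((n : ℝ) - 1) * (Real.log b - Real.log a) ≤ ((n : ℝ) - 1) * ((b - a) / a) :=
    mul_le_mul_of_nonneg_left h3 (by linarith)
  have h6 : ((n : ℝ) - 1) * ((b - a) / a) ≤ b - a := by
    rw [mul_div_assoc', div_le_iff₀ ha0]
    have : (n : ℝ) - 1 ≤ a := by linarith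
    nlinarith
  linarith

end Pool.Agent.H89.CY
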