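import Pool.Agent.H89.CY.Def

/-!
[H89 CY JST] among k consecutive terms of the progression many are free of the primes in (w, k].
For a prime p in (w, k] (p does not divide D = primorial w): the j < k with p | 1 + D (a + j) lie in one class modulo p, so
there are at most k/p + 1 of them. Total at most k sum 1/p + |PR w k| <= (17/20) k + k/20 = (9/10) k.
-/

namespace Pool.Agent.H89.CY

open Finset Classical

private theorem not_dvd_primorial (w p : ℕ) (hp : p.Prime) (hw : w < p) : ¬ p ∣ primorial w := by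
  intro h
  rw [primorial, Prime.dvd_finsetProd_iff hp.prime] at h
  obtain ⟨q, hq, hpq⟩ := h
  have hq2 := (mem_filter.1 hq).2
  have hq1 := mem_range.1 (mem_filter.1 hq).1
  have := (Nat.prime_dvd_prime_iff_eq hp hq2).1 hpq
  omega

private theorem one_class (p k D a : ℕ) (hp : p.Prime) (hD : ¬ p ∣ D) :
    ((range k).filter (fun j => p ∣ 1 + D * (a + j))).card ≤ k / p + 1 := by
  rw [← card_range (k / p + 1)]
  refine card_le_card_of_injOn (fun j => j / p) ?_ ?_
  · intro j hj
    have h1 := mem_range.1 (mem_filter.1 (mem_coe.1 hj)).1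
    refine mem_coe.2 (mem_range.2 (Nat.lt_succ_of_le ?_))
    exact Nat.div_le_div_right h1.le
  · intro i hi j hj hij
    have hi1 := (mem_filter.1 (mem_coe.1 hi)).2
    have hj1 := (mem_filter.1 (mem_coe.1 hj)).2
    have h2 : (p : ℤ) ∣ (D : ℤ) * ((i : ℤ) - j) := by
      have e1 : (p : ℤ) ∣ ((1 + D * (a + i) : ℕ) : ℤ) := by exact_mod_cast hi1
      have e2 : (p : ℤ) ∣ ((1 + D * (a + j) : ℕ) : ℤ) := by exact_mod_cast hj1
      have e3 := dvd_sub e1 e2
      push_cast at e3
      have e4 : (1 + (D : ℤ) * (a + i)) - (1 + D * (a + j)) = D * ((i : ℤ) - j) := by ring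
      rw [e4] at e3
      exact e3
    have hpZ : Prime (p : ℤ) := Nat.prime_iff_prime_int.1 hp
    have h3 : (p : ℤ) ∣ (i : ℤ) - j := by
      rcases hpZ.dvd_or_dvd h2 with h | h
      · exact absurd (Int.natCast_dvd_natCast.1 h) hD
      · exact h
    have h4 : i ≡ j [MOD p] := by
      have h5 : (j : ℤ) ≡ i [ZMOD p] := Int.modEq_iff_dvd.2 h3
      exact ((Int.natCast_modEq_iff).1 h5).symm
    have h6 := Nat.div_add_mod i p
    have h7 := Nat.div_add_mod j p
    have h8 : i % p = j % p := h4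
    simp only at hij
    rw [hij, h8] at h6
    omega

theorem jst (w k D a : ℕ) (hD : D = primorial w) (h1 : ∑ p ∈ PR w k, 1 / (p : ℝ) ≤ 17 / 20)
    (h2 : 20 * (PR w k).card ≤ k) :
    (k : ℝ) / 10 ≤ ((range k).filter (fun j => ∀ p ∈ PR w k, ¬ p ∣ 1 + D * (a + j))).card := by
  have hsub : (range k).filter (fun j => ¬ ∀ p ∈ PR w k, ¬ p ∣ 1 + D * (a + j)) ⊆
      (PR w k).biUnion (fun p => (range k).filter (fun j => p ∣ 1 + D * (a + j))) := by
    intro j hj
    obtain ⟨hj1, hj2⟩ := mem_filter.1 hj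
    push Not at hj2
    obtain ⟨p, hp, hpd⟩ := hj2
    exact mem_biUnion.2 ⟨p, hp, mem_filter.2 ⟨hj1, hpd⟩⟩
  have hb : (((range k).filter (fun j => ¬ ∀ p ∈ PR w k, ¬ p ∣ 1 + D * (a + j))).card : ℝ) ≤ 9 / 10 * k := by
    have h3 : ((range k).filter (fun j => ¬ ∀ p ∈ PR w k, ¬ p ∣ 1 + D * (a + j))).card ≤
        ∑ p ∈ PR w k, ((range k).filter (fun j => p ∣ 1 + D * (a + j))).card :=
      (card_le_card hsub).trans card_biUnion_le
    have h4 : ∀ p ∈ PR w k, (((range k).filter (fun j => p ∣ 1 + D * (a + j))).card : ℝ) ≤ k * (1 / (p : ℝ)) + 1 := by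
      intro p hp
      obtain ⟨hp1, hp2⟩ := mem_filter.1 hp
      have hp3 := (mem_Icc.1 hp1).1
      have h5 := one_class p k D a hp2 (by rw [hD]; exact not_dvd_primorial w p hp2 (by omega))
      have h6 : (((range k).filter (fun j => p ∣ 1 + D * (a + j))).card : ℝ) ≤ ((k / p + 1 : ℕ) : ℝ) := by
        exact_mod_cast h5
      refine h6.trans ?_
      push_cast
      have h7 : ((k / p : ℕ) : ℝ) ≤ (k : ℝ) / p := Nat.cast_div_le
      rw [mul_one_div]
      linarith
    have h5 : (((range k).filter (fun j => ¬ ∀ p ∈ PR w k, ¬ p ∣ 1 + D * (a + j))).card : ℝ) ≤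
        ∑ p ∈ PR w k, (((range k).filter (fun j => p ∣ 1 + D * (a + j))).card : ℝ) := by
      exact_mod_cast h3
    refine h5.trans ((sum_le_sum h4).trans ?_)
    rw [sum_add_distrib, ← mul_sum, sum_const, nsmul_eq_mul, mul_one]
    have h6 : (20 : ℝ) * (PR w k).card ≤ k := by exact_mod_cast h2
    have h7 : (k : ℝ) * ∑ p ∈ PR w k, 1 / (p : ℝ) ≤ k * (17 / 20) :=
      mul_le_mul_of_nonneg_left h1 (Nat.cast_nonneg _)
    linarith
  have hsum := card_filter_add_card_filter_not (s := range k) (fun j => ∀ p ∈ PR w k, ¬ p ∣ 1 + D * (a + j))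
  rw [card_range] at hsum
  have hsum' : (((range k).filter (fun j => ∀ p ∈ PR w k, ¬ p ∣ 1 + D * (a + j))).card : ℝ) +
      (((range k).filter (fun j => ¬ ∀ p ∈ PR w k, ¬ p ∣ 1 + D * (a + j))).card : ℝ) = k := by
    exact_mod_cast hsum
  linarith

end Pool.Agent.H89.CY
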