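import Pool.Agent.H89.CY.Def

/-!
[H89 CY KIL, part 1] numbers killed by a number `p > z`: see the header of `Kil.lean`.
-/

namespace Pool.Agent.H89.CY.A

open Finset Classical

/-- multiples of `d` in `[1, Y]` -/
private noncomputable def mult (Y d : ℕ) : Finset ℕ := (Icc 1 Y).filter (fun m => d ∣ m)

private theorem mult_card (Y d : ℕ) : (mult Y d).card = Y / d := by
  have h := Nat.Ioc_filter_dvd_card_eq_div Y d
  have e : Icc 1 Y = Ioc 0 Y := by
    ext m; simp only [mem_Icc, mem_Ioc]; omega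
  unfold mult
  rw [e, ← h]

private theorem mult_card_le (Y d : ℕ) {b : ℝ} (hb : 0 < b) (hbd : b ≤ d) :
    ((mult Y d).card : ℝ) ≤ Y / b := by
  rw [mult_card]
  calc ((Y / d : ℕ) : ℝ) ≤ (Y : ℝ) / d := Nat.cast_div_le
    _ ≤ (Y : ℝ) / b := div_le_div_of_nonneg_left (Nat.cast_nonneg Y) hb hbd

theorem kil_card (z Y : ℕ) (hz : 1 ≤ z) (hY : 1 ≤ Y) :
    (((Icc 1 Y).filter (fun m => Kill z m)).card : ℝ) ≤ Y * (2 + Real.log Y) / z := by
  have hlog : 0 ≤ Real.log Y := Real.log_nonneg (by exact_mod_cast hY)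
  have hsub : (Icc 1 Y).filter (fun m => Kill z m) ⊆
      (Ioc z Y).biUnion (fun p => mult Y (p * p) ∪
        (Icc 1 Y).biUnion (fun e => mult Y (p * (1 + e * p)))) := by
    intro m hm
    rw [mem_filter, mem_Icc] at hm
    obtain ⟨⟨h1, h2⟩, p, hp, hk⟩ := hm
    rw [mem_biUnion]
    rcases hk with hk | ⟨e, he, hk⟩
    · have hpm : p * p ≤ m := Nat.le_of_dvd (by omega) hk
      have hpY : p ≤ Y := by nlinarith
      refine ⟨p, mem_Ioc.2 ⟨hp, hpY⟩, ?_⟩
      rw [mem_union]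
      left
      unfold mult
      rw [mem_filter, mem_Icc]
      exact ⟨⟨h1, h2⟩, hk⟩
    · have hpm : p * (1 + e * p) ≤ m := Nat.le_of_dvd (by omega) hk
      have hp1 : 1 ≤ p := by omega
      have h3 : p * 1 ≤ p * (1 + e * p) := Nat.mul_le_mul_left p (by omega)
      have hpY : p ≤ Y := by omega
      have h4 : 1 * e ≤ p * (1 + e * p) := by
        apply Nat.mul_le_mul hp1
        nlinarith
      have heY : e ≤ Y := by omega
      refine ⟨p, mem_Ioc.2 ⟨hp, hpY⟩, ?_⟩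
      rw [mem_union]
      right
      rw [mem_biUnion]
      refine ⟨e, mem_Icc.2 ⟨he, heY⟩, ?_⟩
      unfold mult
      rw [mem_filter, mem_Icc]
      exact ⟨⟨h1, h2⟩, hk⟩
  have hharm : ∑ e ∈ Icc 1 Y, ((e : ℝ))⁻¹ ≤ 1 + Real.log Y := by
    have h1 := harmonic_le_one_add_log Y
    rw [harmonic_eq_sum_Icc] at h1
    push_cast at h1
    exact h1
  have hone : ∀ p ∈ Ioc z Y, ((mult Y (p * p) ∪
      (Icc 1 Y).biUnion (fun e => mult Y (p * (1 + e * p)))).card : ℝ) ≤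
      Y * (2 + Real.log Y) * ((p : ℝ) ^ 2)⁻¹ := by
    intro p hp
    rw [mem_Ioc] at hp
    have hp0 : (0 : ℝ) < p := by
      have : 0 < p := by omega
      exact_mod_cast this
    have a1 : ((mult Y (p * p)).card : ℝ) ≤ Y / (p : ℝ) ^ 2 :=
      mult_card_le Y (p * p) (by positivity) (by push_cast; rw [pow_two])
    have a2 : (((Icc 1 Y).biUnion (fun e => mult Y (p * (1 + e * p)))).card : ℝ) ≤
        ∑ e ∈ Icc 1 Y, (Y : ℝ) / (e * (p : ℝ) ^ 2) := by
      calc (((Icc 1 Y).biUnion (fun e => mult Y (p * (1 + e * p)))).card : ℝ)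
          ≤ ((∑ e ∈ Icc 1 Y, (mult Y (p * (1 + e * p))).card : ℕ) : ℝ) := by
            exact_mod_cast card_biUnion_le
        _ = ∑ e ∈ Icc 1 Y, ((mult Y (p * (1 + e * p))).card : ℝ) := by push_cast; rfl
        _ ≤ _ := by
            apply Finset.sum_le_sum
            intro e he
            rw [mem_Icc] at he
            have he0 : (0 : ℝ) < e := by
              have : 0 < e := by omega
              exact_mod_cast this
            apply mult_card_le Y _ (by positivity)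
            push_cast
            nlinarith
    have a3 : ∑ e ∈ Icc 1 Y, (Y : ℝ) / (e * (p : ℝ) ^ 2) =
        (Y : ℝ) * ((p : ℝ) ^ 2)⁻¹ * ∑ e ∈ Icc 1 Y, ((e : ℝ))⁻¹ := by
      rw [Finset.mul_sum]
      refine Finset.sum_congr rfl fun e _ => ?_
      rw [div_eq_mul_inv, mul_inv]
      ring
    have hYp : (0 : ℝ) ≤ (Y : ℝ) * ((p : ℝ) ^ 2)⁻¹ := by positivity
    calc ((mult Y (p * p) ∪
        (Icc 1 Y).biUnion (fun e => mult Y (p * (1 + e * p)))).card : ℝ)
        ≤ ((mult Y (p * p)).card : ℝ) +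
          (((Icc 1 Y).biUnion (fun e => mult Y (p * (1 + e * p)))).card : ℝ) := by
          exact_mod_cast card_union_le _ _
      _ ≤ (Y : ℝ) * ((p : ℝ) ^ 2)⁻¹ * 1 + (Y : ℝ) * ((p : ℝ) ^ 2)⁻¹ * (1 + Real.log Y) := by
          apply add_le_add
          · rw [mul_one, ← div_eq_mul_inv]; exact a1
          · refine a2.trans ?_
            rw [a3]
            exact mul_le_mul_of_nonneg_left hharm hYp
      _ = Y * (2 + Real.log Y) * ((p : ℝ) ^ 2)⁻¹ := by ring
  have hsq : ∑ p ∈ Ioc z Y, ((p : ℝ) ^ 2)⁻¹ ≤ (z : ℝ)⁻¹ := by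
    rcases le_total z Y with h | h
    · have h1 := sum_Ioc_inv_sq_le_sub (α := ℝ) (by omega : z ≠ 0) h
      have h2 : (0 : ℝ) ≤ (Y : ℝ)⁻¹ := by positivity
      linarith
    · rw [Ioc_eq_empty (by omega), Finset.sum_empty]
      positivity
  calc (((Icc 1 Y).filter (fun m => Kill z m)).card : ℝ)
      ≤ (((Ioc z Y).biUnion (fun p => mult Y (p * p) ∪
        (Icc 1 Y).biUnion (fun e => mult Y (p * (1 + e * p))))).card : ℝ) := by
        exact_mod_cast card_le_card hsub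
    _ ≤ ((∑ p ∈ Ioc z Y, (mult Y (p * p) ∪
        (Icc 1 Y).biUnion (fun e => mult Y (p * (1 + e * p)))).card : ℕ) : ℝ) := by
        exact_mod_cast card_biUnion_le
    _ = ∑ p ∈ Ioc z Y, ((mult Y (p * p) ∪
        (Icc 1 Y).biUnion (fun e => mult Y (p * (1 + e * p)))).card : ℝ) := by push_cast; rfl
    _ ≤ ∑ p ∈ Ioc z Y, Y * (2 + Real.log Y) * ((p : ℝ) ^ 2)⁻¹ := Finset.sum_le_sum hone
    _ = Y * (2 + Real.log Y) * ∑ p ∈ Ioc z Y, ((p : ℝ) ^ 2)⁻¹ := by rw [Finset.mul_sum]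
    _ ≤ Y * (2 + Real.log Y) * (z : ℝ)⁻¹ :=
        mul_le_mul_of_nonneg_left hsq (by positivity)
    _ = Y * (2 + Real.log Y) / z := by rw [div_eq_mul_inv]

end Pool.Agent.H89.CY.A
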