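import Pool.Agent.H89.CY.Def

namespace Pool.Agent.H89.CY.B

open Finset Classical

theorem split (z m : ℕ) (hm : 1 ≤ m) (h : ¬ Cyc m) (hr : ∀ p, p.Prime → p ∣ m → z < p) : Kill z m := by
  obtain ⟨p, hp, hpg⟩ := Nat.exists_prime_and_dvd (show Nat.gcd m (Nat.totient m) ≠ 1 from h)
  have hpm : p ∣ m := hpg.trans (Nat.gcd_dvd_left _ _)
  have hpt : p ∣ Nat.totient m := hpg.trans (Nat.gcd_dvd_right _ _)
  refine ⟨p, hr p hp hpm, ?_⟩
  by_cases hsq : p * p ∣ m
  · exact Or.inl hsq
  · right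
    have hm0 : m ≠ 0 := by omega
    rw [Nat.totient_eq_prod_factorization hm0, Finsupp.prod] at hpt
    obtain ⟨q, hq, hpq⟩ := (Prime.dvd_finsetProd_iff hp.prime _).1 hpt
    rw [Nat.support_factorization, Nat.mem_primeFactors] at hq
    obtain ⟨hqp, hqm, -⟩ := hq
    have hne : ¬ p ∣ q ^ (m.factorization q - 1) := by
      intro h1
      have h2 : p ∣ q := hp.dvd_of_dvd_pow h1
      have h3 : p = q := (Nat.prime_dvd_prime_iff_eq hp hqp).1 h2
      subst h3
      have h4 : 2 ≤ m.factorization p := by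
        by_contra h5
        have h6 : m.factorization p - 1 = 0 := by omega
        rw [h6, pow_zero, Nat.dvd_one] at h1
        exact hp.one_lt.ne' h1
      apply hsq
      have h7 : p ^ 2 ∣ m := (hp.pow_dvd_iff_le_factorization hm0).2 h4
      rwa [pow_two] at h7
    have hq1 : p ∣ q - 1 := (hp.dvd_mul.1 hpq).resolve_left hne
    obtain ⟨e, he⟩ := hq1
    have hq2 := hqp.two_le
    have he1 : 1 ≤ e := by
      rcases Nat.eq_zero_or_pos e with h1 | h1
      · rw [h1, mul_zero] at he
        omega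
      · exact h1
    have hqe : q = 1 + e * p := by
      rw [mul_comm e p, ← he]
      omega
    refine ⟨e, he1, ?_⟩
    rw [← hqe]
    refine Nat.Coprime.mul_dvd_of_dvd_of_dvd ?_ hpm hqm
    rw [Nat.coprime_primes hp hqp]
    intro h1
    rw [← h1] at hqe
    have h2 : p ≤ e * p := Nat.le_mul_of_pos_left _ he1
    omega

end Pool.Agent.H89.CY.B
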