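import Pool.Agent.H89.CY.Def
import Pool.Agent.H89.CY.KilA
import Pool.Agent.H89.CY.KilB

/-!
[H89 CY KIL] numbers killed by a prime > z.
* `kil_card`: for each p > z the multiples of p*p in [1,Y] are <= Y/p^2, and for e >= 1 the multiples of p (1+e p) in [1,Y]
  are <= Y / (p (1 + e p)) <= Y / (e p^2), only e <= Y matter; p <= Y too. The sum over e in [1,Y] of 1/e is <= 1 + log Y
  (harmonic_le_one_add_log), the sum over integers p > z of 1/p^2 is <= 1/z (telescoping: 1/p^2 <= 1/(p-1) - 1/p;
  Mathlib: sum_Ioc_inv_sq_le_sub, sum_Ioo_inv_sq_le). Total <= Y (1 + 1 + log Y) / z.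
* `split`: m >= 1 not cyclic: there is a prime p dividing m and totient m, so z < p. Write m = p ^ a * b with p not dividing b:
  if a >= 2 then p * p | m. If a = 1: totient m = (p-1) totient b, so p | totient b, so p divides
  some (q - 1) with q a prime factor of b (Nat.totient_eq_prod_factorization or Nat.Prime.dvd_... : totient b = prod of q^(e-1) (q-1);
  p does not divide q^(e-1) as p does not divide b). q = 1 + e p, e >= 1, q <> p, so p * q | m by coprimality.
-/

namespace Pool.Agent.H89.CY

open Finset Classical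

theorem kil_card (z Y : ℕ) (hz : 1 ≤ z) (hY : 1 ≤ Y) :
    (((Icc 1 Y).filter (fun m => Kill z m)).card : ℝ) ≤ Y * (2 + Real.log Y) / z :=
  A.kil_card z Y hz hY

theorem split (z m : ℕ) (hm : 1 ≤ m) (h : ¬ Cyc m) (hr : ∀ p, p.Prime → p ∣ m → z < p) : Kill z m :=
  B.split z m hm h hr

end Pool.Agent.H89.CY
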