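import Pool.Agent.H89.CY.Cor

/-!
[H89 CY SV] the numbers t < T for which each of the 1 + D (t + j), j < k, has a prime factor in (w, z].
Q = product of the primes in (w, k]. Split by a = t mod Q: t = a + Q s with s < S = T / Q + 1 (Q S <= T + Q).
J = {j < k : no prime of (w, k] divides 1 + D (a + j)} (this depends on t mod Q only), |J| >= M. For j in J the prime factor
p of 1 + D (t + j) in (w, z] lies in (k, z]. Such p does not divide D = primorial w (all its prime factors are <= w) nor Q, so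
p | 1 + D (a + j) + D Q s iff s = ρ p j mod p for a suitable ρ p j (choose it, e.g. by Classical choice or with the inverse of D Q
modulo p); ρ p i = ρ p j mod p implies p | D (i - j), so p | i - j and i = j as |i - j| < k < p.
Apply `core` with R = PR k z, this J, S, r: R.card <= z, J.card <= k, (1 - prod)^|J| <= (1 - prod)^M since 0 <= 1 - prod <= 1.
Sum over a < Q.
-/

namespace Pool.Agent.H89.CY

open Finset Classical

private theorem sv_mem {a b p : ℕ} (h : p ∈ PR a b) : a < p ∧ p ≤ b ∧ p.Prime := by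
  unfold PR at h
  rw [mem_filter, mem_Icc] at h
  exact ⟨by omega, h.1.2, h.2⟩

private theorem sv_Q {w k p : ℕ} (hp : p.Prime) (h : k < p) : ¬ p ∣ ∏ q ∈ PR w k, q := by
  intro hd
  obtain ⟨q, hq, hpq⟩ := (hp.prime.dvd_finsetProd_iff _).1 hd
  have h1 := sv_mem hq
  have h2 := Nat.le_of_dvd h1.2.2.pos hpq
  omega

private theorem sv_D {w p : ℕ} (hp : p.Prime) (h : w < p) : ¬ p ∣ primorial w := by
  intro hd
  unfold primorial at hd
  obtain ⟨q, hq, hpq⟩ := (hp.prime.dvd_finsetProd_iff _).1 hd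
  have h1 := mem_filter.1 hq
  have h2 := Nat.le_of_dvd h1.2.pos hpq
  have h3 := mem_range.1 h1.1
  omega

/-- a solution of the congruence -/
private theorem sv_ex {p X Y : ℕ} (hp : p.Prime) (hY : ¬ p ∣ Y) : ∃ s, p ∣ X + Y * s := by
  have : Fact p.Prime := ⟨hp⟩
  have hY0 : (Y : ZMod p) ≠ 0 := by
    intro h
    exact hY ((ZMod.natCast_eq_zero_iff Y p).1 h)
  refine ⟨(-(X : ZMod p) * (Y : ZMod p)⁻¹).val, ?_⟩
  rw [← ZMod.natCast_eq_zero_iff]
  push_cast
  rw [ZMod.natCast_val, ZMod.cast_id', id]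
  field_simp
  ring

/-- two solutions are congruent -/
private theorem sv_un {p X Y s s' : ℕ} (hp : p.Prime) (hY : ¬ p ∣ Y) (h : p ∣ X + Y * s) (h' : p ∣ X + Y * s') :
    s ≡ s' [MOD p] := by
  have : Fact p.Prime := ⟨hp⟩
  rw [← ZMod.natCast_eq_zero_iff] at h h'
  rw [← ZMod.natCast_eq_natCast_iff]
  have hY0 : (Y : ZMod p) ≠ 0 := by
    intro h
    exact hY ((ZMod.natCast_eq_zero_iff Y p).1 h)
  push_cast at h h'
  have h1 : (Y : ZMod p) * ((s : ZMod p) - s') = 0 := by linear_combination h - h'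
  rcases mul_eq_zero.1 h1 with h2 | h2
  · exact absurd h2 hY0
  · exact sub_eq_zero.1 h2

/-- different numbers have different solutions -/
private theorem sv_inj {p D Q a i j s s' k : ℕ} (hp : p.Prime) (hD : ¬ p ∣ D) (hk : k < p) (hi : i < k) (hj : j < k)
    (h : p ∣ 1 + D * (a + i) + D * Q * s) (h' : p ∣ 1 + D * (a + j) + D * Q * s') (hs : s ≡ s' [MOD p]) : i = j := by
  have : Fact p.Prime := ⟨hp⟩
  rw [← ZMod.natCast_eq_zero_iff] at h h'
  rw [← ZMod.natCast_eq_natCast_iff] at hs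
  have hD0 : (D : ZMod p) ≠ 0 := by
    intro h
    exact hD ((ZMod.natCast_eq_zero_iff D p).1 h)
  push_cast at h h'
  have h1 : (D : ZMod p) * ((i : ZMod p) - j) = 0 := by
    rw [hs] at h
    linear_combination h - h'
  rcases mul_eq_zero.1 h1 with h2 | h2
  · exact absurd h2 hD0
  · have h3 : (i : ZMod p) = j := sub_eq_zero.1 h2
    rw [ZMod.natCast_eq_natCast_iff] at h3
    have h4 : i % p = j % p := h3
    rw [Nat.mod_eq_of_lt (by omega), Nat.mod_eq_of_lt (by omega)] at h4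
    exact h4

private theorem sv_prod (k z : ℕ) : 0 ≤ 1 - ∏ p ∈ PR k z, (1 - 1 / (p : ℝ)) ∧
    1 - ∏ p ∈ PR k z, (1 - 1 / (p : ℝ)) ≤ 1 := by
  have h : ∀ p ∈ PR k z, 0 ≤ 1 - 1 / (p : ℝ) ∧ 1 - 1 / (p : ℝ) ≤ 1 := by
    intro p hp
    have h1 : (1 : ℝ) ≤ p := by exact_mod_cast (sv_mem hp).2.2.one_le
    have h2 : 1 / (p : ℝ) ≤ 1 := by
      rw [div_le_one (by linarith)]
      exact h1
    have h3 : 0 ≤ 1 / (p : ℝ) := by positivity
    exact ⟨by linarith, by linarith⟩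
  have h1 : ∏ p ∈ PR k z, (1 - 1 / (p : ℝ)) ≤ 1 := prod_le_one (fun p hp => (h p hp).1) fun p hp => (h p hp).2
  have h2 : 0 ≤ ∏ p ∈ PR k z, (1 - 1 / (p : ℝ)) := prod_nonneg fun p hp => (h p hp).1
  exact ⟨by linarith, by linarith⟩

private theorem sv_one (w k z D T r M Q a : ℕ) (hwk : w < k) (hD : D = primorial w) (hQ : Q = ∏ p ∈ PR w k, p)
    (hJ : M ≤ ((range k).filter (fun j => ∀ p ∈ PR w k, ¬ p ∣ 1 + D * (a + j))).card) :
    ((((range T).filter (fun t => ∀ j < k, ∃ p ∈ PR w z, p ∣ 1 + D * (t + j))).filter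
      (fun t => t % Q = a)).card : ℝ) ≤
      ((T / Q + 1 : ℕ) : ℝ) * ((1 - ∏ p ∈ PR k z, (1 - 1 / (p : ℝ))) ^ M +
        2 * Real.exp (9 * (k * ∑ p ∈ PR k z, 1 / (p : ℝ))) / 3 ^ r)
      + 4 * (3 * ((z : ℝ) * k + 1)) ^ r := by
  have hQ0 : 0 < Q := by
    rw [hQ]
    exact prod_pos fun p hp => (sv_mem hp).2.2.pos
  set J := (range k).filter (fun j => ∀ p ∈ PR w k, ¬ p ∣ 1 + D * (a + j)) with hJdef
  -- the residues
  have hDp : ∀ p ∈ PR k z, ¬ p ∣ D := fun p hp => by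
    have h := sv_mem hp
    rw [hD]
    exact sv_D h.2.2 (by omega)
  have hDQ : ∀ p ∈ PR k z, ¬ p ∣ D * Q := fun p hp hd => by
    rcases (sv_mem hp).2.2.dvd_mul.1 hd with h | h
    · exact hDp p hp h
    · rw [hQ] at h
      exact sv_Q (sv_mem hp).2.2 (sv_mem hp).1 h
  have hex : ∀ p j : ℕ, ∃ s, p ∈ PR k z → p ∣ 1 + D * (a + j) + D * Q * s := by
    intro p j
    by_cases hp : p ∈ PR k z
    · obtain ⟨s, hs⟩ := sv_ex (X := 1 + D * (a + j)) (sv_mem hp).2.2 (hDQ p hp)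
      exact ⟨s, fun _ => hs⟩
    · exact ⟨0, fun h => absurd h hp⟩
  choose ρ hρ using hex
  have hcore := core (PR k z) J ρ (fun p hp => (sv_mem hp).2.2) (by
    intro p hp i hi j hj hij
    exact sv_inj (sv_mem hp).2.2 (hDp p hp) (sv_mem hp).1 (mem_range.1 (mem_filter.1 hi).1)
      (mem_range.1 (mem_filter.1 hj).1) (hρ p i hp) (hρ p j hp) hij) (T / Q + 1) r (Nat.le_add_left 1 _)
  -- the injection
  have hle : (((range T).filter (fun t => ∀ j < k, ∃ p ∈ PR w z, p ∣ 1 + D * (t + j))).filter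
      (fun t => t % Q = a)).card ≤ ((range (T / Q + 1)).filter (fun s => Hit (PR k z) J ρ s)).card := by
    refine card_le_card_of_injOn (fun t => t / Q) ?_ ?_
    · intro t ht
      rw [mem_coe, mem_filter, mem_filter, mem_range] at ht
      obtain ⟨⟨htT, hG⟩, hta⟩ := ht
      rw [mem_coe, mem_filter, mem_range]
      refine ⟨Nat.lt_succ_of_le (Nat.div_le_div_right htT.le), ?_⟩
      intro j hj
      have hj1 := mem_filter.1 hj
      obtain ⟨p, hp, hd⟩ := hG j (mem_range.1 hj1.1)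
      have hpm := sv_mem hp
      have ht2 : t = a + Q * (t / Q) := by
        rw [← hta]
        exact (Nat.mod_add_div t Q).symm
      have hd2 : p ∣ 1 + D * (a + j) + D * Q * (t / Q) := by
        have e : 1 + D * (a + j) + D * Q * (t / Q) = 1 + D * (a + Q * (t / Q) + j) := by ring
        rw [e, ← ht2]
        exact hd
      by_cases hpk : p ≤ k
      · exfalso
        have hpPR : p ∈ PR w k := by
          unfold PR
          rw [mem_filter, mem_Icc]
          exact ⟨⟨by omega, hpk⟩, hpm.2.2⟩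
        have hpQ : p ∣ Q := by
          rw [hQ]
          exact dvd_prod_of_mem (fun p => p) hpPR
        have h3 : p ∣ D * Q * (t / Q) := Dvd.dvd.mul_right (Dvd.dvd.mul_left hpQ D) _
        exact hj1.2 p hpPR ((Nat.dvd_add_left h3).1 hd2)
      · have hpR : p ∈ PR k z := by
          unfold PR
          rw [mem_filter, mem_Icc]
          exact ⟨⟨by omega, hpm.2.1⟩, hpm.2.2⟩
        exact ⟨p, hpR, sv_un hpm.2.2 (hDQ p hpR) hd2 (hρ p j hpR)⟩
    · intro t ht t' ht' htt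
      rw [mem_coe, mem_filter] at ht ht'
      have h1 := Nat.mod_add_div t Q
      have h2 := Nat.mod_add_div t' Q
      have h3 : t / Q = t' / Q := htt
      rw [ht.2] at h1
      rw [ht'.2, ← h3] at h2
      exact h1.symm.trans h2
  have hle' : ((((range T).filter (fun t => ∀ j < k, ∃ p ∈ PR w z, p ∣ 1 + D * (t + j))).filter
      (fun t => t % Q = a)).card : ℝ) ≤ (((range (T / Q + 1)).filter (fun s => Hit (PR k z) J ρ s)).card : ℝ) := by
    exact_mod_cast hle
  refine (hle'.trans hcore).trans ?_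
  -- monotonicity
  have hP := sv_prod k z
  have hJk : J.card ≤ k := by
    refine (card_filter_le _ _).trans ?_
    rw [card_range]
  have hRz : (PR k z).card ≤ z := by
    unfold PR
    refine (card_filter_le _ _).trans ?_
    rw [Nat.card_Icc]
    omega
  have hs0 : 0 ≤ ∑ p ∈ PR k z, 1 / (p : ℝ) := sum_nonneg fun p _ => by positivity
  have m1 : (1 - ∏ p ∈ PR k z, (1 - 1 / (p : ℝ))) ^ J.card ≤ (1 - ∏ p ∈ PR k z, (1 - 1 / (p : ℝ))) ^ M :=
    pow_le_pow_of_le_one hP.1 hP.2 hJ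
  have hJk' : (J.card : ℝ) ≤ k := by exact_mod_cast hJk
  have hRz' : ((PR k z).card : ℝ) ≤ z := by exact_mod_cast hRz
  have m2 : 2 * Real.exp (9 * (J.card * ∑ p ∈ PR k z, 1 / (p : ℝ))) / 3 ^ r ≤
      2 * Real.exp (9 * (k * ∑ p ∈ PR k z, 1 / (p : ℝ))) / 3 ^ r := by
    refine div_le_div_of_nonneg_right ?_ (by positivity)
    refine mul_le_mul_of_nonneg_left (Real.exp_le_exp.2 ?_) (by norm_num)
    refine mul_le_mul_of_nonneg_left ?_ (by norm_num)
    exact mul_le_mul_of_nonneg_right hJk' hs0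
  have m3 : 4 * (3 * (((PR k z).card : ℝ) * J.card + 1)) ^ r ≤ 4 * (3 * ((z : ℝ) * k + 1)) ^ r := by
    refine mul_le_mul_of_nonneg_left ?_ (by norm_num)
    refine pow_le_pow_left₀ (by positivity) ?_ r
    have h1 : ((PR k z).card : ℝ) * J.card ≤ (z : ℝ) * k :=
      mul_le_mul hRz' hJk' (Nat.cast_nonneg _) (Nat.cast_nonneg _)
    linarith
  exact add_le_add (mul_le_mul_of_nonneg_left (add_le_add m1 m2) (Nat.cast_nonneg _)) m3

theorem sv (w k z D T r M : ℕ) (hwk : w < k) (hD : D = primorial w)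
    (hJ : ∀ a : ℕ, M ≤ ((range k).filter (fun j => ∀ p ∈ PR w k, ¬ p ∣ 1 + D * (a + j))).card) :
    (((range T).filter (fun t => ∀ j < k, ∃ p ∈ PR w z, p ∣ 1 + D * (t + j))).card : ℝ) ≤
      ((T : ℝ) + (∏ p ∈ PR w k, p : ℕ)) * ((1 - ∏ p ∈ PR k z, (1 - 1 / (p : ℝ))) ^ M +
        2 * Real.exp (9 * (k * ∑ p ∈ PR k z, 1 / (p : ℝ))) / 3 ^ r)
      + 4 * (∏ p ∈ PR w k, p : ℕ) * (3 * ((z : ℝ) * k + 1)) ^ r := by
  have hP := sv_prod k z
  have hone := fun a : ℕ => sv_one w k z D T r M (∏ p ∈ PR w k, p) a hwk hD rfl (hJ a)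
  have hQ0 : 0 < ∏ p ∈ PR w k, p := prod_pos fun p hp => (sv_mem hp).2.2.pos
  have hE : 0 ≤ (1 - ∏ p ∈ PR k z, (1 - 1 / (p : ℝ))) ^ M +
      2 * Real.exp (9 * (k * ∑ p ∈ PR k z, 1 / (p : ℝ))) / 3 ^ r :=
    add_nonneg (pow_nonneg hP.1 M) (by positivity)
  generalize hQ : (∏ p ∈ PR w k, p) = Q at *
  generalize (1 - ∏ p ∈ PR k z, (1 - 1 / (p : ℝ))) ^ M +
      2 * Real.exp (9 * (k * ∑ p ∈ PR k z, 1 / (p : ℝ))) / 3 ^ r = E at *
  have hfib := card_eq_sum_card_fiberwise (f := fun t => t % Q)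
    (s := (range T).filter (fun t => ∀ j < k, ∃ p ∈ PR w z, p ∣ 1 + D * (t + j))) (t := range Q)
    (fun t _ => mem_coe.2 (mem_range.2 (Nat.mod_lt t hQ0)))
  have h1 : (((range T).filter (fun t => ∀ j < k, ∃ p ∈ PR w z, p ∣ 1 + D * (t + j))).card : ℝ) ≤
      ∑ a ∈ range Q, (((T / Q + 1 : ℕ) : ℝ) * E + 4 * (3 * ((z : ℝ) * k + 1)) ^ r) := by
    rw [hfib]
    push_cast
    refine sum_le_sum fun a _ => ?_
    have h2 := hone a
    push_cast at h2
    exact h2
  refine h1.trans ?_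
  rw [sum_const, card_range, nsmul_eq_mul]
  have h3 : (Q : ℝ) * ((T / Q + 1 : ℕ) : ℝ) ≤ T + Q := by
    have h4 : Q * (T / Q + 1) ≤ T + Q := by
      have h5 := Nat.mul_div_le T Q
      rw [mul_add, mul_one]
      omega
    exact_mod_cast h4
  have h6 := mul_le_mul_of_nonneg_right h3 hE
  linarith

end Pool.Agent.H89.CY
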