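import Pool.Agent.H89.CY.Cnt
import Pool.Agent.H89.CY.Kil
import Pool.Agent.H89.CY.Sv
import Pool.Agent.H89.CY.Jst

/-!
[H89 CY GEN] the bound for the number of failures with c n <= X, with all parameters free.
-/

namespace Pool.Agent.H89.CY

open Finset Classical

/-- the number of failures with `c n ≤ X` -/
noncomputable def FX (X : ℕ) : ℕ := {n | 2 ≤ n ∧ Fails n ∧ c n ≤ X}.ncard

theorem fin_set (X : ℕ) (P : ℕ → Prop) : {n | 2 ≤ n ∧ P n ∧ c n ≤ X}.Finite := by
  apply (Set.finite_Iic X).subset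
  intro n hn
  exact (c_ge n (by have := hn.1; omega)).trans hn.2.2

theorem FX_le (A X : ℕ) : FX X ≤ A + {n | 2 ≤ n ∧ Fails n ∧ A ≤ c n ∧ c n ≤ X}.ncard := by
  unfold FX
  have hf : {n | 2 ≤ n ∧ Fails n ∧ A ≤ c n ∧ c n ≤ X}.Finite := by
    apply (Set.finite_Iic X).subset
    intro n hn
    exact (c_ge n (by have := hn.1; omega)).trans hn.2.2.2
  have h1 : {n | 2 ≤ n ∧ Fails n ∧ c n ≤ X} ⊆
      (range A : Set ℕ) ∪ {n | 2 ≤ n ∧ Fails n ∧ A ≤ c n ∧ c n ≤ X} := by
    rintro n ⟨h2, h3, h4⟩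
    rcases lt_or_ge (c n) A with h | h
    · left
      have := c_ge n (by omega)
      simp only [coe_range, Set.mem_Iio]
      omega
    · right
      exact ⟨h2, h3, h, h4⟩
  refine (Set.ncard_le_ncard h1 ((finite_toSet _).union hf)).trans ?_
  refine (Set.ncard_union_le _ _).trans ?_
  rw [Set.ncard_coe_finset, card_range]

theorem two_sets (w k z D X : ℕ) (hD : D = primorial w) :
    {t | t ≤ X / D + 1 ∧ ∀ j < k, ¬ Cyc (1 + D * (t + j))}.ncard ≤
      ((range (X / D + 2)).filter (fun t => ∀ j < k, ∃ p ∈ PR w z, p ∣ 1 + D * (t + j))).card +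
      ∑ j ∈ range k, ((range (X / D + 2)).filter (fun t => Kill z (1 + D * (t + j)))).card := by
  have h1 : {t | t ≤ X / D + 1 ∧ ∀ j < k, ¬ Cyc (1 + D * (t + j))} ⊆
      (((range (X / D + 2)).filter (fun t => ∀ j < k, ∃ p ∈ PR w z, p ∣ 1 + D * (t + j))) ∪
      (range k).biUnion (fun j => (range (X / D + 2)).filter (fun t => Kill z (1 + D * (t + j)))) : Finset ℕ) := by
    rintro t ⟨ht, hc⟩
    simp only [coe_union, coe_filter, coe_biUnion, Set.mem_union, Set.mem_setOf_eq, mem_range, Set.mem_iUnion,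
      mem_coe]
    by_cases h : ∀ j < k, ∃ p ∈ PR w z, p ∣ 1 + D * (t + j)
    · left
      exact ⟨by omega, h⟩
    · right
      push Not at h
      obtain ⟨j, hj, hp⟩ := h
      refine ⟨j, hj, by omega, ?_⟩
      refine split z _ (by omega) (hc j hj) ?_
      intro p hp1 hp2
      by_contra hz
      push Not at hz
      rcases le_or_gt p w with h3 | h3
      · have h4 : p ∣ D := by
          rw [hD]
          exact (Nat.Prime.dvd_primorial_iff hp1).2 h3
        have h5 : p ∣ 1 := (Nat.dvd_add_left (h4.mul_right (t + j))).1 hp2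
        exact hp1.one_lt.ne' (Nat.dvd_one.1 h5)
      · apply hp p _ hp2
        unfold PR
        rw [mem_filter, mem_Icc]
        exact ⟨⟨by omega, hz⟩, hp1⟩
  refine (Set.ncard_le_ncard h1 (finite_toSet _)).trans ?_
  rw [Set.ncard_coe_finset]
  refine (card_union_le _ _).trans ?_
  gcongr
  exact card_biUnion_le

theorem kill_j (k z D X j Y : ℕ) (hD : 1 ≤ D) (hz : 1 ≤ z) (hj : j < k) (hY : Y = 1 + D * (X / D + 1 + k)) :
    (((range (X / D + 2)).filter (fun t => Kill z (1 + D * (t + j)))).card : ℝ) ≤ Y * (2 + Real.log Y) / z := by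
  refine le_trans ?_ (kil_card z Y hz (by rw [hY]; omega))
  norm_cast
  refine card_le_card_of_injOn (fun t => 1 + D * (t + j)) ?_ ?_
  · intro t ht
    simp only [coe_filter, mem_range, Set.mem_setOf_eq] at ht
    simp only [coe_filter, mem_Icc, Set.mem_setOf_eq]
    refine ⟨⟨by omega, ?_⟩, ht.2⟩
    rw [hY]
    have : D * (t + j) ≤ D * (X / D + 1 + k) := Nat.mul_le_mul_left _ (by omega)
    omega
  · intro a _ b _ h
    simp only at h
    have : D * (a + j) = D * (b + j) := by omega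
    have := Nat.eq_of_mul_eq_mul_left (by omega) this
    omega

theorem gen (w k z D r M A X Y : ℕ) (hwk : w < k) (hD : D = primorial w) (hD2 : 2 ≤ D) (hz : 1 ≤ z)
    (hA : (((k + 1) * D : ℕ) : ℝ) ≤ Real.log A) (h1 : ∑ p ∈ PR w k, 1 / (p : ℝ) ≤ 17 / 20)
    (h2 : 20 * (PR w k).card ≤ k) (hM : M ≤ k / 10) (hY : Y = 1 + D * (X / D + 1 + k)) :
    (FX X : ℝ) ≤ A + ((((X / D + 2 : ℕ) : ℝ) + (∏ p ∈ PR w k, p : ℕ)) *
        ((1 - ∏ p ∈ PR k z, (1 - 1 / (p : ℝ))) ^ M +
        2 * Real.exp (9 * (k * ∑ p ∈ PR k z, 1 / (p : ℝ))) / 3 ^ r)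
      + 4 * (∏ p ∈ PR w k, p : ℕ) * (3 * ((z : ℝ) * k + 1)) ^ r) + k * (Y * (2 + Real.log Y) / z) := by
  have e1 := FX_le A X
  have e2 := cnt D k A X hD2 (by omega) hA
  have e3 := two_sets w k z D X hD
  have e4 := sv w k z D (X / D + 2) r M hwk hD (by
    intro a
    have := jst w k D a hD h1 h2
    have h5 : (M : ℝ) ≤ (k : ℝ) / 10 := by
      have : (M : ℝ) ≤ ((k / 10 : ℕ) : ℝ) := by exact_mod_cast hM
      exact this.trans Nat.cast_div_le
    exact_mod_cast h5.trans this)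
  have e5 : ((∑ j ∈ range k, ((range (X / D + 2)).filter (fun t => Kill z (1 + D * (t + j)))).card : ℕ) : ℝ) ≤
      k * (Y * (2 + Real.log Y) / z) := by
    push_cast
    refine (sum_le_sum fun j hj => kill_j k z D X j Y (by omega) hz (mem_range.1 hj) hY).trans ?_
    rw [sum_const, card_range, nsmul_eq_mul]
  have e6 : (FX X : ℝ) ≤ A + ((((range (X / D + 2)).filter
      (fun t => ∀ j < k, ∃ p ∈ PR w z, p ∣ 1 + D * (t + j))).card : ℝ) +
      ((∑ j ∈ range k, ((range (X / D + 2)).filter (fun t => Kill z (1 + D * (t + j)))).card : ℕ) : ℝ)) := by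
    exact_mod_cast (e1.trans (by omega))
  linarith

end Pool.Agent.H89.CY
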