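import Pool.Agent.H89.CY.Def

/-!
[H89 CY PER, part 1] the Chinese remainder count `cls` (helper56).
-/

namespace Pool.Agent.H89.CY.A

open Finset Classical

private theorem cls_per (Q : ℕ) (G : ℕ → Prop) (hG : ∀ s, G (s + Q) ↔ G s) (s : ℕ) : G s ↔ G (s % Q) := by
  have h : ∀ k m : ℕ, G (m + Q * k) ↔ G m := by
    intro k
    induction k with
    | zero => intro m; simp
    | succ k ih => intro m; rw [Nat.mul_succ, ← add_assoc, hG, ih]
  conv_lhs => rw [← Nat.mod_add_div s Q]
  exact h _ _

private theorem cls_count (r v n : ℕ) (hr : 0 < r) :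
    ((range (r * n)).filter (fun s => s ≡ v [MOD r])).card = n := by
  rw [← Nat.count_eq_card_filter_range, Nat.count_modEq_card _ hr, Nat.mul_div_cancel_left _ hr, Nat.mul_mod_right]
  simp

theorem cls (Q p n a : ℕ) (hQ : 1 ≤ Q) (hp : 1 ≤ p) (hc : Nat.Coprime Q p) (G : ℕ → Prop)
    (hG : ∀ s, G (s + Q) ↔ G s) :
    p * ((range (Q * p * n)).filter (fun s => s ≡ a [MOD p] ∧ G s)).card =
      ((range (Q * p * n)).filter (fun s => G s)).card := by
  have hper := cls_per Q G hG
  have hQ0 : 0 < Q := hQ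
  have hp0 : 0 < p := hp
  rw [card_eq_sum_card_fiberwise (f := fun s => s % Q) (t := (range Q).filter G)
      (s := (range (Q * p * n)).filter (fun s => s ≡ a [MOD p] ∧ G s)),
    card_eq_sum_card_fiberwise (f := fun s => s % Q) (t := (range Q).filter G)
      (s := (range (Q * p * n)).filter (fun s => G s)), mul_sum]
  · refine sum_congr rfl fun b hb => ?_
    rw [mem_filter, mem_range] at hb
    obtain ⟨hbQ, hGb⟩ := hb
    have hmod : b % Q = b := Nat.mod_eq_of_lt hbQ
    have e1 : (((range (Q * p * n)).filter (fun s => s ≡ a [MOD p] ∧ G s)).filter (fun s => s % Q = b)) =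
        (range (Q * p * n)).filter (fun s => s ≡ (Nat.chineseRemainder hc b a : ℕ) [MOD Q * p]) := by
      ext s
      simp only [mem_filter, mem_range]
      constructor
      · rintro ⟨⟨hs, h1, -⟩, h2⟩
        refine ⟨hs, ?_⟩
        refine (Nat.modEq_and_modEq_iff_modEq_mul hc).1 ⟨?_, ?_⟩
        · refine Nat.ModEq.trans ?_ (Nat.chineseRemainder hc b a).2.1.symm
          unfold Nat.ModEq
          rw [h2, hmod]
        · exact h1.trans (Nat.chineseRemainder hc b a).2.2.symm
      · rintro ⟨hs, h1⟩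
        obtain ⟨h2, h3⟩ := (Nat.modEq_and_modEq_iff_modEq_mul hc).2 h1
        have h4 : s % Q = b := by
          have := h2.trans (Nat.chineseRemainder hc b a).2.1
          unfold Nat.ModEq at this
          rw [this, hmod]
        refine ⟨⟨hs, h3.trans (Nat.chineseRemainder hc b a).2.2, ?_⟩, h4⟩
        rw [hper, h4]; exact hGb
    have e2 : (((range (Q * p * n)).filter (fun s => G s)).filter (fun s => s % Q = b)) =
        (range (Q * (p * n))).filter (fun s => s ≡ b [MOD Q]) := by
      ext s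
      simp only [mem_filter, mem_range, mul_assoc]
      constructor
      · rintro ⟨⟨hs, -⟩, h2⟩
        refine ⟨hs, ?_⟩
        unfold Nat.ModEq
        rw [h2, hmod]
      · rintro ⟨hs, h1⟩
        unfold Nat.ModEq at h1
        rw [hmod] at h1
        refine ⟨⟨hs, ?_⟩, h1⟩
        rw [hper, h1]; exact hGb
    rw [e1, e2, cls_count _ _ _ (Nat.mul_pos hQ0 hp0), cls_count _ _ _ hQ0]
  · intro s hs
    simp only [coe_filter, mem_range, Set.mem_ofPred_eq] at hs ⊢
    exact ⟨Nat.mod_lt _ hQ0, (hper s).1 hs.2⟩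
  · intro s hs
    simp only [coe_filter, mem_range, Set.mem_ofPred_eq] at hs ⊢
    exact ⟨Nat.mod_lt _ hQ0, (hper s).1 hs.2.2⟩

end Pool.Agent.H89.CY.A
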