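import Pool.Agent.H89.CY.Dlt
import Pool.Agent.H89.CY.Crt
import Pool.Agent.H2.WO.Sie
import Pool.Agent.H95.FL.Main

/-!
[H89 CY RGH] lower bound sieve in short intervals: the sieve `Pool.Agent.H2.WO.sieve` (fundamental lemma `Pool.Agent.H95.FL.FL`)
with K = 1, B = 10, η = 1/2, a = 1/144 gives w0 (>= 200) and x0. Take w = w0, C = 146, P = PR w y (y large), x = y^144
(x^a = y, x^η * x^η = y^144), g p = 1/p.
For D = primorial w no p in P divides D, so for S ⊆ P the j < k with p | 1 + D (a + j) for all p in S form one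
class modulo the product of S: their number is within 1 of k / prod S (`crt` of Crt.lean). Hence
#{j < k : no p in P divides} >= k (1 - 2^(-10)) prod_{p in P} (1 - 1/p) - y^144
>= (k/2) c0 / log y - k / y^2 (`dlt` of Dlt.lean, k >= y^146) >= (c0/4) k / log y for large y.
-/

namespace Pool.Agent.H89.CY

open Finset Classical

private theorem rg_mem {a b p : ℕ} (h : p ∈ PR a b) : a < p ∧ p ≤ b ∧ p.Prime := by
  unfold PR at h
  rw [mem_filter, mem_Icc] at h
  exact ⟨by omega, h.1.2, h.2⟩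

private theorem rg_D {w p : ℕ} (hp : p.Prime) (h : w < p) : ¬ p ∣ primorial w := by
  intro hd
  unfold primorial at hd
  obtain ⟨q, hq, hpq⟩ := (hp.prime.dvd_finsetProd_iff _).1 hd
  have h1 := mem_filter.1 hq
  have h2 := Nat.le_of_dvd h1.2.pos hpq
  have h3 := mem_range.1 h1.1
  omega

/-- a solution of the congruence -/
private theorem rg_ex {p X Y : ℕ} (hp : p.Prime) (hY : ¬ p ∣ Y) : ∃ s, p ∣ X + Y * s := by
  have : Fact p.Prime := ⟨hp⟩
  have hY0 : (Y : ZMod p) ≠ 0 := by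
    intro h
    exact hY ((ZMod.natCast_eq_zero_iff Y p).1 h)
  refine ⟨(-(X : ZMod p) * (Y : ZMod p)⁻¹).val, ?_⟩
  rw [← ZMod.natCast_eq_zero_iff]
  push_cast
  rw [ZMod.natCast_val, ZMod.cast_id', id]
  field_simp
  ring

/-- the condition is a congruence -/
private theorem rg_iff {p X Y s s' : ℕ} (hp : p.Prime) (hY : ¬ p ∣ Y) (h' : p ∣ X + Y * s') :
    p ∣ X + Y * s ↔ s ≡ s' [MOD p] := by
  have : Fact p.Prime := ⟨hp⟩
  rw [← ZMod.natCast_eq_zero_iff] at h' ⊢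
  rw [← ZMod.natCast_eq_natCast_iff]
  have hY0 : (Y : ZMod p) ≠ 0 := by
    intro h
    exact hY ((ZMod.natCast_eq_zero_iff Y p).1 h)
  push_cast at h' ⊢
  constructor
  · intro h
    have h1 : (Y : ZMod p) * ((s : ZMod p) - s') = 0 := by linear_combination h - h'
    rcases mul_eq_zero.1 h1 with h2 | h2
    · exact absurd h2 hY0
    · exact sub_eq_zero.1 h2
  · intro h
    rw [h]
    exact h'

private theorem rg_cnt (w y a k : ℕ) (S : Finset ℕ) (hS : S ⊆ PR w y) :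
    |(((range k).filter (fun j => ∀ p ∈ S, p ∣ 1 + primorial w * (a + j))).card : ℝ) -
      k * ∏ p ∈ S, (1 / (p : ℝ))| ≤ 1 := by
  have hex : ∀ p : ℕ, ∃ s, p ∈ PR w y → p ∣ (1 + primorial w * a) + primorial w * s := by
    intro p
    by_cases hp : p ∈ PR w y
    · have hm := rg_mem hp
      obtain ⟨s, hs⟩ := rg_ex (X := 1 + primorial w * a) hm.2.2 (rg_D hm.2.2 hm.1)
      exact ⟨s, fun _ => hs⟩
    · exact ⟨0, fun h => absurd h hp⟩
  choose ρ hρ using hex
  have h := crt k (S.image (fun p => (p, 0))) (fun p _ => ρ p) (by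
    intro b hb
    obtain ⟨p, hp, rfl⟩ := mem_image.1 hb
    exact (rg_mem (hS hp)).2.2) (by
    intro b hb b' hb' he
    obtain ⟨p, hp, rfl⟩ := mem_image.1 hb
    obtain ⟨p', hp', rfl⟩ := mem_image.1 hb'
    simp only at he
    rw [he])
  have e1 : ((range k).filter (fun s => ∀ b ∈ S.image (fun p => (p, 0)), s ≡ ρ b.1 [MOD b.1])) =
      ((range k).filter (fun j => ∀ p ∈ S, p ∣ 1 + primorial w * (a + j))) := by
    ext j
    simp only [mem_filter]
    refine and_congr_right fun _ => ?_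
    constructor
    · intro h1 p hp
      have h2 := h1 (p, 0) (mem_image_of_mem _ hp)
      have hm := rg_mem (hS hp)
      have h3 := (rg_iff (s := j) hm.2.2 (rg_D hm.2.2 hm.1) (hρ p (hS hp))).2 h2
      have e : 1 + primorial w * (a + j) = (1 + primorial w * a) + primorial w * j := by ring
      rw [e]
      exact h3
    · intro h1 b hb
      obtain ⟨p, hp, rfl⟩ := mem_image.1 hb
      have hm := rg_mem (hS hp)
      have h2 := h1 p hp
      have e : 1 + primorial w * (a + j) = (1 + primorial w * a) + primorial w * j := by ring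
      rw [e] at h2
      exact (rg_iff (s := j) hm.2.2 (rg_D hm.2.2 hm.1) (hρ p (hS hp))).1 h2
  have e2 : ∏ b ∈ S.image (fun p => (p, 0)), (1 / (b.1 : ℝ)) = ∏ p ∈ S, (1 / (p : ℝ)) := by
    rw [prod_image]
    intro p _ p' _ he
    exact (Prod.mk.inj he).1
  rw [e2] at h
  rw [← e1]
  convert h

theorem rgh : ∃ (w C : ℕ) (c : ℝ) (y0 : ℕ), 2 ≤ w ∧ 2 ≤ C ∧ 0 < c ∧ w < y0 ∧ ∀ y : ℕ, y0 ≤ y → ∀ k : ℕ, y ^ C ≤ k →
    ∀ a : ℕ, c * k / Real.log y ≤
      ((range k).filter (fun j => ∀ p ∈ PR w y, ¬ p ∣ 1 + primorial w * (a + j))).card := by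
  obtain ⟨w0, hw0, hs⟩ := Pool.Agent.H2.WO.sieve 1 le_rfl
  obtain ⟨c0, hc0, hd⟩ := dlt
  obtain ⟨x0, hx0, hx⟩ := hs 10 (1 / 2) (1 / 144) (by norm_num) (by norm_num) (by norm_num) (by norm_num)
  refine ⟨w0, 146, c0 / 4, w0 + 1 + ⌈x0⌉₊ + ⌈4 / c0⌉₊, by omega, by norm_num, by positivity, by omega, ?_⟩
  intro y hy k hk a
  have hy1 : x0 ≤ (y : ℝ) := (Nat.le_ceil x0).trans (by exact_mod_cast (by omega : ⌈x0⌉₊ ≤ y))
  have hy2 : 4 / c0 ≤ (y : ℝ) := (Nat.le_ceil (4 / c0)).trans (by exact_mod_cast (by omega : ⌈4 / c0⌉₊ ≤ y))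
  have hy3 : (3 : ℝ) ≤ y := hx0.trans hy1
  have hy3' : 3 ≤ y := by exact_mod_cast hy3
  have hy0 : (0 : ℝ) < y := by linarith
  have hyw : w0 < y := by omega
  have hxy : x0 ≤ (y : ℝ) ^ 144 := hy1.trans (le_self_pow₀ (by linarith) (by norm_num))
  have hroot : ((y : ℝ) ^ 144) ^ (1 / 144 : ℝ) = y := by
    have h := Real.pow_rpow_inv_natCast hy0.le (by norm_num : (144 : ℕ) ≠ 0)
    have e : (1 / 144 : ℝ) = ((144 : ℕ) : ℝ)⁻¹ := by norm_num
    rw [e]
    exact h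
  have hxx : ((y : ℝ) ^ 144) ^ (1 / 2 : ℝ) * ((y : ℝ) ^ 144) ^ (1 / 2 : ℝ) = (y : ℝ) ^ 144 := by
    rw [← Real.rpow_add (by positivity)]
    norm_num
  have hmain := hx ((y : ℝ) ^ 144) hxy (PR w0 y) (by
    intro p hp
    have hm := rg_mem hp
    refine ⟨hm.2.2, hm.1, ?_⟩
    rw [hroot]
    exact_mod_cast hm.2.1) (range k) (fun p j => p ∣ 1 + primorial w0 * (a + j)) (fun p => 1 / (p : ℝ)) k 1
    (Nat.cast_nonneg k) zero_le_one (by
    intro p hp
    have hm := rg_mem hp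
    have hp0 : (0 : ℝ) < p := by exact_mod_cast hm.2.2.pos
    refine ⟨by positivity, ?_⟩
    push_cast
    exact div_le_div_of_nonneg_right (by norm_num) hp0.le) (by
    intro S hS
    have hS' := mem_powerset.1 hS
    refine (rg_cnt w0 y a k S hS').trans ?_
    have h1 : (1 : ℝ) ≤ ((∏ p ∈ S, p : ℕ) : ℝ) := by
      have : 0 < ∏ p ∈ S, p := prod_pos fun p hp => (rg_mem (hS' hp)).2.2.pos
      exact_mod_cast this
    simpa using h1)
  rw [hxx, one_mul] at hmain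
  have hprod := hd w0 y hy3'
  have hlog : 0 < Real.log y := Real.log_pos (by linarith)
  have hk0 : (0 : ℝ) ≤ k := Nat.cast_nonneg k
  have hk' : (y : ℝ) ^ 146 ≤ k := by exact_mod_cast hk
  -- the main term
  have h1 : (k : ℝ) * (c0 / Real.log y) ≤ k * ∏ p ∈ PR w0 y, (1 - 1 / (p : ℝ)) :=
    mul_le_mul_of_nonneg_left hprod hk0
  -- the error term
  have h2 : (y : ℝ) ^ 144 ≤ c0 / 4 * k / Real.log y := by
    rw [le_div_iff₀ hlog]
    have h3 : Real.log y ≤ y := (Real.log_le_sub_one_of_pos hy0).trans (by linarith)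
    have h4 : 1 ≤ c0 / 4 * y := by
      have h5 := mul_le_mul_of_nonneg_left hy2 (by positivity : 0 ≤ c0 / 4)
      have h6 : c0 / 4 * (4 / c0) = 1 := by field_simp
      linarith
    calc (y : ℝ) ^ 144 * Real.log y ≤ (y : ℝ) ^ 144 * y := by gcongr
      _ = (y : ℝ) ^ 145 * 1 := by ring
      _ ≤ (y : ℝ) ^ 145 * (c0 / 4 * y) := by gcongr
      _ = c0 / 4 * (y : ℝ) ^ 146 := by ring
      _ ≤ c0 / 4 * k := by gcongr
  have h7 : (k : ℝ) * (c0 / Real.log y) = 4 * (c0 / 4 * k / Real.log y) := by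
    field_simp
  have h8 : 0 ≤ c0 / 4 * k / Real.log y := by positivity
  have h9 : ((1 : ℝ) / 2) ^ 10 = 1 / 1024 := by norm_num
  rw [h9] at hmain
  have key : ∀ N : ℝ, |N - k * ∏ p ∈ PR w0 y, (1 - 1 / (p : ℝ))| ≤
      1 / 1024 * (k * ∏ p ∈ PR w0 y, (1 - 1 / (p : ℝ))) + (y : ℝ) ^ 144 → c0 / 4 * k / Real.log y ≤ N := by
    intro N hN
    have h10 := (abs_le.1 hN).1
    linarith
  refine key _ ?_
  convert hmain

end Pool.Agent.H89.CY
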